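import Mathlib

/-!
# The recursion `ρ(r+1,m+1) ≤ ρ(r+1,m) + ρ(r,m)` (module R of stage 3)
-/

set_option autoImplicit false

open scoped BigOperators

namespace RMC71

/-- `N_r(f)`: the least Hamming distance from `f` to a Boolean function given by a polynomial of
total degree at most `r`. -/
noncomputable def rmDist (r m : ℕ) (f : (Fin m → ZMod 2) → ZMod 2) : ℕ :=
  sInf {d | ∃ p : MvPolynomial (Fin m) (ZMod 2), p.totalDegree ≤ r ∧
    d = (Finset.univ.filter (fun x => f x ≠ MvPolynomial.eval x p)).card}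

/-- The covering radius of the Reed-Muller code `RM(r,m)`. -/
noncomputable def covRadius (r m : ℕ) : ℕ :=
  Finset.univ.sup (fun f : (Fin m → ZMod 2) → ZMod 2 => rmDist r m f)

lemma rmDist_le_covRadius (r m : ℕ) (f : (Fin m → ZMod 2) → ZMod 2) : rmDist r m f ≤ covRadius r m :=
  Finset.le_sup (f := fun f : (Fin m → ZMod 2) → ZMod 2 => rmDist r m f) (Finset.mem_univ f)

lemma exists_rmDist (r m : ℕ) (f : (Fin m → ZMod 2) → ZMod 2) :
    ∃ p : MvPolynomial (Fin m) (ZMod 2), p.totalDegree ≤ r ∧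
      rmDist r m f = (Finset.univ.filter (fun x => f x ≠ MvPolynomial.eval x p)).card := by
  have h : {d | ∃ p : MvPolynomial (Fin m) (ZMod 2), p.totalDegree ≤ r ∧
      d = (Finset.univ.filter (fun x => f x ≠ MvPolynomial.eval x p)).card}.Nonempty :=
    ⟨_, 0, by rw [MvPolynomial.totalDegree_zero]; exact Nat.zero_le _, rfl⟩
  exact Nat.sInf_mem h

lemma rmDist_le (r m : ℕ) (f : (Fin m → ZMod 2) → ZMod 2) (p : MvPolynomial (Fin m) (ZMod 2))
    (hp : p.totalDegree ≤ r) :
    rmDist r m f ≤ (Finset.univ.filter (fun x => f x ≠ MvPolynomial.eval x p)).card :=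
  Nat.sInf_le ⟨p, hp, rfl⟩

/-- splitting off the first coordinate -/
lemma card_cons (m : ℕ) (P : (Fin (m + 1) → ZMod 2) → Prop) [DecidablePred P] :
    (Finset.univ.filter P).card =
      (Finset.univ.filter (fun x : Fin m → ZMod 2 => P (Fin.cons 0 x))).card +
      (Finset.univ.filter (fun x : Fin m → ZMod 2 => P (Fin.cons 1 x))).card := by
  have h1 : (Finset.univ.filter P).card = ∑ y : Fin (m + 1) → ZMod 2, if P y then 1 else 0 := by
    rw [Finset.card_filter]
  have h2 : ∑ y : Fin (m + 1) → ZMod 2, (if P y then 1 else 0) =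
      ∑ z : ZMod 2 × (Fin m → ZMod 2), if P (Fin.cons z.1 z.2) then 1 else 0 :=
    (Fintype.sum_equiv (Fin.consEquiv (fun _ : Fin (m + 1) => ZMod 2)) _ _ (fun z => rfl)).symm
  rw [h1, h2, Fintype.sum_prod_type]
  have h3 : ∀ g : ZMod 2 → ℕ, ∑ a : ZMod 2, g a = g 0 + g 1 := fun g => Fin.sum_univ_two g
  rw [h3, Finset.card_filter, Finset.card_filter]

/-- **the recursion** -/
theorem covRadius_rec (r m : ℕ) : covRadius (r + 1) (m + 1) ≤ covRadius (r + 1) m + covRadius r m := by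
  unfold covRadius
  refine Finset.sup_le fun f _ => ?_
  obtain ⟨u, hu, hu'⟩ := exists_rmDist (r + 1) m (fun x => f (Fin.cons 0 x))
  obtain ⟨v, hv, hv'⟩ := exists_rmDist r m (fun x => f (Fin.cons 1 x) + MvPolynomial.eval x u)
  have h1 := rmDist_le (r + 1) (m + 1) f
    (MvPolynomial.rename Fin.succ u + MvPolynomial.X 0 * MvPolynomial.rename Fin.succ v) ?_
  · refine h1.trans ?_
    rw [card_cons]
    have h2 : ∀ (a : ZMod 2) (x : Fin m → ZMod 2), MvPolynomial.eval (Fin.cons a x : Fin (m + 1) → ZMod 2)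
        (MvPolynomial.rename Fin.succ u + MvPolynomial.X 0 * MvPolynomial.rename Fin.succ v) =
        MvPolynomial.eval x u + a * MvPolynomial.eval x v := by
      intro a x
      rw [map_add, map_mul, MvPolynomial.eval_X, MvPolynomial.eval_rename, MvPolynomial.eval_rename]
      have h3 : (Fin.cons a x : Fin (m + 1) → ZMod 2) ∘ Fin.succ = x := by
        funext i
        exact Fin.cons_succ (α := fun _ => ZMod 2) a x i
      rw [h3, Fin.cons_zero]
    have h3 : (Finset.univ.filter (fun x : Fin m → ZMod 2 => f (Fin.cons 0 x) ≠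
        MvPolynomial.eval (Fin.cons 0 x : Fin (m + 1) → ZMod 2)
        (MvPolynomial.rename Fin.succ u + MvPolynomial.X 0 * MvPolynomial.rename Fin.succ v))).card =
        rmDist (r + 1) m (fun x => f (Fin.cons 0 x)) := by
      rw [hu']
      congr 1
      refine Finset.filter_congr fun x _ => ?_
      rw [h2, zero_mul, add_zero]
    have h4 : (Finset.univ.filter (fun x : Fin m → ZMod 2 => f (Fin.cons 1 x) ≠
        MvPolynomial.eval (Fin.cons 1 x : Fin (m + 1) → ZMod 2)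
        (MvPolynomial.rename Fin.succ u + MvPolynomial.X 0 * MvPolynomial.rename Fin.succ v))).card =
        rmDist r m (fun x => f (Fin.cons 1 x) + MvPolynomial.eval x u) := by
      rw [hv']
      congr 1
      refine Finset.filter_congr fun x _ => ?_
      rw [h2, one_mul]
      refine not_congr ?_
      have h5 : ∀ a b c : ZMod 2, a = b + c ↔ a + b = c := by decide
      exact h5 _ _ _
    rw [h3, h4]
    exact Nat.add_le_add (rmDist_le_covRadius _ _ _) (rmDist_le_covRadius _ _ _)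
  · refine (MvPolynomial.totalDegree_add _ _).trans (max_le ?_ ?_)
    · exact (MvPolynomial.totalDegree_rename_le _ _).trans hu
    · refine (MvPolynomial.totalDegree_mul _ _).trans ?_
      rw [MvPolynomial.totalDegree_X, add_comm]
      exact Nat.add_le_add_right ((MvPolynomial.totalDegree_rename_le _ _).trans hv) 1

theorem covRadius_le_half (r m : ℕ) : 2 * covRadius r m ≤ 2 ^ m := by
  obtain ⟨f, -, hf⟩ := Finset.exists_mem_eq_sup (Finset.univ : Finset ((Fin m → ZMod 2) → ZMod 2))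
    ⟨0, Finset.mem_univ _⟩ (fun f => rmDist r m f)
  unfold covRadius
  rw [hf]
  have h1 := rmDist_le r m f 0 (by rw [MvPolynomial.totalDegree_zero]; exact Nat.zero_le _)
  have h2 := rmDist_le r m f 1 (by rw [MvPolynomial.totalDegree_one]; exact Nat.zero_le _)
  have h3 : (Finset.univ.filter (fun x => f x ≠ MvPolynomial.eval x (0 : MvPolynomial (Fin m) (ZMod 2)))).card +
      (Finset.univ.filter (fun x => f x ≠ MvPolynomial.eval x (1 : MvPolynomial (Fin m) (ZMod 2)))).card = 2 ^ m := by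
    have h4 : (Finset.univ.filter (fun x => f x ≠ MvPolynomial.eval x (1 : MvPolynomial (Fin m) (ZMod 2)))) =
        Finset.univ.filter (fun x => ¬ (f x ≠ MvPolynomial.eval x (0 : MvPolynomial (Fin m) (ZMod 2)))) := by
      refine Finset.filter_congr fun x _ => ?_
      rw [map_one, map_zero]
      have h5 : ∀ a : ZMod 2, a ≠ 1 ↔ ¬ a ≠ 0 := by decide
      exact h5 _
    rw [h4, Finset.card_filter_add_card_filter_not, Finset.card_univ, Fintype.card_fun, ZMod.card, Fintype.card_fin]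
  omega

/-- `2^(m-1) - ρ(r,m)` -/
noncomputable def gap (r m : ℕ) : ℝ := 2 ^ m / 2 - covRadius r m

lemma gap_nonneg (r m : ℕ) : 0 ≤ gap r m := by
  have h := covRadius_le_half r m
  have h1 : (2 : ℝ) * covRadius r m ≤ 2 ^ m := by exact_mod_cast h
  unfold gap
  linarith

lemma gap_rec (r m : ℕ) : gap (r + 1) m + gap r m ≤ gap (r + 1) (m + 1) := by
  have h := covRadius_rec r m
  have h1 : (covRadius (r + 1) (m + 1) : ℝ) ≤ covRadius (r + 1) m + covRadius r m := by exact_mod_cast h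
  unfold gap
  rw [pow_succ]
  linarith

lemma sqrt_step {t : ℝ} (ht : 0 ≤ t) :
    (1 + Real.sqrt 2) * (Real.sqrt 2 * Real.sqrt (t + 1)) ≤ (1 + Real.sqrt 2) * Real.sqrt t + Real.sqrt (t + 12) := by
  have h2 : Real.sqrt 2 ^ 2 = 2 := Real.sq_sqrt (by norm_num)
  have h20 : 0 ≤ Real.sqrt 2 := Real.sqrt_nonneg _
  have h21 : 1 ≤ Real.sqrt 2 := by
    rw [Real.one_le_sqrt]
    norm_num
  have h22 : Real.sqrt 2 ≤ 17 / 12 := by
    rw [Real.sqrt_le_left (by norm_num)]
    norm_num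
  have h3 : Real.sqrt 2 * Real.sqrt (t + 1) ≤ Real.sqrt t + (Real.sqrt 2 - 1) * Real.sqrt (t + 12) := by
    have h4 : 0 ≤ Real.sqrt t + (Real.sqrt 2 - 1) * Real.sqrt (t + 12) := by
      have := mul_nonneg (sub_nonneg.2 h21) (Real.sqrt_nonneg (t + 12))
      have := Real.sqrt_nonneg t
      linarith
    refine (pow_le_pow_iff_left₀ (by positivity) h4 two_ne_zero).1 ?_
    rw [mul_pow, h2, Real.sq_sqrt (by linarith)]
    have h5 : t ≤ Real.sqrt t * Real.sqrt (t + 12) := by
      calc t = Real.sqrt t * Real.sqrt t := (Real.mul_self_sqrt ht).symm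
        _ ≤ Real.sqrt t * Real.sqrt (t + 12) :=
          mul_le_mul_of_nonneg_left (Real.sqrt_le_sqrt (by linarith)) (Real.sqrt_nonneg _)
    have h6 : Real.sqrt t ^ 2 = t := Real.sq_sqrt ht
    have h7 : Real.sqrt (t + 12) ^ 2 = t + 12 := Real.sq_sqrt (by linarith)
    have h8 : (Real.sqrt t + (Real.sqrt 2 - 1) * Real.sqrt (t + 12)) ^ 2 =
        t + (3 - 2 * Real.sqrt 2) * (t + 12) + 2 * (Real.sqrt 2 - 1) * (Real.sqrt t * Real.sqrt (t + 12)) := by
      have : (Real.sqrt t + (Real.sqrt 2 - 1) * Real.sqrt (t + 12)) ^ 2 = Real.sqrt t ^ 2 +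
        (Real.sqrt 2 ^ 2 - 2 * Real.sqrt 2 + 1) * Real.sqrt (t + 12) ^ 2 +
        2 * (Real.sqrt 2 - 1) * (Real.sqrt t * Real.sqrt (t + 12)) := by ring
      rw [this, h6, h7, h2]
      ring
    rw [h8]
    have h9 := mul_le_mul_of_nonneg_left h5 (show 0 ≤ 2 * (Real.sqrt 2 - 1) by linarith)
    nlinarith
  have h4 := mul_le_mul_of_nonneg_left h3 (show 0 ≤ 1 + Real.sqrt 2 by linarith)
  have h5 : (1 + Real.sqrt 2) * (Real.sqrt t + (Real.sqrt 2 - 1) * Real.sqrt (t + 12)) =
      (1 + Real.sqrt 2) * Real.sqrt t + (Real.sqrt 2 ^ 2 - 1) * Real.sqrt (t + 12) := by ring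
  rw [h5, h2] at h4
  linarith

/-- **from `r = 2` to all `r`** -/
theorem gap_all (c : ℝ) (hc : 0 ≤ c) (M₀ r₀ : ℕ)
    (h : ∀ m, M₀ ≤ m → c * Real.sqrt m * Real.sqrt (2 ^ m) ≤ gap r₀ m) (k : ℕ) :
    ∀ m, M₀ + 12 * k ≤ m →
      c * (1 + Real.sqrt 2) ^ k * Real.sqrt ((m : ℝ) - (M₀ + 12 * k)) * Real.sqrt (2 ^ m) ≤ gap (r₀ + k) m := by
  induction k with
  | zero =>
    intro m hm
    refine le_trans ?_ (h m (by omega))
    rw [pow_zero, mul_one]
    refine mul_le_mul_of_nonneg_right (mul_le_mul_of_nonneg_left (Real.sqrt_le_sqrt ?_) hc) (Real.sqrt_nonneg _)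
    have : (0 : ℝ) ≤ M₀ := Nat.cast_nonneg _
    push_cast
    linarith
  | succ k ih =>
    intro m hm
    obtain ⟨t, rfl⟩ := Nat.exists_eq_add_of_le hm
    clear hm
    induction t with
    | zero =>
      have h1 : ((M₀ + 12 * (k + 1) + 0 : ℕ) : ℝ) - (M₀ + 12 * ((k + 1 : ℕ) : ℝ)) = 0 := by
        push_cast
        ring
      rw [h1, Real.sqrt_zero, mul_zero, zero_mul]
      exact gap_nonneg _ _
    | succ t iht =>
      have h1 := ih (M₀ + 12 * (k + 1) + t) (by omega)
      have h2 := gap_rec (r₀ + k) (M₀ + 12 * (k + 1) + t)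
      have e1 : ((M₀ + 12 * (k + 1) + t : ℕ) : ℝ) - (M₀ + 12 * (k : ℝ)) = (t : ℝ) + 12 := by
        push_cast
        ring
      have e2 : ((M₀ + 12 * (k + 1) + t : ℕ) : ℝ) - (M₀ + 12 * ((k + 1 : ℕ) : ℝ)) = t := by
        push_cast
        ring
      have e3 : ((M₀ + 12 * (k + 1) + (t + 1) : ℕ) : ℝ) - (M₀ + 12 * ((k + 1 : ℕ) : ℝ)) = (t : ℝ) + 1 := by
        push_cast
        ring
      have e4 : Real.sqrt (2 ^ (M₀ + 12 * (k + 1) + (t + 1))) =
          Real.sqrt 2 * Real.sqrt (2 ^ (M₀ + 12 * (k + 1) + t)) := by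
        rw [← Real.sqrt_mul (by norm_num), ← pow_succ']
        rfl
      rw [e1] at h1
      rw [e2] at iht
      rw [e3, e4]
      have h3 := sqrt_step (t := (t : ℝ)) (Nat.cast_nonneg _)
      set S := Real.sqrt (2 ^ (M₀ + 12 * (k + 1) + t)) with hS
      have hS0 : 0 ≤ S := Real.sqrt_nonneg _
      have h20 : 0 ≤ Real.sqrt 2 := Real.sqrt_nonneg _
      have h4 : 0 ≤ c * (1 + Real.sqrt 2) ^ k * S := by positivity
      have h5 := mul_le_mul_of_nonneg_left h3 h4
      have h6 : gap (r₀ + (k + 1)) (M₀ + 12 * (k + 1) + t) + gap (r₀ + k) (M₀ + 12 * (k + 1) + t) ≤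
        gap (r₀ + (k + 1)) (M₀ + 12 * (k + 1) + (t + 1)) := h2
      calc c * (1 + Real.sqrt 2) ^ (k + 1) * Real.sqrt ((t : ℝ) + 1) * (Real.sqrt 2 * S)
          = c * (1 + Real.sqrt 2) ^ k * S * ((1 + Real.sqrt 2) * (Real.sqrt 2 * Real.sqrt ((t : ℝ) + 1))) := by ring
        _ ≤ c * (1 + Real.sqrt 2) ^ k * S * ((1 + Real.sqrt 2) * Real.sqrt t + Real.sqrt ((t : ℝ) + 12)) := h5
        _ = c * (1 + Real.sqrt 2) ^ (k + 1) * Real.sqrt t * S +
            c * (1 + Real.sqrt 2) ^ k * Real.sqrt ((t : ℝ) + 12) * S := by ring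
        _ ≤ gap (r₀ + (k + 1)) (M₀ + 12 * (k + 1) + t) + gap (r₀ + k) (M₀ + 12 * (k + 1) + t) := add_le_add iht h1
        _ ≤ _ := h6

end RMC71
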