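import Pool.Agent.Helper71.RMC.Basic

set_option autoImplicit false

open scoped BigOperators
open Classical

namespace RMC

variable {V : Type} [AddCommGroup V] [Module (ZMod 2) V] [Fintype V]

lemma exists_dual_one {h : V} (hh : h ≠ 0) : ∃ p : Module.Dual (ZMod 2) V, p h = 1 := by
  by_contra hcon
  push Not at hcon
  apply hh
  rw [← Module.forall_dual_apply_eq_zero_iff (ZMod 2)]
  intro φ
  exact (zmod2_cases (φ h)).resolve_right (hcon φ)

/-- the splitting `V = ker p ⊕ ⟨h⟩` -/
noncomputable def splitEquiv (p : Module.Dual (ZMod 2) V) (h : V) (hp : p h = 1) :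
    (LinearMap.ker p) × ZMod 2 ≃ V where
  toFun z := (z.1 : V) + z.2 • h
  invFun x := (⟨x + p x • h, by
    rw [LinearMap.mem_ker, map_add, map_smul, hp]
    simp [zmod2_add_self]⟩, p x)
  left_inv z := by
    obtain ⟨⟨y, hy⟩, t⟩ := z
    rw [LinearMap.mem_ker] at hy
    have h1 : p (y + t • h) = t := by simp [hy, hp]
    refine Prod.ext (Subtype.ext ?_) ?_
    · simp only [h1]
      rw [add_assoc, v_add_self, add_zero]
    · exact h1
  right_inv x := by
    simp only
    rw [add_assoc, v_add_self, add_zero]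

lemma sum_split (p : Module.Dual (ZMod 2) V) (h : V) (hp : p h = 1) (g : V → ℝ) :
    ∑ x, g x = ∑ y : LinearMap.ker p, (g y + g (y + h)) := by
  rw [← (splitEquiv p h hp).sum_comp g, Fintype.sum_prod_type]
  refine Finset.sum_congr rfl (fun y _ => ?_)
  have : (∑ t : ZMod 2, g (splitEquiv p h hp (y, t))) =
      g (splitEquiv p h hp (y, 0)) + g (splitEquiv p h hp (y, 1)) := Fin.sum_univ_two _
  rw [this]
  simp [splitEquiv]

/-- Folding along `h`. -/
theorem fold (F : V → ℝ) (h : V) (ξ : Module.Dual (ZMod 2) V) (hh : h ≠ 0) (hξ : ξ h = 0)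
    (c : ZMod 2) :
    ∃ (W : Type) (_ : AddCommGroup W) (_ : Module (ZMod 2) W) (_ : Fintype W) (F' : W → ℝ),
      2 * Fintype.card W = Fintype.card V ∧
      (∀ B : ℝ, (∀ x, |F x| ≤ B) → ∀ y, |F' y| ≤ 2 * B) ∧
      nrm F' = nrm F + chi c * pau F h ξ ∧
      ∀ q' ∈ Q2 W, ∃ q ∈ Q2 V, cor F' q' = cor F q := by
  obtain ⟨p, hp⟩ := exists_dual_one hh
  let F' : LinearMap.ker p → ℝ := fun y => F y + chi (ξ y + c) * F (y + h)
  refine ⟨LinearMap.ker p, inferInstance, inferInstance, inferInstance, F', ?_, ?_, ?_, ?_⟩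
  · have := Fintype.card_congr (splitEquiv p h hp)
    rw [Fintype.card_prod, ZMod.card] at this
    rw [mul_comm, ← this]
  · intro B hB y
    have h1 : |chi (ξ y + c)| = 1 := by
      rcases zmod2_cases (ξ y + c) with h | h <;> rw [h] <;> simp [chi_zero, chi_one]
    calc |F' y| ≤ |F y| + |chi (ξ y + c) * F (y + h)| := abs_add_le _ _
      _ = |F y| + |F (y + h)| := by rw [abs_mul, h1, one_mul]
      _ ≤ 2 * B := by linarith [hB y, hB (y + h)]
  · unfold nrm pau
    rw [sum_split p h hp, sum_split p h hp (fun x => F x * F (x + h) * chi (ξ x)),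
      Finset.mul_sum, ← Finset.sum_add_distrib]
    refine Finset.sum_congr rfl (fun y _ => ?_)
    have h2 : chi (ξ y + c) = chi (ξ y) * chi c := chi_add _ _
    have h3 : chi (ξ y) * chi (ξ y) = 1 := chi_sq _
    have h4 : chi c * chi c = 1 := chi_sq _
    have h5 : chi (ξ ((y : V) + h)) = chi (ξ y) := by rw [map_add, hξ, add_zero]
    rw [v_add_cancel, h5]
    simp only [F', h2]
    have h6 : (chi (ξ (y : V)) * chi c * F (y + h)) ^ 2 = F (y + h) ^ 2 := by
      calc (chi (ξ (y : V)) * chi c * F (y + h)) ^ 2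
          = (chi (ξ y) * chi (ξ y)) * (chi c * chi c) * F (y + h) ^ 2 := by ring
        _ = F (y + h) ^ 2 := by rw [h3, h4]; ring
    calc (F y + chi (ξ y) * chi c * F (y + h)) ^ 2
        = F y ^ 2 + (chi (ξ (y : V)) * chi c * F (y + h)) ^ 2
          + 2 * (chi (ξ y) * chi c) * (F y * F (y + h)) := by ring
      _ = _ := by rw [h6]; ring
  · intro q' hq'
    -- the projection onto the kernel
    let π : V →ₗ[ZMod 2] LinearMap.ker p :=
      LinearMap.codRestrict (LinearMap.ker p) (LinearMap.id + p.smulRight h) (by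
        intro x
        rw [LinearMap.mem_ker]
        simp [hp, zmod2_add_self])
    have hπ1 : ∀ y : LinearMap.ker p, π (y : V) = y := by
      intro y
      have hy : p (y : V) = 0 := y.2
      apply Subtype.ext
      simp [π, hy]
    have hπ2 : ∀ y : LinearMap.ker p, π ((y : V) + h) = y := by
      intro y
      have hy : p (y : V) = 0 := y.2
      apply Subtype.ext
      simp [π, hy, hp, v_add_self]
    refine ⟨fun x => q' (π x) + (p x * ξ ((π x : LinearMap.ker p) : V) + c * p x), ?_, ?_⟩
    · refine (Q2 V).add_mem (comp_mem_Q2 π hq') ((Q2 V).add_mem ?_ ?_)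
      · exact mul_mem_Q2 p (ξ.comp ((LinearMap.ker p).subtype.comp π))
      · exact (Q2 V).smul_mem c (lin_mem_Q2 p)
    · unfold cor
      rw [sum_split p h hp]
      refine Finset.sum_congr rfl (fun y _ => ?_)
      have hy : p (y : V) = 0 := y.2
      beta_reduce
      rw [hπ1, hπ2]
      simp only [F', hy, map_add, hp, zero_add, one_mul, mul_one, zero_mul, mul_zero, add_zero]
      rw [chi_add (q' y)]
      ring

end RMC
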