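import Pool.Agent.Helper71.RMC.Iter

set_option autoImplicit false

open scoped BigOperators
open Classical

namespace RMC

/-- Euler's bound `(s/e)^(s-1) ≤ s!/2` for `s ≥ 6`. -/
lemma fact_bound (s : ℕ) (hs : 6 ≤ s) : ((s : ℝ) / Real.exp 1) ^ (s - 1) ≤ (s.factorial : ℝ) / 2 := by
  have hsR : (6 : ℝ) ≤ s := by exact_mod_cast hs
  have he : Real.exp 1 < 2.7182818286 := Real.exp_one_lt_d9
  have hepos : 0 < Real.exp 1 := Real.exp_pos 1
  have h1 : (s : ℝ) ^ s / s.factorial ≤ Real.exp s := Real.pow_div_factorial_le_exp s (by positivity) s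
  have hfac : (0 : ℝ) < s.factorial := by positivity
  have h2 : (s : ℝ) ^ s ≤ Real.exp 1 ^ s * s.factorial := by
    rw [div_le_iff₀ hfac] at h1
    rwa [← Real.exp_nat_mul, mul_one]
  have h3 : ((s : ℝ) / Real.exp 1) ^ s ≤ s.factorial := by
    rw [div_pow, div_le_iff₀ (by positivity)]
    linarith
  have h4 : ((s : ℝ) / Real.exp 1) ^ s = ((s : ℝ) / Real.exp 1) ^ (s - 1) * ((s : ℝ) / Real.exp 1) := by
    rw [← pow_succ]; congr 1; omega
  have h5 : 2 ≤ (s : ℝ) / Real.exp 1 := by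
    rw [le_div_iff₀ hepos]; linarith
  have h6 : 0 ≤ ((s : ℝ) / Real.exp 1) ^ (s - 1) := by positivity
  rw [h4] at h3
  nlinarith

/-- Every sign function has a large correlation with a quadratic one. -/
theorem exists_quadratic (s : ℕ) (hs : 6 ≤ s) (m : ℕ)
    (hm : 8 * s ^ 2 + 10 + (s * 2 ^ (4 * s ^ 2 + 3)) * (s + 2) ≤ m)
    (V : Type) [AddCommGroup V] [Module (ZMod 2) V] [Fintype V] (hV : Fintype.card V = 2 ^ m)
    (F : V → ℝ) (hF : ∀ x, F x ^ 2 = 1) :
    ∃ q ∈ Q2 V, ((s : ℝ) / Real.exp 1) * 2 ^ m ≤ cor F q ^ 2 := by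
  have hnrm : nrm F = (2 : ℝ) ^ m := by
    unfold nrm
    simp only [hF]
    rw [Finset.sum_const, Finset.card_univ, hV, nsmul_eq_mul, mul_one]
    push_cast; rfl
  obtain ⟨q, -, hq⟩ := Finset.exists_max_image (Finset.univ : Finset (Q2 V))
    (fun q => cor F q ^ 2) ⟨0, Finset.mem_univ _⟩
  refine ⟨q, q.2, ?_⟩
  set ρ : ℝ := cor F q ^ 2 / 2 ^ m with hρ
  have hR : Rb F ρ := by
    intro q' hq'
    have := hq ⟨q', hq'⟩ (Finset.mem_univ _)
    rw [hnrm, hρ, div_mul_cancel₀ _ (by positivity)]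
    exact this
  have h1 := key_bound s (by omega) m hm V hV F hF ρ hR
  have h2 := fact_bound s hs
  have h3 : ((s : ℝ) / Real.exp 1) ^ (s - 1) ≤ ρ ^ (s - 1) := h2.trans h1
  have hρ0 : 0 ≤ ρ := by rw [hρ]; positivity
  have h4 : (s : ℝ) / Real.exp 1 ≤ ρ := by
    by_contra hlt
    push Not at hlt
    exact absurd h3 (not_le.2 (pow_lt_pow_left₀ hlt hρ0 (by omega)))
  rw [hρ, le_div_iff₀ (by positivity)] at h4
  exact h4

/-- a linear functional as a polynomial -/
lemma dual_poly {m : ℕ} (l : Module.Dual (ZMod 2) (Fin m → ZMod 2)) :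
    ∃ p : MvPolynomial (Fin m) (ZMod 2), p.totalDegree ≤ 1 ∧
      ∀ x, MvPolynomial.eval x p = l x := by
  refine ⟨∑ i, MvPolynomial.C (l (Pi.single i 1)) * MvPolynomial.X i, ?_, ?_⟩
  · refine MvPolynomial.totalDegree_finsetSum_le (fun i _ => ?_)
    refine (MvPolynomial.totalDegree_mul _ _).trans ?_
    rw [MvPolynomial.totalDegree_C, zero_add]
    exact (MvPolynomial.totalDegree_X i).le
  · intro x
    rw [map_sum]
    simp only [map_mul, MvPolynomial.eval_C, MvPolynomial.eval_X]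
    have h1 : x = ∑ i, x i • (Pi.single i (1 : ZMod 2) : Fin m → ZMod 2) := by
      funext k
      simp [Finset.sum_apply, Pi.single_apply]
    conv_rhs => rw [h1, map_sum]
    refine Finset.sum_congr rfl (fun i _ => ?_)
    rw [map_smul, smul_eq_mul, mul_comm]

lemma Q2_poly {m : ℕ} {q : (Fin m → ZMod 2) → ZMod 2} (hq : q ∈ Q2 (Fin m → ZMod 2)) :
    ∃ p : MvPolynomial (Fin m) (ZMod 2), p.totalDegree ≤ 2 ∧
      ∀ x, MvPolynomial.eval x p = q x := by
  unfold Q2 at hq
  induction hq using Submodule.span_induction with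
  | mem x hx =>
    rcases hx with hx | ⟨a, b, rfl⟩
    · refine ⟨1, ?_, ?_⟩
      · rw [MvPolynomial.totalDegree_one]; omega
      · intro y; rw [hx, map_one]
    · obtain ⟨p, hp, hp'⟩ := dual_poly a
      obtain ⟨r, hr, hr'⟩ := dual_poly b
      refine ⟨p * r, (MvPolynomial.totalDegree_mul _ _).trans (by omega), ?_⟩
      intro y; rw [map_mul, hp', hr']
  | zero => exact ⟨0, by rw [MvPolynomial.totalDegree_zero]; omega, fun y => by rw [map_zero]; rfl⟩
  | add x y _ _ hx hy =>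
    obtain ⟨p, hp, hp'⟩ := hx
    obtain ⟨r, hr, hr'⟩ := hy
    refine ⟨p + r, (MvPolynomial.totalDegree_add _ _).trans (max_le hp hr), ?_⟩
    intro z; rw [map_add, hp', hr']; rfl
  | smul c x _ hx =>
    obtain ⟨p, hp, hp'⟩ := hx
    refine ⟨MvPolynomial.C c * p, ?_, ?_⟩
    · refine (MvPolynomial.totalDegree_mul _ _).trans ?_
      rw [MvPolynomial.totalDegree_C, zero_add]; exact hp
    · intro z; rw [map_mul, hp', MvPolynomial.eval_C]; rfl

lemma cor_eq_dist {V : Type} [Fintype V] (f q : V → ZMod 2) :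
    ∑ x, chi (f x) * chi (q x)
      = (Fintype.card V : ℝ) - 2 * ((Finset.univ.filter (fun x => f x ≠ q x)).card : ℝ) := by
  have h1 : ∀ x, chi (f x) * chi (q x) = 1 - 2 * (if f x ≠ q x then (1 : ℝ) else 0) := by
    intro x
    rw [← chi_add]
    by_cases h : f x = q x
    · rw [if_neg (by simpa using h), h, zmod2_add_self, chi_zero]; ring
    · rw [if_pos h]
      have : f x + q x = 1 := by
        rcases zmod2_cases (f x) with h1 | h1 <;> rcases zmod2_cases (q x) with h2 | h2 <;>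
          rw [h1, h2] at h ⊢
        · exact absurd rfl h
        · rfl
        · rfl
        · exact absurd rfl h
      rw [this, chi_one]; ring
  simp only [h1]
  rw [Finset.sum_sub_distrib, ← Finset.mul_sum, ← Finset.sum_filter, Finset.sum_const,
    Finset.sum_const, Finset.card_univ, nsmul_eq_mul, nsmul_eq_mul, mul_one, mul_one]

/-- The distance form. -/
theorem exists_close (s : ℕ) (hs : 6 ≤ s) (m : ℕ)
    (hm : 8 * s ^ 2 + 10 + (s * 2 ^ (4 * s ^ 2 + 3)) * (s + 2) ≤ m)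
    (f : (Fin m → ZMod 2) → ZMod 2) :
    ∃ p : MvPolynomial (Fin m) (ZMod 2), p.totalDegree ≤ 2 ∧
      ((Finset.univ.filter (fun x => f x ≠ MvPolynomial.eval x p)).card : ℝ)
        ≤ 2 ^ m / 2 - Real.sqrt ((s : ℝ) / Real.exp 1) * Real.sqrt (2 ^ m) / 2 := by
  have hcard : Fintype.card (Fin m → ZMod 2) = 2 ^ m := by
    rw [Fintype.card_fun, ZMod.card, Fintype.card_fin]
  have hcardR : (Fintype.card (Fin m → ZMod 2) : ℝ) = 2 ^ m := by rw [hcard]; push_cast; rfl
  obtain ⟨q, hq, hcor⟩ := exists_quadratic s hs m hm (Fin m → ZMod 2) hcard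
    (fun x => chi (f x)) (fun x => by rw [pow_two, chi_sq])
  have hsq : Real.sqrt ((s : ℝ) / Real.exp 1) * Real.sqrt (2 ^ m) ≤ |cor (fun x => chi (f x)) q| := by
    rw [← Real.sqrt_mul (by positivity)]
    exact Real.sqrt_le_sqrt hcor |>.trans (by rw [Real.sqrt_sq_eq_abs])
  -- choose the sign
  obtain ⟨q', hq', hc'⟩ : ∃ q' ∈ Q2 (Fin m → ZMod 2),
      cor (fun x => chi (f x)) q' = |cor (fun x => chi (f x)) q| := by
    rcases le_total 0 (cor (fun x => chi (f x)) q) with h | h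
    · exact ⟨q, hq, (abs_of_nonneg h).symm⟩
    · refine ⟨q + fun _ => 1, (Q2 _).add_mem hq one_mem_Q2, ?_⟩
      rw [abs_of_nonpos h]
      unfold cor
      rw [← Finset.sum_neg_distrib]
      refine Finset.sum_congr rfl (fun x _ => ?_)
      rw [Pi.add_apply, chi_add, chi_one]; ring
  obtain ⟨p, hp, hp'⟩ := Q2_poly hq'
  refine ⟨p, hp, ?_⟩
  have h1 := cor_eq_dist f q'
  rw [hcardR] at h1
  have h2 : cor (fun x => chi (f x)) q' = ∑ x, chi (f x) * chi (q' x) := rfl
  rw [← h2, hc'] at h1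
  simp only [hp']
  linarith

end RMC
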