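import Mathlib

set_option autoImplicit false

open scoped BigOperators
open Classical

namespace RMC

/-- the real sign of a bit -/
noncomputable def chi (a : ZMod 2) : ℝ := if a = 0 then 1 else -1

lemma chi_zero : chi 0 = 1 := by simp [chi]

lemma chi_one : chi 1 = -1 := by simp [chi]

lemma zmod2_cases (a : ZMod 2) : a = 0 ∨ a = 1 := by
  fin_cases a
  · exact Or.inl rfl
  · exact Or.inr rfl

lemma chi_add (a b : ZMod 2) : chi (a + b) = chi a * chi b := by
  have h : (1 : ZMod 2) + 1 = 0 := rfl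
  rcases zmod2_cases a with rfl | rfl <;> rcases zmod2_cases b with rfl | rfl <;>
    simp [chi_zero, chi_one, h]

lemma chi_sq (a : ZMod 2) : chi a * chi a = 1 := by
  rcases zmod2_cases a with rfl | rfl <;> simp [chi_zero, chi_one]

lemma chi_sum {ι : Type} (s : Finset ι) (f : ι → ZMod 2) :
    chi (∑ i ∈ s, f i) = ∏ i ∈ s, chi (f i) := by
  induction s using Finset.induction_on with
  | empty => simp [chi_zero]
  | insert a s ha ih => rw [Finset.sum_insert ha, Finset.prod_insert ha, chi_add, ih]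

lemma zmod2_mul_self (a : ZMod 2) : a * a = a := by
  rcases zmod2_cases a with rfl | rfl <;> rfl

lemma zmod2_add_self (a : ZMod 2) : a + a = 0 := by
  rcases zmod2_cases a with rfl | rfl <;> rfl

/-- orthogonality: a nonzero additive character of order two sums to zero -/
lemma sum_chi_eq_zero {G : Type} [AddCommGroup G] [Fintype G] (φ : G →+ ZMod 2)
    (h : ∃ g, φ g ≠ 0) : ∑ g, chi (φ g) = 0 := by
  obtain ⟨g0, hg0⟩ := h
  have h1 : φ g0 = 1 := (zmod2_cases (φ g0)).resolve_left hg0
  have h2 : ∑ g, chi (φ g) = ∑ g, chi (φ (g + g0)) :=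
    (Fintype.sum_equiv (Equiv.addRight g0) _ _ (fun g => rfl)).symm
  have h3 : ∑ g, chi (φ (g + g0)) = - ∑ g, chi (φ g) := by
    rw [← Finset.sum_neg_distrib]
    refine Finset.sum_congr rfl (fun g _ => ?_)
    rw [map_add, h1, chi_add, chi_one]; ring
  linarith

lemma sum_chi_zero {G : Type} [AddCommGroup G] [Fintype G] (φ : G →+ ZMod 2)
    (h : ∀ g, φ g = 0) : ∑ g, chi (φ g) = (Fintype.card G : ℝ) := by
  simp [h, chi_zero]

section V

variable {V : Type} [AddCommGroup V] [Module (ZMod 2) V]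

lemma v_add_self (x : V) : x + x = 0 := by
  have : ((1 : ZMod 2) + 1) • x = 0 := by
    rw [show ((1 : ZMod 2) + 1) = 0 from rfl, zero_smul]
  rwa [add_smul, one_smul] at this

lemma v_add_cancel (x h : V) : x + h + h = x := by
  rw [add_assoc, v_add_self, add_zero]

variable (V) in
/-- functions of degree at most two on `V` -/
def Q2 : Submodule (ZMod 2) (V → ZMod 2) :=
  Submodule.span (ZMod 2)
    (insert (fun _ => 1) {f | ∃ a b : Module.Dual (ZMod 2) V, f = fun x => a x * b x})

lemma one_mem_Q2 : (fun _ => (1 : ZMod 2)) ∈ Q2 V :=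
  Submodule.subset_span (Set.mem_insert _ _)

lemma mul_mem_Q2 (a b : Module.Dual (ZMod 2) V) : (fun x => a x * b x) ∈ Q2 V :=
  Submodule.subset_span (Set.mem_insert_of_mem _ ⟨a, b, rfl⟩)

lemma lin_mem_Q2 (a : Module.Dual (ZMod 2) V) : (fun x => a x) ∈ Q2 V := by
  have := mul_mem_Q2 a a
  simpa [zmod2_mul_self] using this

/-- pullback of a quadratic function along a linear map -/
lemma comp_mem_Q2 {W : Type} [AddCommGroup W] [Module (ZMod 2) W] (φ : V →ₗ[ZMod 2] W)
    {q : W → ZMod 2} (hq : q ∈ Q2 W) : (fun x => q (φ x)) ∈ Q2 V := by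
  unfold Q2 at hq
  induction hq using Submodule.span_induction with
  | mem x hx =>
    rcases hx with hx | ⟨a, b, rfl⟩
    · rw [hx]; exact one_mem_Q2
    · exact mul_mem_Q2 (a.comp φ) (b.comp φ)
  | zero => exact (Q2 V).zero_mem
  | add x y _ _ hx hy => exact (Q2 V).add_mem hx hy
  | smul c x _ hx => exact (Q2 V).smul_mem c hx

variable [Fintype V]

/-- `∑ F²` -/
noncomputable def nrm (F : V → ℝ) : ℝ := ∑ x, F x ^ 2

/-- correlation with `q` -/
noncomputable def cor (F : V → ℝ) (q : V → ZMod 2) : ℝ := ∑ x, F x * chi (q x)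

/-- the twisted autocorrelation -/
noncomputable def pau (F : V → ℝ) (h : V) (ξ : Module.Dual (ZMod 2) V) : ℝ :=
  ∑ x, F x * F (x + h) * chi (ξ x)

lemma pau_eq_zero (F : V → ℝ) (h : V) (ξ : Module.Dual (ZMod 2) V) (hξ : ξ h = 1) :
    pau F h ξ = 0 := by
  have h2 : pau F h ξ = ∑ x, F (x + h) * F (x + h + h) * chi (ξ (x + h)) :=
    (Fintype.sum_equiv (Equiv.addRight h) _ _ (fun g => rfl)).symm
  have h3 : ∑ x, F (x + h) * F (x + h + h) * chi (ξ (x + h)) = - pau F h ξ := by
    unfold pau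
    rw [← Finset.sum_neg_distrib]
    refine Finset.sum_congr rfl (fun x _ => ?_)
    rw [v_add_cancel, map_add, hξ, chi_add, chi_one]; ring
  linarith

end V

end RMC
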