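import Pool.Agent.Helper71.RMC.Moment

/-!
# Moebius coefficients for self-orthogonal codes (modules M1, M2, M3, M5 of stage 3)
-/

set_option autoImplicit false
set_option linter.unusedSectionVars false

open scoped BigOperators
open Classical

namespace RM44
open RMC

variable {I : Type} [Fintype I]
variable {V : Type} [AddCommGroup V] [Module (ZMod 2) V] [Fintype V]

/-- all self-orthogonal codes -/
noncomputable def soc (I : Type) [Fintype I] : Finset (Submodule (ZMod 2) (I → ZMod 2)) :=
  (Set.toFinite {D : Submodule (ZMod 2) (I → ZMod 2) | SO D}).toFinset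

lemma mem_soc {D : Submodule (ZMod 2) (I → ZMod 2)} : D ∈ soc I ↔ SO D := by
  unfold soc
  rw [Set.Finite.mem_toFinset]
  rfl

/-! ### M3 -/

/-- `C ⊗ V` as a space of homomorphisms -/
noncomputable def cvEquiv (D : Submodule (ZMod 2) (I → ZMod 2)) :
    CV V D ≃ (Module.Dual (ZMod 2) V →ₗ[ZMod 2] D) where
  toFun X :=
    { toFun := fun l => ⟨fun i => l ((X : I → V) i), X.2 l⟩
      map_add' := fun l l' => rfl
      map_smul' := fun a l => rfl }
  invFun φ := ⟨fun i => (Module.evalEquiv (ZMod 2) V).symm
      { toFun := fun l => (φ l : I → ZMod 2) i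
        map_add' := fun l l' => by rw [map_add]; rfl
        map_smul' := fun a l => by rw [map_smul]; rfl }, fun l => by
      have h : (fun i => l ((Module.evalEquiv (ZMod 2) V).symm
          { toFun := fun l => (φ l : I → ZMod 2) i
            map_add' := fun l l' => by rw [map_add]; rfl
            map_smul' := fun a l => by rw [map_smul]; rfl })) = (φ l : I → ZMod 2) := by
        funext i
        have h1 := Module.apply_evalEquiv_symm_apply (R := ZMod 2) (M := V) l
          { toFun := fun l => (φ l : I → ZMod 2) i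
            map_add' := fun l l' => by rw [map_add]; rfl
            map_smul' := fun a l => by rw [map_smul]; rfl }
        exact h1
      rw [h]
      exact (φ l).2⟩
  left_inv X := by
    apply Subtype.ext
    funext i
    apply (Module.evalEquiv (ZMod 2) V).injective
    rw [LinearEquiv.apply_symm_apply]
    ext l
    rfl
  right_inv φ := by
    ext l i
    exact Module.apply_evalEquiv_symm_apply (R := ZMod 2) (M := V) l
      { toFun := fun l => (φ l : I → ZMod 2) i
        map_add' := fun l l' => by rw [map_add]; rfl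
        map_smul' := fun a l => by rw [map_smul]; rfl }

/-- (M3) -/
theorem card_CV_so (D : Submodule (ZMod 2) (I → ZMod 2)) :
    Fintype.card (CV V D) = Fintype.card V ^ Module.finrank (ZMod 2) D := by
  have : Fintype (Module.Dual (ZMod 2) V →ₗ[ZMod 2] D) := Fintype.ofEquiv _ (cvEquiv D)
  rw [Fintype.card_congr (cvEquiv (V := V) D)]
  have h1 := Module.card_eq_pow_finrank (K := ZMod 2) (V := Module.Dual (ZMod 2) V →ₗ[ZMod 2] D)
  have h2 := Module.card_eq_pow_finrank (K := ZMod 2) (V := V)
  rw [h1, h2, ZMod.card, Module.finrank_linearMap, Subspace.dual_finrank_eq, pow_mul]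

theorem finrank_SD {C : Submodule (ZMod 2) (I → ZMod 2)} (hC : SD C) (s : ℕ)
    (hs : Fintype.card I = 2 * s) : Module.finrank (ZMod 2) C = s := by
  have h1 := card_CV_so (V := ZMod 2) C
  rw [card_CV hC s hs, ZMod.card] at h1
  exact ((Nat.pow_right_injective (le_refl 2)) h1).symm

/-! ### M2 -/

/-- (M2) -/
theorem sol_sum_eq (c : Submodule (ZMod 2) (I → ZMod 2) → ℝ)
    (hc : ∀ E, SO E → ∑ D ∈ (soc I).filter (fun D => E ≤ D), c D = 1) (F : V → ℝ) :
    ∑ X ∈ Finset.univ.filter (fun X : I → V => Sol X), ∏ i, F (X i)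
      = ∑ D ∈ soc I, c D * T D F := by
  have h1 : ∀ D : Submodule (ZMod 2) (I → ZMod 2), T D F =
      ∑ X : I → V, if X ∈ CV V D then ∏ i, F (X i) else 0 := by
    intro D
    rw [← Finset.sum_filter]
    unfold T
    exact (Finset.sum_subtype (p := fun X => X ∈ CV V D)
      (Finset.univ.filter (fun X : I → V => X ∈ CV V D))
      (fun X => by simp) (fun X => ∏ i, F (X i))).symm
  have h2 : ∑ D ∈ soc I, c D * T D F =
      ∑ X : I → V, (∑ D ∈ (soc I).filter (fun D => X ∈ CV V D), c D) * ∏ i, F (X i) := by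
    rw [Finset.sum_congr rfl fun D _ => by rw [h1 D, Finset.mul_sum]]
    rw [Finset.sum_comm]
    refine Finset.sum_congr rfl fun X _ => ?_
    rw [Finset.sum_mul, Finset.sum_filter]
    refine Finset.sum_congr rfl fun D _ => ?_
    split_ifs
    · rfl
    · rw [mul_zero]
  rw [h2, Finset.sum_filter]
  refine Finset.sum_congr rfl fun X _ => ?_
  let R : Submodule (ZMod 2) (I → ZMod 2) := LinearMap.range
    ({ toFun := fun l => fun i => l (X i)
       map_add' := fun _ _ => rfl
       map_smul' := fun _ _ => rfl } : Module.Dual (ZMod 2) V →ₗ[ZMod 2] (I → ZMod 2))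
  have hR : ∀ D : Submodule (ZMod 2) (I → ZMod 2), X ∈ CV V D ↔ R ≤ D := by
    intro D
    constructor
    · rintro h _ ⟨l, rfl⟩
      exact h l
    · intro h l
      exact h ⟨l, rfl⟩
  by_cases hX : Sol X
  · rw [if_pos hX]
    have hRso : SO R := by
      rintro c ⟨l, rfl⟩ d ⟨l', rfl⟩
      exact hX l l'
    have h3 := hc R hRso
    have h4 : (soc I).filter (fun D => X ∈ CV V D) = (soc I).filter (fun D => R ≤ D) :=
      Finset.filter_congr fun D _ => hR D
    rw [h4, h3, one_mul]
  · rw [if_neg hX]
    have h4 : (soc I).filter (fun D => X ∈ CV V D) = ∅ := by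
      rw [Finset.filter_eq_empty_iff]
      intro D hD hXD
      exact hX fun l l' => (mem_soc.1 hD) _ (hXD l) _ (hXD l')
    rw [h4, Finset.sum_empty, zero_mul]

/-! ### M1 -/

/-- the Moebius coefficients -/
noncomputable def mc (D : Submodule (ZMod 2) (I → ZMod 2)) : ℝ :=
  1 - ∑ D' ∈ ((soc I).filter (fun D' => D < D')).attach, mc D'.1
termination_by Fintype.card I - Module.finrank (ZMod 2) D
decreasing_by
  have h1 := (Finset.mem_filter.1 D'.2).2
  have h2 := Submodule.finrank_lt_finrank_of_lt h1
  have h3 := Submodule.finrank_le D'.1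
  rw [Module.finrank_fintype_fun_eq_card] at h3
  omega

lemma mc_eq (D : Submodule (ZMod 2) (I → ZMod 2)) :
    mc D = 1 - ∑ D' ∈ (soc I).filter (fun D' => D < D'), mc D' := by
  rw [mc, Finset.sum_attach _ (fun D' => mc D')]

lemma mc_sum (E : Submodule (ZMod 2) (I → ZMod 2)) (hE : SO E) :
    ∑ D ∈ (soc I).filter (fun D => E ≤ D), mc D = 1 := by
  have h1 : (soc I).filter (fun D => E ≤ D) = insert E ((soc I).filter (fun D => E < D)) := by
    ext D
    rw [Finset.mem_insert, Finset.mem_filter, Finset.mem_filter]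
    constructor
    · rintro ⟨h2, h3⟩
      rcases h3.eq_or_lt with h4 | h4
      · exact Or.inl h4.symm
      · exact Or.inr ⟨h2, h4⟩
    · rintro (rfl | ⟨h2, h3⟩)
      · exact ⟨mem_soc.2 hE, le_rfl⟩
      · exact ⟨h2, h3.le⟩
  rw [h1, Finset.sum_insert (by simp), mc_eq E]
  ring

lemma mc_SD (D : Submodule (ZMod 2) (I → ZMod 2)) (hD : SD D) : mc D = 1 := by
  have h1 : (soc I).filter (fun D' => D < D') = ∅ := by
    rw [Finset.filter_eq_empty_iff]
    intro D' hD' hlt
    have h2 : D' ≤ D := fun c hc => (hD c).2 fun d hd => (mem_soc.1 hD') c hc d (hlt.le hd)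
    exact absurd hlt (not_lt_of_ge h2)
  rw [mc_eq, h1, Finset.sum_empty, sub_zero]

/-- the number of subspaces over `D` -/
lemma card_over (D : Submodule (ZMod 2) (I → ZMod 2)) (k : ℕ) (S : Finset (Submodule (ZMod 2) (I → ZMod 2)))
    (hS : ∀ D' ∈ S, D ≤ D' ∧ Module.finrank (ZMod 2) D' = Module.finrank (ZMod 2) D + k) :
    S.card ≤ 2 ^ (Fintype.card I * k) := by
  have h1 : ∀ D' ∈ S, ∃ g : Fin k → (I → ZMod 2), D' = D ⊔ Submodule.span (ZMod 2) (Set.range g) := by
    intro D' hD'
    obtain ⟨h2, h3⟩ := hS D' hD'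
    obtain ⟨W, hW⟩ := Submodule.exists_isCompl (Submodule.comap D'.subtype D)
    have h4 : Module.finrank (ZMod 2) (Submodule.comap D'.subtype D) = Module.finrank (ZMod 2) D :=
      LinearEquiv.finrank_eq (Submodule.comapSubtypeEquivOfLe h2)
    have h5 := Submodule.finrank_add_eq_of_isCompl hW
    have h6 : Module.finrank (ZMod 2) W = k := by omega
    let b := Module.finBasisOfFinrankEq (ZMod 2) W h6
    refine ⟨fun i => ((b i : W) : D'), ?_⟩
    have h7 : Submodule.span (ZMod 2) (Set.range fun i => (((b i : W) : D') : I → ZMod 2)) =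
        (W.map D'.subtype) := by
      have h8 := b.span_eq
      have h9 : Submodule.map D'.subtype (Submodule.map W.subtype (Submodule.span (ZMod 2) (Set.range b))) =
          W.map D'.subtype := by
        rw [h8, Submodule.map_subtype_top]
      rw [← h9, Submodule.map_span, Submodule.map_span, ← Set.range_comp, ← Set.range_comp]
      rfl
    rw [h7]
    have h8 : D = (Submodule.comap D'.subtype D).map D'.subtype := by
      rw [Submodule.map_comap_subtype, inf_eq_right.2 h2]
    conv_rhs => rw [h8]
    rw [← Submodule.map_sup, hW.sup_eq_top, Submodule.map_subtype_top]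
  choose! g hg using h1
  have hinj : Set.InjOn g (S : Set (Submodule (ZMod 2) (I → ZMod 2))) := by
    intro A hA B hB h
    rw [hg A hA, hg B hB, h]
  calc S.card = (S.image g).card := (Finset.card_image_of_injOn hinj).symm
    _ ≤ (Finset.univ : Finset (Fin k → (I → ZMod 2))).card := Finset.card_le_card (Finset.subset_univ _)
    _ = 2 ^ (Fintype.card I * k) := by
        rw [Finset.card_univ, Fintype.card_fun, Fintype.card_fun, ZMod.card, Fintype.card_fin, pow_mul]

/-- the layers above `D` -/
noncomputable def lay (D : Submodule (ZMod 2) (I → ZMod 2)) (s i : ℕ) :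
    Finset (Submodule (ZMod 2) (I → ZMod 2)) :=
  ((soc I).filter (fun D' => D < D')).filter
    (fun D' : Submodule (ZMod 2) (I → ZMod 2) => Module.finrank (ZMod 2) D' + i = s)

lemma mem_lay {D D' : Submodule (ZMod 2) (I → ZMod 2)} {s i : ℕ} :
    D' ∈ lay D s i ↔ (SO D' ∧ D < D') ∧ Module.finrank (ZMod 2) D' + i = s := by
  unfold lay
  rw [Finset.mem_filter, Finset.mem_filter, mem_soc]

/-- the bound of the coefficients -/
lemma mc_bound (s : ℕ) (hs : Fintype.card I = 2 * s) (j : ℕ) :
    ∀ D : Submodule (ZMod 2) (I → ZMod 2), SO D → Module.finrank (ZMod 2) D + j = s →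
      |mc D| ≤ 2 ^ (3 * j * s) := by
  induction j using Nat.strong_induction_on with
  | _ j ih =>
    intro D hD hj
    rcases Nat.eq_zero_or_pos s with hs0 | hs0
    · -- no coordinates
      subst hs0
      have h1 : SD D := by
        intro c
        have hI : IsEmpty I := Fintype.card_eq_zero_iff.1 (by omega)
        have hc : c = 0 := funext fun i => (hI.false i).elim
        rw [hc]
        refine ⟨fun _ d _ => by rw [ip_comm, ip_zero], fun _ => D.zero_mem⟩
      rw [mc_SD D h1, abs_one]
      exact one_le_pow₀ (by norm_num)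
    -- the dimension of the larger codes
    have hdim : ∀ D' ∈ (soc I).filter (fun D' => D < D'), ∃ i, i < j ∧
        Module.finrank (ZMod 2) D' + i = s := by
      intro D' hD'
      rw [Finset.mem_filter] at hD'
      obtain ⟨C, hC1, hC2⟩ := exists_SD (by rw [hs]; exact even_two_mul s) (mem_soc.1 hD'.1)
      have h2 := Submodule.finrank_mono hC1
      rw [finrank_SD hC2 s hs] at h2
      have h3 := Submodule.finrank_lt_finrank_of_lt hD'.2
      exact ⟨s - Module.finrank (ZMod 2) D', by omega, by omega⟩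
    have h1 : |mc D| ≤ 1 + ∑ D' ∈ (soc I).filter (fun D' => D < D'), |mc D'| := by
      rw [mc_eq D]
      refine (abs_sub _ _).trans ?_
      rw [abs_one]
      have := Finset.abs_sum_le_sum_abs (fun D1 : Submodule (ZMod 2) (I → ZMod 2) => mc D1)
        ((soc I).filter (fun D1 => D < D1))
      linarith
    have h2 : ∑ D' ∈ (soc I).filter (fun D' => D < D'), |mc D'| ≤
        ∑ i ∈ Finset.range j, (2 : ℝ) ^ (2 * s * (j - i)) * 2 ^ (3 * i * s) := by
      have h3 : (soc I).filter (fun D' => D < D') ⊆ (Finset.range j).biUnion fun i => lay D s i := by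
        intro D' hD'
        obtain ⟨i, hi, hi'⟩ := hdim D' hD'
        have h7 := Finset.mem_filter.1 hD'
        exact Finset.mem_biUnion.2 ⟨i, Finset.mem_range.2 hi, mem_lay.2 ⟨⟨mem_soc.1 h7.1, h7.2⟩, hi'⟩⟩
      refine (Finset.sum_le_sum_of_subset_of_nonneg h3 fun _ _ _ => abs_nonneg _).trans ?_
      have h4 : Set.PairwiseDisjoint ((Finset.range j : Finset ℕ) : Set ℕ) (fun i => lay D s i) := by
        intro a _ b _ hab
        refine Finset.disjoint_left.2 fun D' h5 h6 => hab ?_
        have h7 := (mem_lay.1 h5).2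
        have h8 := (mem_lay.1 h6).2
        omega
      rw [Finset.sum_biUnion h4]
      refine Finset.sum_le_sum fun i hi => ?_
      rw [Finset.mem_range] at hi
      have h5 : ∀ D' ∈ lay D s i, |mc D'| ≤ 2 ^ (3 * i * s) := by
        intro D' hD'
        have h6 := mem_lay.1 hD'
        exact ih i hi D' h6.1.1 h6.2
      refine (Finset.sum_le_card_nsmul _ _ _ h5).trans ?_
      rw [nsmul_eq_mul]
      refine mul_le_mul_of_nonneg_right ?_ (by positivity)
      have h6 := card_over D (j - i) (lay D s i) (fun D' hD' => by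
        have h6 := mem_lay.1 hD'
        refine ⟨h6.1.2.le, ?_⟩
        have h8 := h6.2
        omega)
      rw [hs] at h6
      exact_mod_cast h6
    -- the geometric sum
    have h3 : ∀ k : ℕ, k ≤ j → ∑ i ∈ Finset.range k, (2 : ℝ) ^ (2 * s * (j - i)) * 2 ^ (3 * i * s) ≤
        2 ^ (2 * s * j + k * s) - 2 ^ (2 * s * j) := by
      intro k
      induction k with
      | zero => simp
      | succ k ihk =>
        intro hk
        rw [Finset.sum_range_succ]
        have h4 := ihk (by omega)
        have h5 : (2 : ℝ) ^ (2 * s * (j - k)) * 2 ^ (3 * k * s) = 2 ^ (2 * s * j + k * s) := by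
          rw [← pow_add]
          congr 1
          obtain ⟨t, rfl⟩ := Nat.exists_eq_add_of_le (show k ≤ j by omega)
          rw [Nat.add_sub_cancel_left]
          ring
        have h6 : (2 : ℝ) * 2 ^ (2 * s * j + k * s) ≤ 2 ^ (2 * s * j + (k + 1) * s) := by
          rw [← pow_succ']
          refine pow_le_pow_right₀ (by norm_num) ?_
          have : (k + 1) * s = k * s + s := by ring
          omega
        rw [h5]
        linarith
    have h4 := h3 j le_rfl
    have h5 : (1 : ℝ) ≤ 2 ^ (2 * s * j) := one_le_pow₀ (by norm_num)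
    have h6 : (2 : ℝ) ^ (2 * s * j + j * s) = 2 ^ (3 * j * s) := by
      congr 1
      ring
    rw [h6] at h4
    linarith

/-- (M1) -/
theorem exists_moebius (s : ℕ) (hs : Fintype.card I = 2 * s) :
    ∃ c : Submodule (ZMod 2) (I → ZMod 2) → ℝ,
      (∀ E, SO E → ∑ D ∈ (soc I).filter (fun D => E ≤ D), c D = 1) ∧
      (∀ D, SD D → c D = 1) ∧
      (∀ D, SO D → |c D| ≤ 2 ^ (3 * (s - Module.finrank (ZMod 2) D) * s)) := by
  refine ⟨mc, mc_sum, mc_SD, fun D hD => ?_⟩
  obtain ⟨C, hC1, hC2⟩ := exists_SD (by rw [hs]; exact even_two_mul s) hD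
  have h2 := Submodule.finrank_mono hC1
  rw [finrank_SD hC2 s hs] at h2
  exact mc_bound s hs _ D hD (by omega)

/-! ### M5 -/

/-- (M5) -/
theorem card_sub (C : Submodule (ZMod 2) (I → ZMod 2)) (s : ℕ) (hs : Fintype.card I = 2 * s)
    (hC : SD C) (j : ℕ) :
    ((soc I).filter (fun D => D ≤ C ∧ Module.finrank (ZMod 2) D + j = s)).card ≤ 2 ^ (2 * s * j) := by
  have hCs := finrank_SD hC s hs
  have h1 : ∀ D ∈ (soc I).filter (fun D => D ≤ C ∧ Module.finrank (ZMod 2) D + j = s),
      ∃ φ : C →ₗ[ZMod 2] (Fin j → ZMod 2), D = (LinearMap.ker φ).map C.subtype := by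
    intro D hD
    obtain ⟨-, hDC, hj⟩ := Finset.mem_filter.1 hD
    have h4 : Module.finrank (ZMod 2) (Submodule.comap C.subtype D) = Module.finrank (ZMod 2) D :=
      LinearEquiv.finrank_eq (Submodule.comapSubtypeEquivOfLe hDC)
    have h5 := Submodule.finrank_quotient_add_finrank (Submodule.comap C.subtype D)
    have h6 : Module.finrank (ZMod 2) (C ⧸ Submodule.comap C.subtype D) =
        Module.finrank (ZMod 2) (Fin j → ZMod 2) := by
      rw [Module.finrank_fintype_fun_eq_card, Fintype.card_fin]
      omega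
    let e := LinearEquiv.ofFinrankEq _ _ h6
    refine ⟨(e : (C ⧸ Submodule.comap C.subtype D) →ₗ[ZMod 2] (Fin j → ZMod 2)).comp
      (Submodule.comap C.subtype D).mkQ, ?_⟩
    have h7 : LinearMap.ker ((e : (C ⧸ Submodule.comap C.subtype D) →ₗ[ZMod 2] (Fin j → ZMod 2)).comp
        (Submodule.comap C.subtype D).mkQ) = Submodule.comap C.subtype D := by
      rw [LinearEquiv.ker_comp, Submodule.ker_mkQ]
    rw [h7, Submodule.map_comap_subtype, inf_eq_right.2 hDC]
  choose! g hg using h1
  have hinj : Set.InjOn g ((soc I).filter (fun D => D ≤ C ∧ Module.finrank (ZMod 2) D + j = s) :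
      Set (Submodule (ZMod 2) (I → ZMod 2))) := by
    intro A hA B hB h
    rw [hg A hA, hg B hB, h]
  have : Finite (C →ₗ[ZMod 2] (Fin j → ZMod 2)) := Module.finite_of_finite (ZMod 2)
  have : Fintype (C →ₗ[ZMod 2] (Fin j → ZMod 2)) := Fintype.ofFinite _
  calc ((soc I).filter (fun D => D ≤ C ∧ Module.finrank (ZMod 2) D + j = s)).card
      = (((soc I).filter (fun D => D ≤ C ∧ Module.finrank (ZMod 2) D + j = s)).image g).card :=
        (Finset.card_image_of_injOn hinj).symm
    _ ≤ (Finset.univ : Finset (C →ₗ[ZMod 2] (Fin j → ZMod 2))).card :=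
        Finset.card_le_card (Finset.subset_univ _)
    _ = 2 ^ (s * j) := by
        rw [Finset.card_univ, Module.card_eq_pow_finrank (K := ZMod 2), ZMod.card,
          Module.finrank_linearMap, hCs, Module.finrank_fintype_fun_eq_card, Fintype.card_fin]
    _ ≤ 2 ^ (2 * s * j) := Nat.pow_le_pow_right (by norm_num) (by nlinarith [Nat.zero_le (s * j)])

end RM44
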