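import Pool.Agent.Helper71.RMC.MomV

set_option autoImplicit false
set_option linter.unusedSectionVars false

open scoped BigOperators
open Classical

namespace RMC71
open RMC RM44

/-- From a lower bound for all correlation bounds to a quadratic polynomial. -/
theorem exists_close_of (s : ℕ) (m : ℕ)
    (hkey : ∀ F : (Fin m → ZMod 2) → ℝ, (∀ x, F x ^ 2 = 1) → ∀ ρ, Rb F ρ →
      (s : ℝ) / Real.exp 1 ≤ ρ)
    (f : (Fin m → ZMod 2) → ZMod 2) :
    ∃ p : MvPolynomial (Fin m) (ZMod 2), p.totalDegree ≤ 2 ∧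
      ((Finset.univ.filter (fun x => f x ≠ MvPolynomial.eval x p)).card : ℝ)
        ≤ 2 ^ m / 2 - Real.sqrt ((s : ℝ) / Real.exp 1) * Real.sqrt (2 ^ m) / 2 := by
  have hcard : Fintype.card (Fin m → ZMod 2) = 2 ^ m := by
    rw [Fintype.card_fun, ZMod.card, Fintype.card_fin]
  have hcardR : (Fintype.card (Fin m → ZMod 2) : ℝ) = 2 ^ m := by rw [hcard]; push_cast; rfl
  set F : (Fin m → ZMod 2) → ℝ := fun x => chi (f x) with hFdef
  have hF : ∀ x, F x ^ 2 = 1 := fun x => by rw [hFdef, pow_two, chi_sq]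
  have hnrm := nrm_sign m hcard F hF
  -- the best quadratic form
  obtain ⟨q, -, hq⟩ := Finset.exists_max_image (Finset.univ : Finset (Q2 (Fin m → ZMod 2)))
    (fun q => cor F q ^ 2) ⟨0, Finset.mem_univ _⟩
  set ρ : ℝ := cor F q ^ 2 / 2 ^ m with hρ
  have hR : Rb F ρ := by
    intro q' hq'
    have := hq ⟨q', hq'⟩ (Finset.mem_univ _)
    rw [hnrm, hρ, div_mul_cancel₀ _ (by positivity)]
    exact this
  have h4 := hkey F hF ρ hR
  rw [hρ, le_div_iff₀ (by positivity)] at h4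
  have hsq : Real.sqrt ((s : ℝ) / Real.exp 1) * Real.sqrt (2 ^ m) ≤ |cor F q| := by
    rw [← Real.sqrt_mul (by positivity)]
    exact Real.sqrt_le_sqrt h4 |>.trans (by rw [Real.sqrt_sq_eq_abs])
  -- choose the sign
  obtain ⟨q', hq', hc'⟩ : ∃ q' ∈ Q2 (Fin m → ZMod 2), cor F q' = |cor F q| := by
    rcases le_total 0 (cor F q) with h | h
    · exact ⟨q, q.2, (abs_of_nonneg h).symm⟩
    · refine ⟨(q : (Fin m → ZMod 2) → ZMod 2) + fun _ => 1, (Q2 _).add_mem q.2 one_mem_Q2, ?_⟩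
      rw [abs_of_nonpos h]
      unfold cor
      rw [← Finset.sum_neg_distrib]
      refine Finset.sum_congr rfl (fun x _ => ?_)
      rw [Pi.add_apply, chi_add, chi_one]; ring
  obtain ⟨p, hp, hp'⟩ := Q2_poly hq'
  refine ⟨p, hp, ?_⟩
  have h1 := cor_eq_dist f q'
  rw [hcardR] at h1
  have h2 : cor F q' = ∑ x, chi (f x) * chi (q' x) := rfl
  rw [← h2, hc'] at h1
  simp only [hp']
  linarith

/-- the size condition of the inverse theorem -/
lemma big_cond (s : ℕ) (hs : 6 ≤ s) (m : ℕ) (hm : 2 ^ 55 * s ^ 4 ≤ m) :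
    (21 * (80 * s + 12) + 45) * (348 * (56 * (80 * s + 12) + 120) ^ 2 * (21 * (80 * s + 12) + 46))
      + (56 * (80 * s + 12) + 120) + 3 * (80 * s + 12) + 8 ≤ m := by
  refine le_trans ?_ hm
  have h1 : 21 * (80 * s + 12) + 45 ≤ 1730 * s := by omega
  have h2 : 56 * (80 * s + 12) + 120 ≤ 4612 * s := by omega
  have h3 : 21 * (80 * s + 12) + 46 ≤ 1730 * s := by omega
  have h4 : (56 * (80 * s + 12) + 120) + 3 * (80 * s + 12) + 8 ≤ 5000 * s ^ 4 := by
    have h5 : s ≤ s ^ 4 := Nat.le_self_pow (by norm_num) s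
    omega
  calc _ = (21 * (80 * s + 12) + 45) *
        (348 * (56 * (80 * s + 12) + 120) ^ 2 * (21 * (80 * s + 12) + 46))
      + ((56 * (80 * s + 12) + 120) + 3 * (80 * s + 12) + 8) := by ring
    _ ≤ (1730 * s) * (348 * (4612 * s) ^ 2 * (1730 * s)) + 5000 * s ^ 4 := by gcongr
    _ = (1730 * (348 * 4612 ^ 2 * 1730) + 5000) * s ^ 4 := by ring
    _ ≤ 2 ^ 55 * s ^ 4 := Nat.mul_le_mul_right _ (by norm_num)

/-- all hypotheses of `moment_v` and `inverse` combined: `ρ ≥ s/e` if `m ≥ 2^55 s^4` -/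
theorem key_of
    (moment_v : ∀ (s : ℕ) (_ : 6 ≤ s) (m : ℕ) (_ : 8 * s ^ 2 + 2 ≤ m)
      (V : Type) [AddCommGroup V] [Module (ZMod 2) V] [Fintype V] (_ : Fintype.card V = 2 ^ m)
      (F : V → ℝ) (_ : ∀ x, F x ^ 2 = 1) (ρ : ℝ) (_ : Rb F ρ)
      (_ : ∑ z : V × Module.Dual (ZMod 2) V, gg F z ^ 2
        ≤ (1 / 2 : ℝ) ^ (80 * s + 12) * Fintype.card V),
      (s : ℝ) / Real.exp 1 ≤ ρ)
    (s : ℕ) (hs : 6 ≤ s) (m : ℕ) (hm : 2 ^ 55 * s ^ 4 ≤ m)
    (V : Type) [AddCommGroup V] [Module (ZMod 2) V] [Fintype V] (hV : Fintype.card V = 2 ^ m)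
    (F : V → ℝ) (hF : ∀ x, F x ^ 2 = 1) (ρ : ℝ) (hR : Rb F ρ) : (s : ℝ) / Real.exp 1 ≤ ρ := by
  by_contra hlt
  push Not at hlt
  have hnrm := nrm_sign m hV F hF
  have hFpos : 0 < nrm F := by rw [hnrm]; positivity
  have hρ := hR.nonneg hFpos
  have hsle : ρ ≤ 2 ^ (80 * s + 12) := by
    have h1 : (s : ℝ) / Real.exp 1 ≤ s := div_le_self (by positivity) (Real.one_le_exp zero_le_one)
    have h2 : (s : ℝ) ≤ 2 ^ s := by exact_mod_cast (Nat.lt_two_pow_self (n := s)).le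
    have h3 : (2 : ℝ) ^ s ≤ 2 ^ (80 * s + 12) := pow_le_pow_right₀ (by norm_num) (by omega)
    linarith
  have hbig := big_cond s hs m hm
  have h1 := inverse F hF ρ hρ hR (80 * s + 12) hsle (by
    rw [hV]
    push_cast
    exact pow_le_pow_right₀ (by norm_num) hbig)
  have h2 : 8 * s ^ 2 + 2 ≤ m := by
    refine le_trans ?_ hm
    have h3 : s ^ 2 ≤ s ^ 4 := Nat.pow_le_pow_right (by omega) (by norm_num)
    have h4 : 1 ≤ s ^ 4 := Nat.one_le_pow _ _ (by omega)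
    omega
  exact absurd (moment_v s hs m h2 V hV F hF ρ hR h1.le) (not_le.2 hlt)

end RMC71
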