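import Pool.Agent.Helper71.RMC.Pair

set_option autoImplicit false

open scoped BigOperators
open Classical

namespace RMC

variable {I : Type} [Fintype I]
variable {V : Type} [AddCommGroup V] [Module (ZMod 2) V] [Fintype V]

instance Q2Finite : Finite (Q2 V) := inferInstance

noncomputable instance Q2Fintype : Fintype (Q2 V) := Fintype.ofFinite _

/-- the solution set -/
def Sol (X : I → V) : Prop := ∀ l l' : Module.Dual (ZMod 2) V, ∑ i, l (X i) * l' (X i) = 0

lemma sol_Q2 (hI : Even (Fintype.card I)) {X : I → V} (hX : Sol X) {q : V → ZMod 2}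
    (hq : q ∈ Q2 V) : ∑ i, q (X i) = 0 := by
  unfold Q2 at hq
  induction hq using Submodule.span_induction with
  | mem x hx =>
    rcases hx with hx | ⟨a, b, rfl⟩
    · rw [hx]
      obtain ⟨k, hk⟩ := hI
      simp only [Finset.sum_const, Finset.card_univ, nsmul_eq_mul, mul_one]
      rw [hk]; push_cast; exact zmod2_add_self _
    · exact hX a b
  | zero => simp
  | add x y _ _ hx hy => simp only [Pi.add_apply, Finset.sum_add_distrib, hx, hy, add_zero]
  | smul c x _ hx => simp only [Pi.smul_apply, smul_eq_mul, ← Finset.mul_sum, hx, mul_zero]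

lemma sum_Q2 (hI : Even (Fintype.card I)) (X : I → V) :
    ∑ q : Q2 V, ∏ i, chi ((q : V → ZMod 2) (X i))
      = if Sol X then (Fintype.card (Q2 V) : ℝ) else 0 := by
  let φ : Q2 V →+ ZMod 2 :=
    { toFun := fun q => ∑ i, (q : V → ZMod 2) (X i)
      map_zero' := by simp
      map_add' := fun q q' => by simp [Finset.sum_add_distrib] }
  have h1 : ∀ q : Q2 V, ∏ i, chi ((q : V → ZMod 2) (X i)) = chi (φ q) := by
    intro q
    exact (chi_sum _ _).symm
  simp only [h1]
  split_ifs with h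
  · exact sum_chi_zero φ (fun q => sol_Q2 hI h q.2)
  · refine sum_chi_eq_zero φ ?_
    unfold Sol at h
    push Not at h
    obtain ⟨l, l', hl⟩ := h
    exact ⟨⟨_, mul_mem_Q2 l l'⟩, hl⟩

/-- the moment identity -/
lemma moment_eq (hI : Even (Fintype.card I)) (F : V → ℝ) :
    ∑ q : Q2 V, cor F q ^ Fintype.card I
      = (Fintype.card (Q2 V) : ℝ) * ∑ X : I → V, if Sol X then ∏ i, F (X i) else 0 := by
  have h1 : ∀ q : Q2 V, cor F q ^ Fintype.card I
      = ∑ X : I → V, (∏ i, F (X i)) * ∏ i, chi ((q : V → ZMod 2) (X i)) := by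
    intro q
    have h2 : cor F q ^ Fintype.card I = ∏ _i : I, ∑ x, F x * chi ((q : V → ZMod 2) x) := by
      rw [Finset.prod_const, Finset.card_univ]; rfl
    rw [h2, Finset.prod_univ_sum, Fintype.piFinset_univ]
    refine Finset.sum_congr rfl (fun X _ => ?_)
    rw [Finset.prod_mul_distrib]
  simp only [h1]
  rw [Finset.sum_comm]
  simp only [← Finset.mul_sum, sum_Q2 hI]
  rw [Finset.mul_sum]
  refine Finset.sum_congr rfl (fun X _ => ?_)
  split_ifs <;> ring

lemma sum_univ_inst {A : Type} (i1 i2 : Fintype A) (g : A → ℝ) :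
    @Finset.sum A ℝ _ (@Finset.univ A i1) g = @Finset.sum A ℝ _ (@Finset.univ A i2) g := by
  rw [Subsingleton.elim i1 i2]

lemma moment_two (F : V → ℝ) :
    ∑ q : Q2 V, cor F q ^ 2 = (Fintype.card (Q2 V) : ℝ) * nrm F := by
  have h := moment_eq (I := Fin 2) (V := V) (by simp) F
  rw [Fintype.card_fin] at h
  rw [h]
  congr 1
  have h1 : ∀ X : Fin 2 → V, Sol X ↔ X 0 = X 1 := by
    intro X
    constructor
    · intro hX
      have h2 : X 0 - X 1 = 0 := by
        rw [← Module.forall_dual_apply_eq_zero_iff (ZMod 2)]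
        intro l
        have h3 := hX l l
        rw [Fin.sum_univ_two, zmod2_mul_self, zmod2_mul_self] at h3
        rw [map_sub, CharTwo.sub_eq_add]
        exact h3
      exact sub_eq_zero.1 h2
    · intro hX l l'
      rw [Fin.sum_univ_two, hX, zmod2_add_self]
  have h3 : ∀ X : Fin 2 → V, (if Sol X then ∏ i, F (X i) else 0)
      = (if X 0 = X 1 then ∏ i, F (X i) else 0) := by
    intro X
    by_cases hX : X 0 = X 1
    · rw [if_pos ((h1 X).2 hX), if_pos hX]
    · rw [if_neg (fun h => hX ((h1 X).1 h)), if_neg hX]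
  rw [Finset.sum_congr rfl (fun X _ => h3 X)]
  refine (sum_univ_inst _ _ _).trans ((Fintype.sum_equiv (finTwoArrowEquiv V) _
    (fun p : V × V => if p.1 = p.2 then F p.1 * F p.2 else 0) (fun X => ?_)).trans ?_)
  · simp [finTwoArrowEquiv, Fin.prod_univ_two]
  rw [Fintype.sum_prod_type]
  unfold nrm
  refine Finset.sum_congr rfl (fun x _ => ?_)
  simp [pow_two]

/-- the finset of self-dual codes -/
noncomputable def sdc (I : Type) [Fintype I] : Finset (Submodule (ZMod 2) (I → ZMod 2)) :=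
  Finset.univ.filter SD

lemma mem_sdc {C : Submodule (ZMod 2) (I → ZMod 2)} : C ∈ sdc I ↔ SD C := by
  simp [sdc]

lemma sol_iff (hI : Even (Fintype.card I)) (X : I → V) :
    Sol X ↔ ∃ C ∈ sdc I, X ∈ CV V C := by
  constructor
  · intro hX
    let R : Submodule (ZMod 2) (I → ZMod 2) := LinearMap.range
      ({ toFun := fun l => fun i => l (X i)
         map_add' := fun _ _ => rfl
         map_smul' := fun _ _ => rfl } : Module.Dual (ZMod 2) V →ₗ[ZMod 2] (I → ZMod 2))
    have hR : SO R := by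
      rintro c ⟨l, rfl⟩ d ⟨l', rfl⟩
      exact hX l l'
    obtain ⟨C, hRC, hC⟩ := exists_SD hI hR
    exact ⟨C, mem_sdc.2 hC, fun l => hRC ⟨l, rfl⟩⟩
  · rintro ⟨C, hC, hX⟩ l l'
    exact (mem_sdc.1 hC).so _ (hX l) _ (hX l')

lemma card_CV_sq {C : Submodule (ZMod 2) (I → ZMod 2)} (hC : SD C) :
    Fintype.card (CV V C) * Fintype.card (CV V C) = Fintype.card V ^ Fintype.card I := by
  have h0 : Free (∅ : Finset I) C := by
    intro c _ h
    funext i
    exact h i (by simp)
  obtain ⟨J, -, hJ, hJc⟩ := exists_free hC.so h0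
  have h1 := Fintype.card_of_bijective (CV_bij (V := V) hC hJ hJc)
  have h2 := Fintype.card_of_bijective (CV_bij (V := V) hC hJc (by rwa [compl_compl]))
  rw [Fintype.card_fun, Fintype.card_coe] at h1 h2
  nth_rewrite 1 [h1]
  rw [h2, ← pow_add, Finset.card_add_card_compl]

lemma card_CV {C : Submodule (ZMod 2) (I → ZMod 2)} (hC : SD C) (s : ℕ)
    (hs : Fintype.card I = 2 * s) : Fintype.card (CV V C) = Fintype.card V ^ s := by
  have h := card_CV_sq (V := V) hC
  rw [hs, two_mul, pow_add] at h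
  exact Nat.mul_self_inj.1 h

lemma card_inter {C C' : Submodule (ZMod 2) (I → ZMod 2)} (hC : SD C) (hC' : SD C')
    (hne : C ≠ C') :
    Fintype.card V * (Finset.univ.filter (fun X : I → V => X ∈ CV V C ∧ X ∈ CV V C')).card
      ≤ Fintype.card (CV V C) := by
  -- a word of `C'` outside `C`
  obtain ⟨w, hw, hwC⟩ : ∃ w ∈ C', w ∉ C := by
    by_contra hcon
    push Not at hcon
    apply hne
    ext c
    constructor
    · intro hc
      rw [hC']
      intro d hd
      exact hC.so c hc d (hcon d hd)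
    · exact hcon c
  have hwC2 : ∃ c ∈ C, ip w c ≠ 0 := by
    by_contra hcon
    push Not at hcon
    exact hwC ((hC w).2 hcon)
  obtain ⟨c, hc, hwc⟩ := hwC2
  have hwc1 : ip w c = 1 := (zmod2_cases _).resolve_left hwc
  rw [← Fintype.card_coe, ← Fintype.card_prod]
  let f : V × {X : I → V // X ∈ Finset.univ.filter (fun X : I → V => X ∈ CV V C ∧ X ∈ CV V C')}
      → CV V C := fun z => ⟨z.2.1 + (fun i => c i • z.1), (CV V C).add_mem
        (Finset.mem_filter.1 z.2.2).2.1 (CV_tensor hc z.1)⟩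
  refine Fintype.card_le_of_injective f ?_
  have hval : ∀ z, ∑ i, w i • ((f z : CV V C) : I → V) i = z.1 := by
    intro z
    have h1 : ∑ i, w i • ((f z : CV V C) : I → V) i
        = ∑ i, w i • z.2.1 i + ∑ i, (w i * c i) • z.1 := by
      rw [← Finset.sum_add_distrib]
      refine Finset.sum_congr rfl (fun i _ => ?_)
      change w i • (z.2.1 i + c i • z.1) = _
      rw [smul_add, smul_smul]
    rw [h1, CV_rel hC' hw (Finset.mem_filter.1 z.2.2).2.2, zero_add, ← Finset.sum_smul]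
    have : ∑ i, w i * c i = 1 := hwc1
    rw [this, one_smul]
  intro z z' hz
  have h1 : z.1 = z'.1 := by rw [← hval z, ← hval z', hz]
  have h2 : z.2.1 = z'.2.1 := by
    have h3 : z.2.1 + (fun i => c i • z.1) = z'.2.1 + (fun i => c i • z'.1) :=
      congrArg Subtype.val hz
    rw [h1] at h3
    exact add_right_cancel h3
  exact Prod.ext h1 (Subtype.ext h2)

lemma prod_abs_le (F : V → ℝ) (L : ℝ) (hL0 : 0 ≤ L) (hL : ∀ x, F x ^ 2 ≤ L) (s : ℕ)
    (hs : Fintype.card I = 2 * s) (X : I → V) : |∏ i, F (X i)| ≤ L ^ s := by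
  refine abs_le_of_sq_le_sq ?_ (by positivity)
  rw [← Finset.prod_pow, ← pow_mul, mul_comm s 2, ← hs]
  calc ∏ i, F (X i) ^ 2 ≤ ∏ _i : I, L := Finset.prod_le_prod (fun i _ => sq_nonneg _) (fun i _ => hL _)
    _ = L ^ Fintype.card I := by rw [Finset.prod_const, Finset.card_univ]

/-- The decomposition of the solution set into codes. -/
theorem sum_T_le (F : V → ℝ) (L : ℝ) (hL0 : 0 ≤ L) (hL : ∀ x, F x ^ 2 ≤ L) (s : ℕ) (hs0 : 1 ≤ s)
    (hs : Fintype.card I = 2 * s) :
    ∑ C ∈ sdc I, T C F ≤ (∑ X : I → V, if Sol X then ∏ i, F (X i) else 0)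
      + ((sdc I).card : ℝ) ^ 2 * (L ^ s * (Fintype.card V : ℝ) ^ (s - 1)) := by
  have hI : Even (Fintype.card I) := by rw [hs]; exact even_two_mul s
  -- multiplicity
  let n : (I → V) → ℕ := fun X => ((sdc I).filter (fun C => X ∈ CV V C)).card
  have hT : ∑ C ∈ sdc I, T C F = ∑ X : I → V, (n X : ℝ) * ∏ i, F (X i) := by
    have h1 : ∀ C ∈ sdc I, T C F = ∑ X : I → V, if X ∈ CV V C then ∏ i, F (X i) else 0 := by
      intro C _
      unfold T
      rw [← Finset.sum_filter]
      rw [Finset.sum_subtype (p := fun X => X ∈ CV V C) _ (by simp)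
        (fun X : I → V => ∏ i, F (X i))]
    rw [Finset.sum_congr rfl h1, Finset.sum_comm]
    refine Finset.sum_congr rfl (fun X _ => ?_)
    rw [← Finset.sum_filter, Finset.sum_const, nsmul_eq_mul]
  have hn : ∀ X : I → V, |(n X : ℝ) * ∏ i, F (X i) - (if Sol X then ∏ i, F (X i) else 0)|
      ≤ (n X : ℝ) * ((n X : ℝ) - 1) * L ^ s := by
    intro X
    have hP := prod_abs_le F L hL0 hL s hs X
    by_cases h : Sol X
    · rw [if_pos h]
      have hpos : 1 ≤ n X := by
        obtain ⟨C, hC, hX⟩ := (sol_iff hI X).1 h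
        exact Finset.card_pos.2 ⟨C, Finset.mem_filter.2 ⟨hC, hX⟩⟩
      have hpos' : (1 : ℝ) ≤ n X := by exact_mod_cast hpos
      have h2 : (n X : ℝ) * ∏ i, F (X i) - ∏ i, F (X i) = ((n X : ℝ) - 1) * ∏ i, F (X i) := by ring
      rw [h2, abs_mul, abs_of_nonneg (by linarith)]
      have h3 : ((n X : ℝ) - 1) ≤ (n X : ℝ) * ((n X : ℝ) - 1) := by nlinarith
      exact mul_le_mul h3 hP (abs_nonneg _) (by nlinarith)
    · rw [if_neg h]
      have h0 : n X = 0 := by
        refine Finset.card_eq_zero.2 (Finset.filter_eq_empty_iff.2 (fun C hC hX => ?_))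
        exact h ((sol_iff hI X).2 ⟨C, hC, hX⟩)
      simp [h0]
  have hcount : ∑ X : I → V, (n X : ℝ) * ((n X : ℝ) - 1)
      ≤ ((sdc I).card : ℝ) ^ 2 * (Fintype.card V : ℝ) ^ (s - 1) := by
    have h1 : ∀ X : I → V, (n X : ℝ) * ((n X : ℝ) - 1)
        = ∑ p ∈ (sdc I).offDiag, if (X ∈ CV V p.1 ∧ X ∈ CV V p.2) then (1 : ℝ) else 0 := by
      intro X
      rw [← Finset.sum_filter, Finset.sum_const, nsmul_eq_mul, mul_one]
      have h2 : (sdc I).offDiag.filter (fun p => X ∈ CV V p.1 ∧ X ∈ CV V p.2)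
          = ((sdc I).filter (fun C => X ∈ CV V C)).offDiag := by
        ext p
        simp only [Finset.mem_filter, Finset.mem_offDiag]
        tauto
      rw [h2, Finset.offDiag_card]
      change _ = ((n X * n X - n X : ℕ) : ℝ)
      rw [Nat.cast_sub (Nat.le_mul_self _)]
      push_cast; ring
    simp only [h1]
    rw [Finset.sum_comm]
    have hVpos : 0 < Fintype.card V := Fintype.card_pos_iff.2 ⟨0⟩
    have h3 : ∀ p ∈ (sdc I).offDiag,
        ∑ X : I → V, (if (X ∈ CV V p.1 ∧ X ∈ CV V p.2) then (1 : ℝ) else 0)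
          ≤ (Fintype.card V : ℝ) ^ (s - 1) := by
      intro p hp
      rw [Finset.mem_offDiag] at hp
      have h4 := card_inter (V := V) (mem_sdc.1 hp.1) (mem_sdc.1 hp.2.1) hp.2.2
      rw [card_CV (mem_sdc.1 hp.1) s hs] at h4
      have h5 : Fintype.card V ^ s = Fintype.card V * Fintype.card V ^ (s - 1) := by
        rw [← pow_succ']; congr 1; omega
      rw [h5] at h4
      have h6 := Nat.le_of_mul_le_mul_left h4 hVpos
      rw [← Finset.sum_filter, Finset.sum_const, nsmul_eq_mul, mul_one]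
      exact_mod_cast h6
    calc _ ≤ ∑ p ∈ (sdc I).offDiag, (Fintype.card V : ℝ) ^ (s - 1) := Finset.sum_le_sum h3
      _ = ((sdc I).offDiag.card : ℝ) * (Fintype.card V : ℝ) ^ (s - 1) := by
          rw [Finset.sum_const, nsmul_eq_mul]
      _ ≤ _ := by
          refine mul_le_mul_of_nonneg_right ?_ (by positivity)
          rw [Finset.offDiag_card, pow_two]
          exact_mod_cast Nat.sub_le _ _
  have hfin : |∑ C ∈ sdc I, T C F - ∑ X : I → V, (if Sol X then ∏ i, F (X i) else 0)|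
      ≤ ((sdc I).card : ℝ) ^ 2 * (L ^ s * (Fintype.card V : ℝ) ^ (s - 1)) := by
    rw [hT, ← Finset.sum_sub_distrib]
    calc _ ≤ ∑ X : I → V, |(n X : ℝ) * ∏ i, F (X i) - (if Sol X then ∏ i, F (X i) else 0)| :=
          Finset.abs_sum_le_sum_abs _ _
      _ ≤ ∑ X : I → V, (n X : ℝ) * ((n X : ℝ) - 1) * L ^ s := Finset.sum_le_sum (fun X _ => hn X)
      _ = (∑ X : I → V, (n X : ℝ) * ((n X : ℝ) - 1)) * L ^ s := by rw [Finset.sum_mul]
      _ ≤ (((sdc I).card : ℝ) ^ 2 * (Fintype.card V : ℝ) ^ (s - 1)) * L ^ s :=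
          mul_le_mul_of_nonneg_right hcount (by positivity)
      _ = _ := by ring
  have := (abs_le.1 hfin).2
  linarith

/-- all normalised correlations are at most `ρ` -/
def Rb (F : V → ℝ) (ρ : ℝ) : Prop := ∀ q ∈ Q2 V, cor F q ^ 2 ≤ ρ * nrm F

lemma sol_sum_le (F : V → ℝ) (ρ : ℝ) (hρ : 0 ≤ ρ) (hR : Rb F ρ) (s : ℕ) (hs0 : 1 ≤ s)
    (hs : Fintype.card I = 2 * s) :
    (∑ X : I → V, if Sol X then ∏ i, F (X i) else 0) ≤ ρ ^ (s - 1) * nrm F ^ s := by
  have hI : Even (Fintype.card I) := by rw [hs]; exact even_two_mul s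
  have hQ : (0 : ℝ) < Fintype.card (Q2 V) := by
    have : 0 < Fintype.card (Q2 V) := Fintype.card_pos_iff.2 ⟨0⟩
    positivity
  have hS0 : 0 ≤ nrm F := nrm_nonneg F
  have h1 := moment_eq hI F
  have h2 : ∑ q : Q2 V, cor F q ^ Fintype.card I
      ≤ (Fintype.card (Q2 V) : ℝ) * (ρ ^ (s - 1) * nrm F ^ s) := by
    calc ∑ q : Q2 V, cor F q ^ Fintype.card I
        = ∑ q : Q2 V, (cor F q ^ 2) ^ (s - 1) * cor F q ^ 2 := by
          refine Finset.sum_congr rfl (fun q _ => ?_)
          rw [← pow_succ, ← pow_mul, hs]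
          congr 1
          congr 1
          omega
      _ ≤ ∑ q : Q2 V, (ρ * nrm F) ^ (s - 1) * cor F q ^ 2 := by
          refine Finset.sum_le_sum (fun q _ => ?_)
          refine mul_le_mul_of_nonneg_right ?_ (sq_nonneg _)
          exact pow_le_pow_left₀ (sq_nonneg _) (hR q q.2) _
      _ = (ρ * nrm F) ^ (s - 1) * ((Fintype.card (Q2 V) : ℝ) * nrm F) := by
          rw [← Finset.mul_sum, moment_two]
      _ = (Fintype.card (Q2 V) : ℝ) * (ρ ^ (s - 1) * (nrm F ^ (s - 1) * nrm F)) := by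
          rw [mul_pow]; ring
      _ = _ := by
          rw [← pow_succ]
          congr 4
          omega
  rw [h1] at h2
  exact le_of_mul_le_mul_left h2 hQ

end RMC
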