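import Pool.Agent.Helper71.RMC.Basic

set_option autoImplicit false

open scoped BigOperators
open Classical

namespace RMC

variable {I : Type} [Fintype I]

/-- standard inner product -/
def ip (c d : I → ZMod 2) : ZMod 2 := ∑ i, c i * d i

lemma ip_comm (c d : I → ZMod 2) : ip c d = ip d c := by
  unfold ip; exact Finset.sum_congr rfl (fun i _ => mul_comm _ _)

lemma ip_add (c d e : I → ZMod 2) : ip (c + d) e = ip c e + ip d e := by
  unfold ip
  rw [← Finset.sum_add_distrib]
  exact Finset.sum_congr rfl (fun i _ => add_mul _ _ _)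

lemma ip_add_right (c d e : I → ZMod 2) : ip c (d + e) = ip c d + ip c e := by
  rw [ip_comm, ip_add, ip_comm d, ip_comm e]

lemma ip_smul (a : ZMod 2) (c d : I → ZMod 2) : ip (a • c) d = a * ip c d := by
  unfold ip
  rw [Finset.mul_sum]
  exact Finset.sum_congr rfl (fun i _ => by simp [mul_assoc])

lemma ip_zero (c : I → ZMod 2) : ip c 0 = 0 := by
  unfold ip; simp

lemma ip_one (c : I → ZMod 2) : ip c (fun _ => 1) = ip c c := by
  unfold ip
  exact Finset.sum_congr rfl (fun i _ => by rw [mul_one, zmod2_mul_self])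

/-- self-orthogonal codes -/
def SO (C : Submodule (ZMod 2) (I → ZMod 2)) : Prop := ∀ c ∈ C, ∀ d ∈ C, ip c d = 0

/-- self-dual codes -/
def SD (C : Submodule (ZMod 2) (I → ZMod 2)) : Prop := ∀ c, c ∈ C ↔ ∀ d ∈ C, ip c d = 0

lemma SD.so {C : Submodule (ZMod 2) (I → ZMod 2)} (h : SD C) : SO C :=
  fun c hc d hd => (h c).1 hc d hd

instance submodFinite : Finite (Submodule (ZMod 2) (I → ZMod 2)) :=
  Finite.of_injective (fun C : Submodule (ZMod 2) (I → ZMod 2) => (C : Set (I → ZMod 2)))
    SetLike.coe_injective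

noncomputable instance submodFintype : Fintype (Submodule (ZMod 2) (I → ZMod 2)) :=
  Fintype.ofFinite _

/-- adjoining an orthogonal self-orthogonal vector -/
lemma SO.adjoin {C : Submodule (ZMod 2) (I → ZMod 2)} (h : SO C) (u : I → ZMod 2)
    (hu : ip u u = 0) (huC : ∀ d ∈ C, ip u d = 0) : SO (C ⊔ Submodule.span (ZMod 2) {u}) := by
  intro c hc d hd
  obtain ⟨c1, hc1, c2, hc2, rfl⟩ := Submodule.mem_sup.1 hc
  obtain ⟨d1, hd1, d2, hd2, rfl⟩ := Submodule.mem_sup.1 hd
  obtain ⟨a, rfl⟩ := Submodule.mem_span_singleton.1 hc2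
  obtain ⟨b, rfl⟩ := Submodule.mem_span_singleton.1 hd2
  rw [ip_add, ip_add_right, ip_add_right, h c1 hc1 d1 hd1, ip_smul, ip_smul, huC d1 hd1,
    ip_comm c1, ip_smul, huC c1 hc1, ip_comm u, ip_smul, hu]
  simp

/-- every self-orthogonal code of even length lies in a self-dual one -/
theorem exists_SD (hI : Even (Fintype.card I)) {R : Submodule (ZMod 2) (I → ZMod 2)}
    (hR : SO R) : ∃ C, R ≤ C ∧ SD C := by
  obtain ⟨C, hRC, hC⟩ := (Set.toFinite {C : Submodule (ZMod 2) (I → ZMod 2) | SO C}).exists_le_maximal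
    (show R ∈ {C | SO C} from hR)
  have hCso : SO C := hC.prop
  have hmax : ∀ u, ip u u = 0 → (∀ d ∈ C, ip u d = 0) → u ∈ C := by
    intro u hu huC
    have h1 := hCso.adjoin u hu huC
    have h2 := hC.le_of_ge h1 le_sup_left
    exact h2 (Submodule.mem_sup_right (Submodule.mem_span_singleton_self u))
  have hone : (fun _ => (1 : ZMod 2)) ∈ C := by
    refine hmax _ ?_ ?_
    · unfold ip
      simp only [mul_one, Finset.sum_const, Finset.card_univ, nsmul_eq_mul]
      obtain ⟨k, hk⟩ := hI
      rw [hk]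
      push_cast
      exact zmod2_add_self _
    · intro d hd
      rw [ip_comm, ip_one]
      exact hCso d hd d hd
  refine ⟨C, hRC, fun c => ⟨fun hc d hd => hCso c hc d hd, fun hc => ?_⟩⟩
  refine hmax c ?_ hc
  rw [← ip_one]
  exact hc _ hone

/-- no nonzero codeword is supported in `J` -/
def Free (J : Finset I) (C : Submodule (ZMod 2) (I → ZMod 2)) : Prop :=
  ∀ c ∈ C, (∀ i, i ∉ J → c i = 0) → c = 0

theorem exists_free {C : Submodule (ZMod 2) (I → ZMod 2)} (hC : SO C) {A : Finset I}
    (hA : Free A C) : ∃ J, A ⊆ J ∧ Free J C ∧ Free Jᶜ C := by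
  obtain ⟨J, hAJ, hJ⟩ := (Set.toFinite {J : Finset I | Free J C}).exists_le_maximal
    (show A ∈ {J | Free J C} from hA)
  have hJf : Free J C := hJ.prop
  refine ⟨J, hAJ, hJf, ?_⟩
  intro c hc hcJ
  funext j
  by_cases hj : j ∈ J
  · exact hcJ j (by simpa using hj)
  · -- by maximality there is a codeword supported in `insert j J`
    have hnot : ¬ Free (insert j J) C := by
      intro hfree
      have := hJ.le_of_ge hfree (Finset.subset_insert j J)
      exact hj (this (Finset.mem_insert_self j J))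
    unfold Free at hnot
    push Not at hnot
    obtain ⟨d, hd, hdJ, hd0⟩ := hnot
    have hdj : d j = 1 := by
      refine (zmod2_cases (d j)).resolve_left (fun h0 => hd0 ?_)
      refine hJf d hd (fun i hi => ?_)
      by_cases hij : i = j
      · rw [hij]; exact h0
      · exact hdJ i (by simp [hij, hi])
    have h0 := hC c hc d hd
    unfold ip at h0
    rw [Finset.sum_eq_single j] at h0
    · rwa [hdj, mul_one] at h0
    · intro i _ hij
      by_cases hi : i ∈ J
      · rw [hcJ i (by simpa using hi), zero_mul]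
      · rw [hdJ i (by simp [hij, hi]), mul_zero]
    · intro h; exact absurd (Finset.mem_univ _) h

/-- surjectivity of the restriction to a free set -/
theorem free_surj {C : Submodule (ZMod 2) (I → ZMod 2)} (hC : SD C) {J : Finset I}
    (hJ : Free J C) (j : I) (hj : j ∈ J) : ∃ c ∈ C, c j = 1 ∧ ∀ i ∈ J, i ≠ j → c i = 0 := by
  let ρ : (I → ZMod 2) →ₗ[ZMod 2] (J → ZMod 2) := LinearMap.funLeft (ZMod 2) (ZMod 2) (fun i : J => (i : I))
  have htop : Submodule.map ρ C = ⊤ := by
    by_contra hne
    obtain ⟨f, hf, hfle⟩ := Submodule.exists_le_ker_of_lt_top _ (lt_top_iff_ne_top.2 hne)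
    -- the functional is given by a vector
    let w : I → ZMod 2 := fun i => if h : i ∈ J then f (Pi.single ⟨i, h⟩ 1) else 0
    have hw : ∀ c : I → ZMod 2, ip w c = f (ρ c) := by
      intro c
      have h1 : ρ c = ∑ i : J, c i • (Pi.single i (1 : ZMod 2) : J → ZMod 2) := by
        funext k
        simp [ρ, LinearMap.funLeft_apply, Finset.sum_apply, Pi.single_apply]
      rw [h1, map_sum]
      unfold ip
      have h2 : ∑ i, w i * c i = ∑ i ∈ J, w i * c i :=
        (Finset.sum_subset (Finset.subset_univ J) (fun i _ hi => by simp [w, hi])).symm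
      rw [h2, ← Finset.sum_coe_sort J]
      refine Finset.sum_congr rfl (fun i _ => ?_)
      rw [map_smul, smul_eq_mul, mul_comm]
      congr 1
      simp [w]
    have hwC : w ∈ C := by
      rw [hC]
      intro d hd
      rw [hw]
      exact hfle (Submodule.mem_map_of_mem hd)
    have hw0 : w = 0 := hJ w hwC (fun i hi => by simp [w, hi])
    apply hf
    ext i
    have := congrFun hw0 (i : I)
    simpa [w] using this
  have hmem : (Pi.single (⟨j, hj⟩ : J) (1 : ZMod 2) : J → ZMod 2) ∈ Submodule.map ρ C := by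
    rw [htop]; trivial
  obtain ⟨c, hc, hcρ⟩ := Submodule.mem_map.1 hmem
  refine ⟨c, hc, ?_, ?_⟩
  · have := congrFun hcρ ⟨j, hj⟩
    simpa [ρ, LinearMap.funLeft_apply] using this
  · intro i hi hij
    have := congrFun hcρ ⟨i, hi⟩
    simpa [ρ, LinearMap.funLeft_apply, Pi.single_apply, hij] using this

end RMC
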