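import Pool.Agent.Helper71.RMC.Basic

set_option autoImplicit false

open scoped BigOperators
open Classical

namespace RMC

variable {V : Type} [AddCommGroup V] [Module (ZMod 2) V] [Fintype V]

instance dualFinite : Finite (Module.Dual (ZMod 2) V) :=
  Finite.of_injective (fun f : Module.Dual (ZMod 2) V => (f : V → ZMod 2)) DFunLike.coe_injective

noncomputable instance dualFintype : Fintype (Module.Dual (ZMod 2) V) := Fintype.ofFinite _

lemma card_dual : Fintype.card (Module.Dual (ZMod 2) V) = Fintype.card V := by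
  have : Module.Finite (ZMod 2) V := Module.Finite.of_finite
  have : Module.Finite (ZMod 2) (Module.Dual (ZMod 2) V) := Module.Finite.of_finite
  rw [Module.card_eq_pow_finrank (K := ZMod 2) (V := V),
    Module.card_eq_pow_finrank (K := ZMod 2) (V := Module.Dual (ZMod 2) V),
    Subspace.dual_finrank_eq]

lemma sum_dual (y : V) :
    ∑ ξ : Module.Dual (ZMod 2) V, chi (ξ y) = if y = 0 then (Fintype.card V : ℝ) else 0 := by
  let φ : Module.Dual (ZMod 2) V →+ ZMod 2 :=
    { toFun := fun ξ => ξ y, map_zero' := rfl, map_add' := fun _ _ => rfl }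
  split_ifs with hy
  · subst hy
    rw [← card_dual (V := V)]
    exact sum_chi_zero φ (fun g => map_zero g)
  · refine sum_chi_eq_zero φ ?_
    by_contra hcon
    push Not at hcon
    exact hy ((Module.forall_dual_apply_eq_zero_iff (ZMod 2) y).1 hcon)

/-- Fourier inversion -/
lemma four_inv (D : V → ℝ) (y : V) :
    ∑ ξ : Module.Dual (ZMod 2) V, (∑ x, D x * chi (ξ x)) * chi (ξ y)
      = (Fintype.card V : ℝ) * D y := by
  have h1 : ∀ ξ : Module.Dual (ZMod 2) V, (∑ x, D x * chi (ξ x)) * chi (ξ y)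
      = ∑ x, D x * chi (ξ (x + y)) := by
    intro ξ
    rw [Finset.sum_mul]
    refine Finset.sum_congr rfl (fun x _ => ?_)
    rw [map_add, chi_add]; ring
  simp only [h1]
  rw [Finset.sum_comm]
  simp only [← Finset.mul_sum, sum_dual]
  rw [Finset.sum_eq_single y]
  · rw [if_pos (v_add_self y)]; ring
  · intro x _ hx
    rw [if_neg, mul_zero]
    intro h0
    apply hx
    have := congrArg (fun z => z + y) h0
    simpa [v_add_cancel] using this
  · intro h; exact absurd (Finset.mem_univ _) h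

/-- Parseval -/
lemma parseval (D : V → ℝ) :
    ∑ ξ : Module.Dual (ZMod 2) V, (∑ x, D x * chi (ξ x)) ^ 2
      = (Fintype.card V : ℝ) * ∑ x, D x ^ 2 := by
  have h1 : ∀ ξ : Module.Dual (ZMod 2) V, (∑ x, D x * chi (ξ x)) ^ 2
      = ∑ y, D y * ((∑ x, D x * chi (ξ x)) * chi (ξ y)) := by
    intro ξ
    rw [pow_two]
    nth_rewrite 2 [← one_mul (∑ x, D x * chi (ξ x))]
    rw [one_mul, Finset.mul_sum]
    refine Finset.sum_congr rfl (fun x _ => ?_)
    ring
  simp only [h1]
  rw [Finset.sum_comm]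
  simp only [← Finset.mul_sum, four_inv]
  rw [Finset.mul_sum]
  refine Finset.sum_congr rfl (fun x _ => ?_)
  ring

lemma pau_sq_sum (F : V → ℝ) (h : V) :
    ∑ ξ : Module.Dual (ZMod 2) V, pau F h ξ ^ 2
      = (Fintype.card V : ℝ) * ∑ x, (F x * F (x + h)) ^ 2 :=
  parseval (fun x => F x * F (x + h))

lemma sum_shift (F : V → ℝ) (x : V) : ∑ h, F (x + h) = ∑ h, F h :=
  Fintype.sum_equiv (Equiv.addLeft x) _ _ (fun _ => rfl)

lemma pau_sq_total (F : V → ℝ) :
    ∑ h, ∑ ξ : Module.Dual (ZMod 2) V, pau F h ξ ^ 2 = (Fintype.card V : ℝ) * nrm F ^ 2 := by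
  simp only [pau_sq_sum]
  rw [← Finset.mul_sum, Finset.sum_comm]
  congr 1
  have : ∀ x : V, ∑ h, (F x * F (x + h)) ^ 2 = F x ^ 2 * nrm F := by
    intro x
    simp only [mul_pow]
    rw [← Finset.mul_sum]
    congr 1
    exact sum_shift (fun y => F y ^ 2) x
  simp only [this]
  rw [← Finset.sum_mul, pow_two, nrm]

lemma nrm_nonneg (F : V → ℝ) : 0 ≤ nrm F := Finset.sum_nonneg (fun _ _ => sq_nonneg _)

lemma abs_pau_zero_le (F : V → ℝ) (ξ : Module.Dual (ZMod 2) V) : |pau F 0 ξ| ≤ nrm F := by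
  unfold pau nrm
  refine (Finset.abs_sum_le_sum_abs _ _).trans (Finset.sum_le_sum (fun x _ => ?_))
  have h1 : |chi (ξ x)| = 1 := by
    rcases zmod2_cases (ξ x) with h | h <;> rw [h] <;> simp [chi_zero, chi_one]
  rw [add_zero, abs_mul, h1, mul_one, ← pow_two, abs_of_nonneg (sq_nonneg _)]

/-- The fourth moment type bound for the correlations. -/
theorem pau_pow_bound (F : V → ℝ) (δ L : ℝ) (a : ℕ) (ha : 4 ≤ a) (hδ0 : 0 ≤ δ) (hδ1 : δ ≤ 1)
    (hp : ∀ h : V, h ≠ 0 → ∀ ξ, |pau F h ξ| ≤ δ * nrm F)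
    (hL : ∀ x, F x ^ 2 ≤ L) :
    |∑ h, ∑ ξ : Module.Dual (ZMod 2) V, pau F h ξ ^ a|
      ≤ (Fintype.card V : ℝ) * (δ ^ 2 + L / nrm F) * nrm F ^ a := by
  set S := nrm F with hS
  have hS0 : 0 ≤ S := nrm_nonneg F
  rcases eq_or_lt_of_le hS0 with h0 | hSpos
  · -- trivial case
    have hF : ∀ x, F x = 0 := by
      intro x
      have h1 : F x ^ 2 ≤ nrm F :=
        Finset.single_le_sum (f := fun x => F x ^ 2) (fun _ _ => sq_nonneg _) (Finset.mem_univ x)
      have h2 : F x ^ 2 ≤ 0 := by rw [← hS, ← h0] at h1; exact h1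
      exact pow_eq_zero_iff (two_ne_zero) |>.1 (le_antisymm h2 (sq_nonneg _))
    have hP : ∀ h ξ, pau F h ξ = 0 := by
      intro h ξ
      unfold pau
      simp [hF]
    have ha0 : a ≠ 0 := by omega
    simp only [hP, zero_pow ha0]
    simp [← h0, ha0]
  · obtain ⟨b, rfl⟩ : ∃ b, a = b + 2 := ⟨a - 2, by omega⟩
    have hb : 2 ≤ b := by omega
    have h1 : ∀ h ξ, |pau F h ξ ^ (b + 2)| ≤ δ ^ 2 * S ^ b * pau F h ξ ^ 2
        + (if h = 0 then S ^ b * pau F h ξ ^ 2 else 0) := by
      intro h ξ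
      have hsq : 0 ≤ pau F h ξ ^ 2 := sq_nonneg _
      rw [abs_pow, pow_add, sq_abs]
      by_cases hh : h = 0
      · subst hh
        rw [if_pos rfl]
        have h2 : |pau F 0 ξ| ^ b ≤ S ^ b := pow_le_pow_left₀ (abs_nonneg _) (abs_pau_zero_le F ξ) b
        have h3 : 0 ≤ δ ^ 2 * S ^ b * pau F 0 ξ ^ 2 := by positivity
        nlinarith [mul_le_mul_of_nonneg_right h2 hsq]
      · rw [if_neg hh, add_zero]
        have h2 : |pau F h ξ| ^ b ≤ (δ * S) ^ b :=
          pow_le_pow_left₀ (abs_nonneg _) (hp h hh ξ) b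
        have h3 : (δ * S) ^ b ≤ δ ^ 2 * S ^ b := by
          rw [mul_pow]
          exact mul_le_mul_of_nonneg_right (pow_le_pow_of_le_one hδ0 hδ1 hb) (by positivity)
        exact mul_le_mul_of_nonneg_right (h2.trans h3) hsq
    calc |∑ h, ∑ ξ : Module.Dual (ZMod 2) V, pau F h ξ ^ (b + 2)|
        ≤ ∑ h, ∑ ξ : Module.Dual (ZMod 2) V, |pau F h ξ ^ (b + 2)| := by
          refine (Finset.abs_sum_le_sum_abs _ _).trans (Finset.sum_le_sum (fun h _ => ?_))
          exact Finset.abs_sum_le_sum_abs _ _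
      _ ≤ ∑ h, ∑ ξ : Module.Dual (ZMod 2) V, (δ ^ 2 * S ^ b * pau F h ξ ^ 2
        + (if h = 0 then S ^ b * pau F h ξ ^ 2 else 0)) :=
          Finset.sum_le_sum (fun h _ => Finset.sum_le_sum (fun ξ _ => h1 h ξ))
      _ = δ ^ 2 * S ^ b * ((Fintype.card V : ℝ) * S ^ 2)
          + S ^ b * ((Fintype.card V : ℝ) * ∑ x, (F x * F (x + 0)) ^ 2) := by
          simp only [Finset.sum_add_distrib]
          congr 1
          · simp only [← Finset.mul_sum]
            rw [pau_sq_total]
          · rw [Finset.sum_eq_single (0 : V)]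
            · simp only [if_true]
              rw [← Finset.mul_sum, pau_sq_sum]
            · intro h _ hh
              simp [hh]
            · intro h; exact absurd (Finset.mem_univ _) h
      _ ≤ δ ^ 2 * S ^ b * ((Fintype.card V : ℝ) * S ^ 2)
          + S ^ b * ((Fintype.card V : ℝ) * (L * S)) := by
          have h2 : ∑ x, (F x * F (x + 0)) ^ 2 ≤ L * S := by
            rw [hS, nrm, Finset.mul_sum]
            refine Finset.sum_le_sum (fun x _ => ?_)
            rw [add_zero, ← pow_two, pow_two (F x ^ 2)]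
            exact mul_le_mul_of_nonneg_right (hL x) (sq_nonneg _)
          gcongr
      _ = (Fintype.card V : ℝ) * (δ ^ 2 + L / S) * S ^ (b + 2) := by
          field_simp
          ring

end RMC
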