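import Pool.Agent.Helper71.RMC.Moment

set_option autoImplicit false

open scoped BigOperators
open Classical

namespace RMC

/-- the pairing code of a permutation -/
def pc {s : ℕ} (σ : Equiv.Perm (Fin s)) : Submodule (ZMod 2) (Fin s ⊕ Fin s → ZMod 2) where
  carrier := {c | ∀ i, c (Sum.inr (σ i)) = c (Sum.inl i)}
  add_mem' := by
    intro c d hc hd i
    simp only [Pi.add_apply, hc i, hd i]
  zero_mem' := by intro i; rfl
  smul_mem' := by
    intro a c hc i
    simp only [Pi.smul_apply, hc i]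

lemma mem_pc {s : ℕ} {σ : Equiv.Perm (Fin s)} {c : Fin s ⊕ Fin s → ZMod 2} :
    c ∈ pc σ ↔ ∀ i, c (Sum.inr (σ i)) = c (Sum.inl i) := Iff.rfl

lemma pc_pair {s : ℕ} (σ : Equiv.Perm (Fin s)) (i : Fin s) :
    un (Sum.inl i) + un (Sum.inr (σ i)) ∈ pc σ := by
  intro j
  simp only [Pi.add_apply]
  rw [un_ne (i := Sum.inl i) (j := Sum.inr (σ j)) (by simp),
    un_ne (i := Sum.inr (σ i)) (j := Sum.inl j) (by simp)]
  by_cases h : j = i
  · rw [h, un_self, un_self, add_comm]
  · rw [un_ne (by simpa using h), un_ne (by simpa using h)]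

lemma pc_SD {s : ℕ} (σ : Equiv.Perm (Fin s)) : SD (pc σ) := by
  intro c
  constructor
  · intro hc d hd
    unfold ip
    rw [Fintype.sum_sum_type]
    have h1 : ∑ j, c (Sum.inr j) * d (Sum.inr j) = ∑ i, c (Sum.inl i) * d (Sum.inl i) := by
      rw [← Equiv.sum_comp σ]
      refine Finset.sum_congr rfl (fun i _ => ?_)
      rw [hc i, hd i]
    rw [h1, zmod2_add_self]
  · intro hc i
    have h := hc _ (pc_pair σ i)
    rw [ip_comm, ip_add, ip_un, ip_un] at h
    have h2 := congrArg (fun z => z + c (Sum.inr (σ i))) h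
    simp only [add_assoc, zmod2_add_self, add_zero, zero_add] at h2
    exact h2.symm

lemma pc_inj {s : ℕ} : Function.Injective (pc (s := s)) := by
  intro σ τ h
  ext i
  have h1 : un (Sum.inl i) + un (Sum.inr (σ i)) ∈ pc τ := by rw [← h]; exact pc_pair σ i
  have h2 := mem_pc.1 h1 i
  simp only [Pi.add_apply] at h2
  rw [un_ne (i := Sum.inl i) (j := Sum.inr (τ i)) (by simp), un_self,
    un_ne (i := Sum.inr (σ i)) (j := Sum.inl i) (by simp), zero_add, add_zero] at h2
  by_contra hne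
  rw [un_ne] at h2
  · exact zero_ne_one h2
  · intro h3
    apply hne
    rw [Sum.inr.injEq] at h3
    rw [h3]

lemma free_compl_of {I : Type} [Fintype I] (J : Finset I) (C : Submodule (ZMod 2) (I → ZMod 2))
    (h : ∀ c ∈ C, (∀ i ∈ J, c i = 0) → c = 0) : Free Jᶜ C := by
  intro c hc h'
  exact h c hc (fun i hi => h' i (by simpa using hi))

variable {V : Type} [AddCommGroup V] [Module (ZMod 2) V] [Fintype V]

lemma T_pc {s : ℕ} (σ : Equiv.Perm (Fin s)) (F : V → ℝ) : T (pc σ) F = nrm F ^ s := by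
  let J : Finset (Fin s ⊕ Fin s) := Finset.univ.filter (fun i => i.isLeft)
  have hJ : Free J (pc σ) := by
    intro c hc h
    funext i
    rcases i with i | i
    · rw [← mem_pc.1 hc i]; exact h _ (by simp [J])
    · exact h _ (by simp [J])
  have hJc : ∀ c ∈ pc σ, (∀ i ∈ J, c i = 0) → c = 0 := by
    intro c hc h
    have hl : ∀ i, c (Sum.inl i) = 0 := fun i => h _ (by simp [J])
    funext i
    rcases i with i | i
    · exact hl i
    · have := mem_pc.1 hc (σ.symm i)
      rw [Equiv.apply_symm_apply] at this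
      rw [this]; exact hl _
  have h1 : ∀ X : CV V (pc σ), ∏ i, F ((X : Fin s ⊕ Fin s → V) i)
      = ∏ i ∈ J, (fun (_ : Fin s ⊕ Fin s) (v : V) => F v ^ 2) i ((X : Fin s ⊕ Fin s → V) i) := by
    intro X
    have hX : ∀ i, (X : Fin s ⊕ Fin s → V) (Sum.inr (σ i)) = (X : Fin s ⊕ Fin s → V) (Sum.inl i) := by
      intro i
      have h2 : (X : Fin s ⊕ Fin s → V) (Sum.inr (σ i)) - (X : Fin s ⊕ Fin s → V) (Sum.inl i) = 0 := by
        rw [← Module.forall_dual_apply_eq_zero_iff (ZMod 2)]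
        intro l
        rw [map_sub, sub_eq_zero]
        exact mem_pc.1 (X.2 l) i
      exact sub_eq_zero.1 h2
    rw [Fintype.prod_sum_type, ← Equiv.prod_comp σ (fun i => F ((X : Fin s ⊕ Fin s → V) (Sum.inr i)))]
    simp only [hX]
    rw [← Finset.prod_mul_distrib]
    have h3 : J = Finset.univ.map ⟨Sum.inl, Sum.inl_injective⟩ := by
      ext i
      rcases i with i | i <;> simp [J]
    rw [h3, Finset.prod_map]
    refine Finset.prod_congr rfl (fun i _ => ?_)
    simp [pow_two]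
  unfold T
  simp only [h1]
  rw [sum_free (pc_SD σ) hJ (free_compl_of J _ hJc) (fun (_ : Fin s ⊕ Fin s) (v : V) => F v ^ 2)]
  have h4 : J.card = s := by
    have h3 : J = Finset.univ.map ⟨Sum.inl, Sum.inl_injective⟩ := by
      ext i
      rcases i with i | i <;> simp [J]
    rw [h3, Finset.card_map, Finset.card_univ, Fintype.card_fin]
  have h5 : ∏ i ∈ J, ∑ v : V, (fun (_ : Fin s ⊕ Fin s) (v : V) => F v ^ 2) i v
      = ∏ i ∈ J, nrm F := rfl
  rw [h5, Finset.prod_const, h4]

/-- the number of self-dual codes -/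
lemma card_sdc_le (I : Type) [Fintype I] :
    (sdc I).card ≤ (2 ^ Fintype.card I) ^ Fintype.card I := by
  -- a code is spanned by a family indexed by `I`
  have hsurj : ∀ C ∈ sdc I, ∃ g : I → (I → ZMod 2), Submodule.span (ZMod 2) (Set.range g) = C := by
    intro C hC
    have hC' := mem_sdc.1 hC
    have h0 : Free (∅ : Finset I) C := by
      intro c _ h
      funext i
      exact h i (by simp)
    obtain ⟨J, -, hJ, hJc⟩ := exists_free hC'.so h0
    choose c hc hc1 hc0 using fun j : J => free_surj hC' hJ j j.2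
    refine ⟨fun i => if h : i ∈ J then c ⟨i, h⟩ else 0, ?_⟩
    apply le_antisymm
    · rw [Submodule.span_le]
      rintro _ ⟨i, rfl⟩
      by_cases h : i ∈ J
      · simp only [h, dif_pos]; exact hc _
      · simp only [h, dif_neg, not_false_iff]; exact C.zero_mem
    · intro d hd
      have h1 : d = ∑ j : J, d j • c j := by
        have h2 : d + ∑ j : J, d j • c j = 0 := by
          refine hJc _ (C.add_mem hd (C.sum_mem (fun j _ => C.smul_mem _ (hc j)))) (fun i hi => ?_)
          have hi' : i ∈ J := by simpa using hi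
          rw [Pi.add_apply, Finset.sum_apply, Finset.sum_eq_single (⟨i, hi'⟩ : J)]
          · rw [Pi.smul_apply, hc1 ⟨i, hi'⟩, smul_eq_mul, mul_one, zmod2_add_self]
          · intro j _ hj
            rw [Pi.smul_apply, hc0 j i hi' (fun h => hj (Subtype.ext h.symm)), smul_zero]
          · intro h; exact absurd (Finset.mem_univ _) h
        funext i
        have h3 := congrFun h2 i
        rw [Pi.add_apply, Pi.zero_apply] at h3
        have h4 := congrArg (fun z => z + (∑ j : J, d j • c j) i) h3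
        simpa [add_assoc, zmod2_add_self] using h4
      rw [h1]
      refine Submodule.sum_mem _ (fun j _ => Submodule.smul_mem _ _ (Submodule.subset_span ⟨j, ?_⟩))
      simp
  choose! g hg using hsurj
  have hinj : Set.InjOn g (sdc I : Set (Submodule (ZMod 2) (I → ZMod 2))) := by
    intro C hC C' hC' h
    rw [← hg C hC, ← hg C' hC', h]
  calc (sdc I).card = ((sdc I).image g).card := (Finset.card_image_of_injOn hinj).symm
    _ ≤ (Finset.univ : Finset (I → (I → ZMod 2))).card := Finset.card_le_card (Finset.subset_univ _)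
    _ = (2 ^ Fintype.card I) ^ Fintype.card I := by
        rw [Finset.card_univ, Fintype.card_fun, Fintype.card_fun, ZMod.card]

/-- The conclusion of the moment argument. -/
theorem moment_bound (s : ℕ) (hs0 : 1 ≤ s) (F : V → ℝ) (ρ δ L ε : ℝ) (hρ : 0 ≤ ρ)
    (hR : Rb F ρ) (hδ0 : 0 ≤ δ) (hδ1 : δ ≤ 1)
    (hp : ∀ h : V, h ≠ 0 → ∀ ξ, |pau F h ξ| ≤ δ * nrm F)
    (hL0 : 0 ≤ L) (hL : ∀ x, F x ^ 2 ≤ L) (hε : 0 ≤ ε) (hε2 : δ ^ 2 + L / nrm F ≤ ε ^ 2) :
    (s.factorial : ℝ) * nrm F ^ s ≤ ρ ^ (s - 1) * nrm F ^ s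
      + (2 : ℝ) ^ (4 * s ^ 2) * (ε * nrm F ^ s)
      + ((2 : ℝ) ^ (4 * s ^ 2)) ^ 2 * (L ^ s * (Fintype.card V : ℝ) ^ (s - 1)) := by
  have hcI : Fintype.card (Fin s ⊕ Fin s) = 2 * s := by
    rw [Fintype.card_sum, Fintype.card_fin]; ring
  have hS0 : 0 ≤ nrm F := nrm_nonneg F
  have h1 := sol_sum_le (I := Fin s ⊕ Fin s) F ρ hρ hR s hs0 hcI
  have h2 := sum_T_le (I := Fin s ⊕ Fin s) F L hL0 hL s hs0 hcI
  have hN : ((sdc (Fin s ⊕ Fin s)).card : ℝ) ≤ (2 : ℝ) ^ (4 * s ^ 2) := by
    have h3 := card_sdc_le (Fin s ⊕ Fin s)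
    rw [hcI, ← pow_mul] at h3
    have h4 : 2 * s * (2 * s) = 4 * s ^ 2 := by ring
    rw [h4] at h3
    exact_mod_cast h3
  -- the permutation codes
  let P : Finset (Submodule (ZMod 2) (Fin s ⊕ Fin s → ZMod 2)) := Finset.univ.image (pc (s := s))
  have hPsub : P ⊆ sdc (Fin s ⊕ Fin s) := by
    intro C hC
    obtain ⟨σ, -, rfl⟩ := Finset.mem_image.1 hC
    exact mem_sdc.2 (pc_SD σ)
  have hPcard : P.card = s.factorial := by
    rw [Finset.card_image_of_injective _ pc_inj, Finset.card_univ, Fintype.card_perm,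
      Fintype.card_fin]
  have hPsum : ∑ C ∈ P, T C F = (s.factorial : ℝ) * nrm F ^ s := by
    have : ∀ C ∈ P, T C F = nrm F ^ s := by
      intro C hC
      obtain ⟨σ, -, rfl⟩ := Finset.mem_image.1 hC
      exact T_pc σ F
    rw [Finset.sum_congr rfl this, Finset.sum_const, hPcard, nsmul_eq_mul]
  have hrest : -((2 : ℝ) ^ (4 * s ^ 2) * (ε * nrm F ^ s))
      ≤ ∑ C ∈ sdc (Fin s ⊕ Fin s) \ P, T C F := by
    calc -((2 : ℝ) ^ (4 * s ^ 2) * (ε * nrm F ^ s))
        ≤ -(((sdc (Fin s ⊕ Fin s) \ P).card : ℝ) * (ε * nrm F ^ s)) := by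
          apply neg_le_neg
          refine mul_le_mul_of_nonneg_right ?_ (by positivity)
          refine le_trans ?_ hN
          exact_mod_cast Finset.card_le_card Finset.sdiff_subset
      _ = ∑ _C ∈ sdc (Fin s ⊕ Fin s) \ P, -(ε * nrm F ^ s) := by
          rw [Finset.sum_const, nsmul_eq_mul]; ring
      _ ≤ _ := Finset.sum_le_sum (fun C hC => T_ge (mem_sdc.1 (Finset.mem_sdiff.1 hC).1) F s hcI
          δ L ε hδ0 hδ1 hp hL hε hε2)
  have hsplit := Finset.sum_sdiff (f := fun C => T C F) hPsub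
  have h5 : ((sdc (Fin s ⊕ Fin s)).card : ℝ) ^ 2 * (L ^ s * (Fintype.card V : ℝ) ^ (s - 1))
      ≤ ((2 : ℝ) ^ (4 * s ^ 2)) ^ 2 * (L ^ s * (Fintype.card V : ℝ) ^ (s - 1)) := by
    refine mul_le_mul_of_nonneg_right ?_ (by positivity)
    exact pow_le_pow_left₀ (by positivity) hN 2
  linarith

end RMC
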