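import Pool.Agent.Helper71.RMC.Fold
import Pool.Agent.Helper71.RMC.Perm

set_option autoImplicit false

open scoped BigOperators
open Classical

namespace RMC

lemma Rb.nonneg {V : Type} [AddCommGroup V] [Module (ZMod 2) V] [Fintype V] {F : V → ℝ} {ρ : ℝ}
    (hF : 0 < nrm F) (h : Rb F ρ) : 0 ≤ ρ := by
  have h1 := h 0 (Q2 V).zero_mem
  have h2 : 0 ≤ ρ * nrm F := le_trans (sq_nonneg _) h1
  exact nonneg_of_mul_nonneg_left h2 hF

lemma Rb.one_le {V : Type} [AddCommGroup V] [Module (ZMod 2) V] [Fintype V] {F : V → ℝ} {ρ : ℝ}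
    (hF : 0 < nrm F) (h : Rb F ρ) : 1 ≤ ρ := by
  have h1 := moment_two F
  have h2 : ∑ q : Q2 V, cor F q ^ 2 ≤ ∑ _q : Q2 V, ρ * nrm F :=
    Finset.sum_le_sum (fun q _ => h q q.2)
  rw [h1, Finset.sum_const, Finset.card_univ, nsmul_eq_mul] at h2
  have hQ : (0 : ℝ) < Fintype.card (Q2 V) := by
    have : 0 < Fintype.card (Q2 V) := Fintype.card_pos_iff.2 ⟨0⟩
    positivity
  have h3 := le_of_mul_le_mul_left h2 hQ
  by_contra hlt
  push Not at hlt
  nlinarith

/-- Iterated folding: either the correlation bound is large or we reach a pseudorandom function. -/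
theorem iterate (δ : ℝ) (hδ : 0 ≤ δ) (k : ℕ) :
    ∀ (V : Type) [AddCommGroup V] [Module (ZMod 2) V] [Fintype V] (F : V → ℝ) (β ρ : ℝ),
      0 < nrm F → 0 ≤ β → (∀ x, F x ^ 2 * (Fintype.card V : ℝ) ≤ β * nrm F) → Rb F ρ →
      (1 + δ) ^ k ≤ ρ ∨
      ∃ (W : Type) (_ : AddCommGroup W) (_ : Module (ZMod 2) W) (_ : Fintype W) (G : W → ℝ),
        0 < nrm G ∧ (Fintype.card V : ℝ) ≤ 2 ^ k * (Fintype.card W : ℝ) ∧
        (∀ x, G x ^ 2 * (Fintype.card W : ℝ) ≤ (2 ^ k * β) * nrm G) ∧ Rb G ρ ∧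
        ∀ h : W, h ≠ 0 → ∀ ξ, |pau G h ξ| ≤ δ * nrm G := by
  induction k with
  | zero =>
    intro V _ _ _ F β ρ hF _ _ hR
    left
    rw [pow_zero]
    exact hR.one_le hF
  | succ k ih =>
    intro V _ _ _ F β ρ hF hβ hsup hR
    have hρ := hR.nonneg hF
    by_cases hall : ∀ h : V, h ≠ 0 → ∀ ξ, |pau F h ξ| ≤ δ * nrm F
    · right
      refine ⟨V, inferInstance, inferInstance, inferInstance, F, hF, ?_, ?_, hR, hall⟩
      · have h1 : (1 : ℝ) ≤ 2 ^ (k + 1) := one_le_pow₀ (by norm_num)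
        have h2 : (0 : ℝ) ≤ Fintype.card V := by positivity
        nlinarith
      · intro x
        have h1 : (1 : ℝ) ≤ 2 ^ (k + 1) := one_le_pow₀ (by norm_num)
        have h3 : 0 ≤ β * nrm F := by positivity
        nlinarith [hsup x]
    · push Not at hall
      obtain ⟨h, hh, ξ, hbig⟩ := hall
      have hξ : ξ h = 0 := by
        refine (zmod2_cases (ξ h)).resolve_right (fun h1 => ?_)
        rw [pau_eq_zero F h ξ h1, abs_zero] at hbig
        have : 0 ≤ δ * nrm F := by positivity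
        linarith
      obtain ⟨c, hc⟩ : ∃ c : ZMod 2, chi c * pau F h ξ = |pau F h ξ| := by
        rcases le_total 0 (pau F h ξ) with h0 | h0
        · exact ⟨0, by rw [chi_zero, one_mul, abs_of_nonneg h0]⟩
        · exact ⟨1, by rw [chi_one, abs_of_nonpos h0]; ring⟩
      obtain ⟨W, iW1, iW2, iW3, F', hcard, hsup', hnrm, hcor⟩ := fold F h ξ hh hξ c
      rw [hc] at hnrm
      have hn : (1 + δ) * nrm F ≤ nrm F' := by rw [hnrm]; linarith
      have hF' : 0 < nrm F' := by nlinarith
      have hcardR : (2 : ℝ) * Fintype.card W = Fintype.card V := by exact_mod_cast hcard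
      have hVpos : (0 : ℝ) < Fintype.card V := by
        have : 0 < Fintype.card V := Fintype.card_pos_iff.2 ⟨0⟩
        positivity
      have hR' : Rb F' (ρ / (1 + δ)) := by
        intro q' hq'
        obtain ⟨q, hq, hqq⟩ := hcor q' hq'
        rw [hqq]
        have h1 := hR q hq
        have h2 : nrm F ≤ nrm F' / (1 + δ) := by
          rw [le_div_iff₀ (by linarith)]; linarith
        calc cor F q ^ 2 ≤ ρ * nrm F := h1
          _ ≤ ρ * (nrm F' / (1 + δ)) := mul_le_mul_of_nonneg_left h2 hρ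
          _ = ρ / (1 + δ) * nrm F' := by ring
      have hsupF' : ∀ y, F' y ^ 2 * (Fintype.card W : ℝ) ≤ (2 * β) * nrm F' := by
        intro y
        have hB : ∀ x, |F x| ≤ Real.sqrt (β * nrm F / Fintype.card V) := by
          intro x
          apply Real.abs_le_sqrt
          rw [le_div_iff₀ hVpos]
          exact hsup x
        have h1 := hsup' _ hB y
        have h2 : F' y ^ 2 ≤ 4 * (β * nrm F / Fintype.card V) := by
          have h3 : 0 ≤ β * nrm F / Fintype.card V := by positivity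
          calc F' y ^ 2 = |F' y| ^ 2 := (sq_abs _).symm
            _ ≤ (2 * Real.sqrt (β * nrm F / Fintype.card V)) ^ 2 :=
                pow_le_pow_left₀ (abs_nonneg _) h1 2
            _ = 4 * (β * nrm F / Fintype.card V) := by
                rw [mul_pow, Real.sq_sqrt h3]; norm_num
        have h4 : (Fintype.card W : ℝ) = Fintype.card V / 2 := by linarith
        calc F' y ^ 2 * (Fintype.card W : ℝ)
            ≤ 4 * (β * nrm F / Fintype.card V) * (Fintype.card W : ℝ) := by gcongr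
          _ = 2 * β * nrm F := by rw [h4]; field_simp; ring
          _ ≤ 2 * β * nrm F' := by
              have : nrm F ≤ nrm F' := by nlinarith
              gcongr
      rcases ih W F' (2 * β) (ρ / (1 + δ)) hF' (by positivity) hsupF' hR' with h1 | h1
      · left
        rw [le_div_iff₀ (by linarith)] at h1
        rw [pow_succ]; exact h1
      · right
        obtain ⟨U, iU1, iU2, iU3, G, hG, hcU, hsupG, hRG, hpG⟩ := h1
        refine ⟨U, iU1, iU2, iU3, G, hG, ?_, ?_, ?_, hpG⟩
        · rw [← hcardR, pow_succ]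
          linarith
        · intro x
          have := hsupG x
          calc G x ^ 2 * (Fintype.card U : ℝ) ≤ 2 ^ k * (2 * β) * nrm G := this
            _ = (2 ^ (k + 1) * β) * nrm G := by rw [pow_succ]; ring
        · intro q hq
          have h2 := hRG q hq
          have h3 : ρ / (1 + δ) ≤ ρ := div_le_self hρ (by linarith)
          exact h2.trans (mul_le_mul_of_nonneg_right h3 hG.le)

/-- The key inequality. -/
theorem key_bound (s : ℕ) (hs : 1 ≤ s) (m : ℕ)
    (hm : 8 * s ^ 2 + 10 + (s * 2 ^ (4 * s ^ 2 + 3)) * (s + 2) ≤ m)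
    (V : Type) [AddCommGroup V] [Module (ZMod 2) V] [Fintype V] (hV : Fintype.card V = 2 ^ m)
    (F : V → ℝ) (hF : ∀ x, F x ^ 2 = 1) (ρ : ℝ) (hR : Rb F ρ) :
    (s.factorial : ℝ) / 2 ≤ ρ ^ (s - 1) := by
  set k := s * 2 ^ (4 * s ^ 2 + 3) with hk
  set δ : ℝ := ((2 : ℝ) ^ (4 * s ^ 2 + 3))⁻¹ with hδ
  have hpow : (0 : ℝ) < 2 ^ (4 * s ^ 2 + 3) := by positivity
  have hδ0 : 0 < δ := by rw [hδ]; positivity
  have hδ1 : δ ≤ 1 := by
    rw [hδ]; exact inv_le_one_of_one_le₀ (one_le_pow₀ (by norm_num))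
  have hkδ : (k : ℝ) * δ = s := by
    rw [hk, hδ]; push_cast; field_simp
  have hnrm : nrm F = (2 : ℝ) ^ m := by
    unfold nrm
    simp only [hF]
    rw [Finset.sum_const, Finset.card_univ, hV, nsmul_eq_mul, mul_one]
    push_cast; rfl
  have hFpos : 0 < nrm F := by rw [hnrm]; positivity
  have hsR : (1 : ℝ) ≤ s := by exact_mod_cast hs
  rcases iterate δ hδ0.le k V F 1 ρ hFpos zero_le_one (by
    intro x
    rw [hF x, hV, hnrm, one_mul, one_mul]; push_cast; rfl) hR with h1 | h1
  · -- large correlation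
    have h2 : 1 + (s : ℝ) ≤ ρ := by
      have := one_add_mul_le_pow (a := δ) (by linarith) k
      rw [hkδ] at this
      linarith
    have h3 : (s.factorial : ℝ) ≤ (s : ℝ) ^ (s - 1) := by
      have h4 : s.factorial ≤ s ^ (s - 1) := by
        obtain ⟨t, rfl⟩ : ∃ t, s = t + 1 := ⟨s - 1, by omega⟩
        rw [Nat.factorial_succ, Nat.add_sub_cancel]
        clear * -
        induction t with
        | zero => simp
        | succ t ih =>
          have h5 : (t + 1) ^ t ≤ (t + 2) ^ t := Nat.pow_le_pow_left (by omega) t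
          calc (t + 1 + 1) * (t + 1).factorial = (t + 2) * ((t + 1) * t.factorial) := by
                rw [Nat.factorial_succ]
            _ ≤ (t + 2) * (t + 1) ^ t := Nat.mul_le_mul_left _ ih
            _ ≤ (t + 2) * (t + 2) ^ t := Nat.mul_le_mul_left _ h5
            _ = (t + 1 + 1) ^ (t + 1) := by rw [pow_succ]; ring
      exact_mod_cast h4
    have h5 : (s : ℝ) ^ (s - 1) ≤ ρ ^ (s - 1) := pow_le_pow_left₀ (by linarith) (by linarith) _
    have h6 : (0 : ℝ) ≤ s.factorial := by positivity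
    linarith
  · obtain ⟨W, iW1, iW2, iW3, G, hG, hcard, hsup, hRG, hpG⟩ := h1
    rw [mul_one] at hsup
    have hWpos : (0 : ℝ) < Fintype.card W := by
      have : 0 < Fintype.card W := Fintype.card_pos_iff.2 ⟨0⟩
      positivity
    have hVR : (Fintype.card V : ℝ) = 2 ^ m := by rw [hV]; push_cast; rfl
    rw [hVR] at hcard
    have hρ := hR.nonneg hFpos
    set L : ℝ := 2 ^ k * nrm G / Fintype.card W with hL
    have hLsup : ∀ x, G x ^ 2 ≤ L := by
      intro x
      rw [hL, le_div_iff₀ hWpos]; exact hsup x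
    have hL0 : 0 ≤ L := by rw [hL]; positivity
    have hinvW : ((Fintype.card W : ℝ))⁻¹ ≤ 2 ^ k / 2 ^ m := by
      rw [inv_le_comm₀ hWpos (by positivity), inv_div]
      rw [div_le_iff₀ (by positivity)]
      linarith
    have hLn : L / nrm G = 2 ^ k * ((Fintype.card W : ℝ))⁻¹ := by
      rw [hL]; field_simp
    -- exponents
    have hm1 : 2 * k + (8 * s ^ 2 + 6) ≤ m := by
      have : 2 * k ≤ k * (s + 2) := by nlinarith
      omega
    have hm2 : k * s + k + (8 * s ^ 2 + 2) ≤ m := by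
      have : k * s + k ≤ k * (s + 2) := by nlinarith
      omega
    have hε2 : δ ^ 2 + L / nrm G ≤ (2 * δ) ^ 2 := by
      have h2 : L / nrm G ≤ δ ^ 2 := by
        rw [hLn]
        calc (2 : ℝ) ^ k * ((Fintype.card W : ℝ))⁻¹ ≤ 2 ^ k * (2 ^ k / 2 ^ m) := by gcongr
          _ = 2 ^ (2 * k) / 2 ^ m := by rw [two_mul, pow_add]; ring
          _ ≤ δ ^ 2 := by
              rw [hδ, inv_pow, ← pow_mul, div_le_iff₀ (by positivity), inv_mul_eq_div,
                le_div_iff₀ (by positivity), ← pow_add]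
              refine pow_le_pow_right₀ (by norm_num) ?_
              nlinarith
      nlinarith
    have hmb := moment_bound s hs G ρ δ L (2 * δ) hρ hRG hδ0.le hδ1 hpG hL0 hLsup (by positivity) hε2
    have hNε : (2 : ℝ) ^ (4 * s ^ 2) * (2 * δ * nrm G ^ s) = nrm G ^ s / 4 := by
      rw [hδ, pow_add]; field_simp; norm_num
    have herr : ((2 : ℝ) ^ (4 * s ^ 2)) ^ 2 * (L ^ s * (Fintype.card W : ℝ) ^ (s - 1))
        ≤ nrm G ^ s / 4 := by
      have h3 : L ^ s * (Fintype.card W : ℝ) ^ (s - 1)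
          = 2 ^ (k * s) * nrm G ^ s * ((Fintype.card W : ℝ))⁻¹ := by
        have h4 : (Fintype.card W : ℝ) ^ s = (Fintype.card W : ℝ) ^ (s - 1) * Fintype.card W := by
          rw [← pow_succ]; congr 1; omega
        rw [hL, div_pow, mul_pow, ← pow_mul, h4]
        field_simp
      rw [h3]
      calc ((2 : ℝ) ^ (4 * s ^ 2)) ^ 2 * (2 ^ (k * s) * nrm G ^ s * ((Fintype.card W : ℝ))⁻¹)
          ≤ ((2 : ℝ) ^ (4 * s ^ 2)) ^ 2 * (2 ^ (k * s) * nrm G ^ s * (2 ^ k / 2 ^ m)) := by gcongr
        _ = (2 ^ (8 * s ^ 2 + k * s + k) / 2 ^ m) * nrm G ^ s := by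
            rw [pow_add, pow_add, ← pow_mul]
            have : 4 * s ^ 2 * 2 = 8 * s ^ 2 := by ring
            rw [this]; ring
        _ ≤ (1 / 4) * nrm G ^ s := by
            refine mul_le_mul_of_nonneg_right ?_ (by positivity)
            rw [div_le_div_iff₀ (by positivity) (by norm_num), one_mul]
            have : (4 : ℝ) = 2 ^ 2 := by norm_num
            rw [this, ← pow_add]
            refine pow_le_pow_right₀ (by norm_num) ?_
            omega
        _ = nrm G ^ s / 4 := by ring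
    have hGs : 0 < nrm G ^ s := by positivity
    rw [hNε] at hmb
    have h7 : ((s.factorial : ℝ) - 1 / 2) * nrm G ^ s ≤ ρ ^ (s - 1) * nrm G ^ s := by linarith
    have h8 := le_of_mul_le_mul_right h7 hGs
    have h9 : (1 : ℝ) ≤ s.factorial := by exact_mod_cast Nat.succ_le_of_lt (Nat.factorial_pos s)
    linarith

end RMC
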