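import Pool.Agent.Helper71.RMC.Asm
import Pool.Agent.Helper44.RM.TEx
import Pool.Agent.Helper44.RM.Exch

set_option autoImplicit false
set_option linter.unusedSectionVars false

open scoped BigOperators
open Classical

namespace RMC71
open RMC RM44

/-- (D) -/
theorem moment_v (s : ℕ) (hs : 6 ≤ s) (m : ℕ) (hm : 8 * s ^ 2 + 2 ≤ m)
    (V : Type) [AddCommGroup V] [Module (ZMod 2) V] [Fintype V] (hV : Fintype.card V = 2 ^ m)
    (F : V → ℝ) (hF : ∀ x, F x ^ 2 = 1) (ρ : ℝ) (hR : Rb F ρ)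
    (hu : ∑ z : V × Module.Dual (ZMod 2) V, gg F z ^ 2 ≤ (1 / 2 : ℝ) ^ (80 * s + 12) * Fintype.card V) :
    (s : ℝ) / Real.exp 1 ≤ ρ := by
  have hcI : Fintype.card (Fin s ⊕ Fin s) = 2 * s := by
    rw [Fintype.card_sum, Fintype.card_fin]; ring
  have hVR : (Fintype.card V : ℝ) = 2 ^ m := by rw [hV]; push_cast; rfl
  refine moment_v_of s hs m hm V hV F hF ρ hR (fun C hC => ?_)
  have hC' := mem_sdc.1 hC
  rcases exists_near hC' s hcI with h | ⟨J, R, Y2, Y4, hex, h1, h2, hn⟩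
  · left
    exact T_nonneg_of_pairs hC' F h
  · right
    refine ⟨R.card, h1, h2, hn, ?_⟩
    have := T_ex hC' s hcI F hF ((1 / 2 : ℝ) ^ (80 * s + 12)) (by positivity) hu J R Y2 Y4 hex
    rwa [hVR] at this

/-- every correlation bound is at least `s/e` if `m ≥ 2^55 s^4` -/
theorem key (s : ℕ) (hs : 6 ≤ s) (m : ℕ) (hm : 2 ^ 55 * s ^ 4 ≤ m)
    (V : Type) [AddCommGroup V] [Module (ZMod 2) V] [Fintype V] (hV : Fintype.card V = 2 ^ m)
    (F : V → ℝ) (hF : ∀ x, F x ^ 2 = 1) (ρ : ℝ) (hR : Rb F ρ) : (s : ℝ) / Real.exp 1 ≤ ρ :=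
  key_of moment_v s hs m hm V hV F hF ρ hR

end RMC71
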