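import Pool.Agent.Helper71.RMC.Final

set_option autoImplicit false
set_option linter.unusedSectionVars false

open scoped BigOperators
open Classical

namespace RMC

variable {I : Type} [Fintype I]
variable {V : Type} [AddCommGroup V] [Module (ZMod 2) V] [Fintype V]

/-- The main lower bound for the contribution of one code, from bounds for power sums. -/
theorem T_ge' {C : Submodule (ZMod 2) (I → ZMod 2)} (hC : SD C) (F : V → ℝ) (s : ℕ)
    (hs : Fintype.card I = 2 * s) (ε : ℝ) (hε : 0 ≤ ε)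
    (hb : ∀ a, 4 ≤ a → (∑ h, ∑ ξ : Module.Dual (ZMod 2) V, pau F h ξ ^ a)
      ≤ (Fintype.card V : ℝ) * ε ^ 2 * nrm F ^ a) :
    -(ε * nrm F ^ s) ≤ T C F := by
  have hS0 : 0 ≤ nrm F := nrm_nonneg F
  have hneg : -(ε * nrm F ^ s) ≤ 0 := by
    have : 0 ≤ ε * nrm F ^ s := by positivity
    linarith
  by_cases hall : ∀ i, ∃ j, j ≠ i ∧ un i + un j ∈ C
  · exact hneg.trans (T_nonneg_of_pairs hC F hall)
  · push Not at hall
    obtain ⟨i, hi⟩ := hall
    obtain ⟨u, hu, hui, hmin⟩ := exists_circuit hC i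
    have heven := even_wt hC.so hu
    have hmem : i ∈ Finset.univ.filter (fun i => u i = 1) := by simp [hui]
    have hpos : 0 < wt u := Finset.card_pos.2 ⟨i, hmem⟩
    have hwt : 4 ≤ wt u := by
      by_contra hlt
      have h2 : wt u = 2 := by
        obtain ⟨k, hk⟩ := heven
        omega
      have h3 : ((Finset.univ.filter (fun i => u i = 1)).erase i).card = 1 := by
        rw [Finset.card_erase_of_mem hmem]
        unfold wt at h2
        omega
      obtain ⟨j, hj⟩ := Finset.card_eq_one.1 h3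
      have hji : j ≠ i := by
        have : j ∈ (Finset.univ.filter (fun i => u i = 1)).erase i := by rw [hj]; simp
        exact (Finset.mem_erase.1 this).1
      apply hi j hji
      have h4 : un i + un j = u := by
        funext k
        rw [Pi.add_apply]
        by_cases hki : k = i
        · rw [hki, un_self, un_ne hji.symm, add_zero, hui]
        · by_cases hkj : k = j
          · rw [hkj, un_self, un_ne hji, zero_add]
            have : j ∈ (Finset.univ.filter (fun i => u i = 1)).erase i := by rw [hj]; simp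
            exact ((Finset.mem_filter.1 (Finset.mem_of_mem_erase this)).2).symm
          · rw [un_ne hki, un_ne hkj, add_zero]
            refine ((zmod2_cases (u k)).resolve_right (fun h1 => hkj ?_)).symm
            have : k ∈ (Finset.univ.filter (fun i => u i = 1)).erase i := by
              rw [Finset.mem_erase]; exact ⟨hki, by simp [h1]⟩
            rw [hj] at this
            exact Finset.mem_singleton.1 this
      rw [h4]; exact hu
    obtain ⟨e, he, hT⟩ := T_sq_le hC F hu hui hmin (wt u) rfl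
    have hcard : (0 : ℝ) < Fintype.card V := by
      have : 0 < Fintype.card V := Fintype.card_pos_iff.2 ⟨0⟩
      positivity
    have h5 : (Fintype.card V : ℝ) * T C F ^ 2
        ≤ (Fintype.card V : ℝ) * (ε * nrm F ^ s) ^ 2 := by
      calc (Fintype.card V : ℝ) * T C F ^ 2
          ≤ (∑ h, ∑ ξ : Module.Dual (ZMod 2) V, pau F h ξ ^ wt u) * nrm F ^ e := hT
        _ ≤ ((Fintype.card V : ℝ) * ε ^ 2 * nrm F ^ wt u) * nrm F ^ e :=
            mul_le_mul_of_nonneg_right (hb (wt u) hwt) (by positivity)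
        _ = (Fintype.card V : ℝ) * (ε ^ 2 * nrm F ^ (2 * s)) := by
            rw [← hs, ← he, pow_add]; ring
        _ = (Fintype.card V : ℝ) * (ε * nrm F ^ s) ^ 2 := by rw [mul_pow, ← pow_mul, mul_comm s 2]
    have h6 := le_of_mul_le_mul_left h5 hcard
    have h7 := abs_le_of_sq_le_sq h6 (by positivity)
    exact (abs_le.1 h7).1

/-- The conclusion of the moment argument, from bounds for power sums. -/
theorem moment_bound' (s : ℕ) (hs0 : 1 ≤ s) (F : V → ℝ) (ρ L ε : ℝ) (hρ : 0 ≤ ρ)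
    (hR : Rb F ρ) (hL0 : 0 ≤ L) (hL : ∀ x, F x ^ 2 ≤ L) (hε : 0 ≤ ε)
    (hb : ∀ a, 4 ≤ a → (∑ h, ∑ ξ : Module.Dual (ZMod 2) V, pau F h ξ ^ a)
      ≤ (Fintype.card V : ℝ) * ε ^ 2 * nrm F ^ a) :
    (s.factorial : ℝ) * nrm F ^ s ≤ ρ ^ (s - 1) * nrm F ^ s
      + (2 : ℝ) ^ (4 * s ^ 2) * (ε * nrm F ^ s)
      + ((2 : ℝ) ^ (4 * s ^ 2)) ^ 2 * (L ^ s * (Fintype.card V : ℝ) ^ (s - 1)) := by
  have hcI : Fintype.card (Fin s ⊕ Fin s) = 2 * s := by
    rw [Fintype.card_sum, Fintype.card_fin]; ring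
  have hS0 : 0 ≤ nrm F := nrm_nonneg F
  have h1 := sol_sum_le (I := Fin s ⊕ Fin s) F ρ hρ hR s hs0 hcI
  have h2 := sum_T_le (I := Fin s ⊕ Fin s) F L hL0 hL s hs0 hcI
  have hN : ((sdc (Fin s ⊕ Fin s)).card : ℝ) ≤ (2 : ℝ) ^ (4 * s ^ 2) := by
    have h3 := card_sdc_le (Fin s ⊕ Fin s)
    rw [hcI, ← pow_mul] at h3
    have h4 : 2 * s * (2 * s) = 4 * s ^ 2 := by ring
    rw [h4] at h3
    exact_mod_cast h3
  -- the permutation codes
  let P : Finset (Submodule (ZMod 2) (Fin s ⊕ Fin s → ZMod 2)) := Finset.univ.image (pc (s := s))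
  have hPsub : P ⊆ sdc (Fin s ⊕ Fin s) := by
    intro C hC
    obtain ⟨σ, -, rfl⟩ := Finset.mem_image.1 hC
    exact mem_sdc.2 (pc_SD σ)
  have hPcard : P.card = s.factorial := by
    rw [Finset.card_image_of_injective _ pc_inj, Finset.card_univ, Fintype.card_perm,
      Fintype.card_fin]
  have hPsum : ∑ C ∈ P, T C F = (s.factorial : ℝ) * nrm F ^ s := by
    have : ∀ C ∈ P, T C F = nrm F ^ s := by
      intro C hC
      obtain ⟨σ, -, rfl⟩ := Finset.mem_image.1 hC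
      exact T_pc σ F
    rw [Finset.sum_congr rfl this, Finset.sum_const, hPcard, nsmul_eq_mul]
  have hrest : -((2 : ℝ) ^ (4 * s ^ 2) * (ε * nrm F ^ s))
      ≤ ∑ C ∈ sdc (Fin s ⊕ Fin s) \ P, T C F := by
    calc -((2 : ℝ) ^ (4 * s ^ 2) * (ε * nrm F ^ s))
        ≤ -(((sdc (Fin s ⊕ Fin s) \ P).card : ℝ) * (ε * nrm F ^ s)) := by
          apply neg_le_neg
          refine mul_le_mul_of_nonneg_right ?_ (by positivity)
          refine le_trans ?_ hN
          exact_mod_cast Finset.card_le_card Finset.sdiff_subset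
      _ = ∑ _C ∈ sdc (Fin s ⊕ Fin s) \ P, -(ε * nrm F ^ s) := by
          rw [Finset.sum_const, nsmul_eq_mul]; ring
      _ ≤ _ := Finset.sum_le_sum (fun C hC => T_ge' (mem_sdc.1 (Finset.mem_sdiff.1 hC).1) F s hcI
          ε hε hb)
  have hsplit := Finset.sum_sdiff (f := fun C => T C F) hPsub
  have h5 : ((sdc (Fin s ⊕ Fin s)).card : ℝ) ^ 2 * (L ^ s * (Fintype.card V : ℝ) ^ (s - 1))
      ≤ ((2 : ℝ) ^ (4 * s ^ 2)) ^ 2 * (L ^ s * (Fintype.card V : ℝ) ^ (s - 1)) := by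
    refine mul_le_mul_of_nonneg_right ?_ (by positivity)
    exact pow_le_pow_left₀ (by positivity) hN 2
  linarith

lemma nrm_sign (m : ℕ) (hV : Fintype.card V = 2 ^ m) (F : V → ℝ) (hF : ∀ x, F x ^ 2 = 1) :
    nrm F = (2 : ℝ) ^ m := by
  unfold nrm
  simp only [hF]
  rw [Finset.sum_const, Finset.card_univ, hV, nsmul_eq_mul, mul_one]
  push_cast; rfl

lemma abs_sign {F : V → ℝ} (hF : ∀ x, F x ^ 2 = 1) (x : V) : |F x| = 1 := by
  have h := hF x
  have h2 : |F x| ^ 2 = 1 := by rw [sq_abs]; exact h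
  nlinarith [abs_nonneg (F x), sq_nonneg (|F x| - 1)]

lemma abs_chi (a : ZMod 2) : |chi a| = 1 := by
  rcases zmod2_cases a with rfl | rfl
  · rw [chi_zero]; exact abs_one
  · rw [chi_one, abs_neg]; exact abs_one

lemma pau_abs_le {F : V → ℝ} (hF : ∀ x, F x ^ 2 = 1) (h : V) (ξ : Module.Dual (ZMod 2) V) :
    |pau F h ξ| ≤ Fintype.card V := by
  unfold pau
  refine (Finset.abs_sum_le_sum_abs _ _).trans (le_of_eq ?_)
  have : ∀ x, |F x * F (x + h) * chi (ξ x)| = 1 := by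
    intro x
    rw [abs_mul, abs_mul, abs_sign hF, abs_sign hF, abs_chi]; norm_num
  simp only [this]
  rw [Finset.sum_const, Finset.card_univ, nsmul_eq_mul, mul_one]

/-- The moment argument with a bound on the eighth power of the `U³` norm. -/
theorem moment_u (s : ℕ) (hs : 6 ≤ s) (m : ℕ) (hm : 8 * s ^ 2 + 2 ≤ m)
    (V : Type) [AddCommGroup V] [Module (ZMod 2) V] [Fintype V] (hV : Fintype.card V = 2 ^ m)
    (F : V → ℝ) (hF : ∀ x, F x ^ 2 = 1) (ρ : ℝ) (hR : Rb F ρ)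
    (hu : (2 : ℝ) ^ (8 * s ^ 2 + 4) * ∑ h, ∑ ξ : Module.Dual (ZMod 2) V, pau F h ξ ^ 4
      ≤ ((2 : ℝ) ^ m) ^ 5) :
    (s : ℝ) / Real.exp 1 ≤ ρ := by
  have hnrm := nrm_sign m hV F hF
  have hVR : (Fintype.card V : ℝ) = 2 ^ m := by rw [hV]; push_cast; rfl
  have hNpos : (0 : ℝ) < 2 ^ m := by positivity
  have hFpos : 0 < nrm F := by rw [hnrm]; positivity
  have hρ := hR.nonneg hFpos
  set ε : ℝ := ((2 : ℝ) ^ (4 * s ^ 2 + 2))⁻¹ with hε
  have hε0 : 0 ≤ ε := by rw [hε]; positivity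
  have hε2 : ε ^ 2 = ((2 : ℝ) ^ (8 * s ^ 2 + 4))⁻¹ := by
    rw [hε, inv_pow, ← pow_mul]
    congr 2; ring
  have hU : (∑ h, ∑ ξ : Module.Dual (ZMod 2) V, pau F h ξ ^ 4) ≤ ε ^ 2 * ((2 : ℝ) ^ m) ^ 5 := by
    rw [hε2, inv_mul_eq_div, le_div_iff₀ (by positivity), mul_comm]
    exact hu
  have hb : ∀ a, 4 ≤ a → (∑ h, ∑ ξ : Module.Dual (ZMod 2) V, pau F h ξ ^ a)
      ≤ (Fintype.card V : ℝ) * ε ^ 2 * nrm F ^ a := by
    intro a ha
    have h1 : (∑ h, ∑ ξ : Module.Dual (ZMod 2) V, pau F h ξ ^ a)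
        ≤ ((2 : ℝ) ^ m) ^ (a - 4) * ∑ h, ∑ ξ : Module.Dual (ZMod 2) V, pau F h ξ ^ 4 := by
      rw [Finset.mul_sum]
      refine Finset.sum_le_sum (fun h _ => ?_)
      rw [Finset.mul_sum]
      refine Finset.sum_le_sum (fun ξ _ => ?_)
      have h2 := pau_abs_le hF h ξ
      rw [hVR] at h2
      have h3 : pau F h ξ ^ a = pau F h ξ ^ (a - 4) * pau F h ξ ^ 4 := by
        rw [← pow_add]; congr 1; omega
      rw [h3]
      refine mul_le_mul_of_nonneg_right ?_ (by positivity)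
      calc pau F h ξ ^ (a - 4) ≤ |pau F h ξ ^ (a - 4)| := le_abs_self _
        _ = |pau F h ξ| ^ (a - 4) := abs_pow _ _
        _ ≤ _ := pow_le_pow_left₀ (abs_nonneg _) h2 _
    calc _ ≤ _ := h1
      _ ≤ ((2 : ℝ) ^ m) ^ (a - 4) * (ε ^ 2 * ((2 : ℝ) ^ m) ^ 5) := by gcongr
      _ = (Fintype.card V : ℝ) * ε ^ 2 * nrm F ^ a := by
          rw [hVR, hnrm]
          have h3 : ((2 : ℝ) ^ m) ^ a = ((2 : ℝ) ^ m) ^ (a - 4) * ((2 : ℝ) ^ m) ^ 4 := by
            rw [← pow_add]; congr 1; omega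
          rw [h3]; ring
  have hmb := moment_bound' s (by omega) F ρ 1 ε hρ hR zero_le_one (fun x => (hF x).le) hε0 hb
  rw [one_pow, one_mul] at hmb
  have h1 : (2 : ℝ) ^ (4 * s ^ 2) * (ε * nrm F ^ s) = nrm F ^ s / 4 := by
    rw [hε, pow_add]; field_simp; norm_num
  have h2 : ((2 : ℝ) ^ (4 * s ^ 2)) ^ 2 * (Fintype.card V : ℝ) ^ (s - 1) ≤ nrm F ^ s / 4 := by
    rw [hVR, hnrm]
    have h3 : ((2 : ℝ) ^ m) ^ s = ((2 : ℝ) ^ m) ^ (s - 1) * (2 : ℝ) ^ m := by
      rw [← pow_succ]; congr 1; omega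
    rw [h3, ← pow_mul, show 4 * s ^ 2 * 2 = 8 * s ^ 2 by ring]
    have h4 : (2 : ℝ) ^ (8 * s ^ 2) * 4 ≤ 2 ^ m := by
      have : (4 : ℝ) = 2 ^ 2 := by norm_num
      rw [this, ← pow_add]
      exact pow_le_pow_right₀ (by norm_num) hm
    have h5 : (0 : ℝ) ≤ ((2 : ℝ) ^ m) ^ (s - 1) := by positivity
    nlinarith
  rw [h1] at hmb
  have hGs : 0 < nrm F ^ s := by positivity
  have h7 : ((s.factorial : ℝ) - 1 / 2) * nrm F ^ s ≤ ρ ^ (s - 1) * nrm F ^ s := by linarith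
  have h8 := le_of_mul_le_mul_right h7 hGs
  have h9 : (1 : ℝ) ≤ s.factorial := by exact_mod_cast Nat.succ_le_of_lt (Nat.factorial_pos s)
  have h10 : (s.factorial : ℝ) / 2 ≤ ρ ^ (s - 1) := by linarith
  have h11 := (fact_bound s hs).trans h10
  by_contra hlt
  push Not at hlt
  exact absurd h11 (not_le.2 (pow_lt_pow_left₀ hlt hρ (by omega)))

end RMC
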