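import Pool.Agent.Helper71.RMC.Near

set_option autoImplicit false
set_option linter.unusedSectionVars false

open scoped BigOperators
open Classical

namespace RMC71
open RMC RM44

lemma geom8 (s : ℕ) : ∑ t ∈ Finset.Icc 1 s, (1 / 8 : ℝ) ^ t = (1 - (1 / 8) ^ s) / 7 := by
  induction s with
  | zero => simp
  | succ n ih =>
    rw [Finset.sum_Icc_succ_top (by omega), ih, pow_succ]
    ring

/-- The moment argument with a decomposition of the codes according to the distance from the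
pairing codes. -/
theorem moment_v_of (s : ℕ) (hs : 6 ≤ s) (m : ℕ) (hm : 8 * s ^ 2 + 2 ≤ m)
    (V : Type) [AddCommGroup V] [Module (ZMod 2) V] [Fintype V] (hV : Fintype.card V = 2 ^ m)
    (F : V → ℝ) (hF : ∀ x, F x ^ 2 = 1) (ρ : ℝ) (hR : Rb F ρ)
    (hT : ∀ C ∈ sdc (Fin s ⊕ Fin s), 0 ≤ T C F ∨ ∃ t, 1 ≤ t ∧ t ≤ s ∧ Near C t ∧
      T C F ^ 4 ≤ (((2 : ℝ) ^ m) ^ s) ^ 4 * ((1 / 2 : ℝ) ^ (80 * s + 12)) ^ t) :
    (s : ℝ) / Real.exp 1 ≤ ρ := by
  have hnrm := nrm_sign m hV F hF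
  have hVR : (Fintype.card V : ℝ) = 2 ^ m := by rw [hV]; push_cast; rfl
  have hNpos : (0 : ℝ) < 2 ^ m := by positivity
  have hFpos : 0 < nrm F := by rw [hnrm]; positivity
  have hρ := hR.nonneg hFpos
  have hcI : Fintype.card (Fin s ⊕ Fin s) = 2 * s := by
    rw [Fintype.card_sum, Fintype.card_fin]; ring
  set NS : ℝ := ((2 : ℝ) ^ m) ^ s with hNS
  have hNS0 : 0 < NS := by rw [hNS]; positivity
  set B : ℕ → ℝ := fun t => NS * (1 / 2 : ℝ) ^ ((20 * s + 3) * t) with hB
  have hB0 : ∀ t, 0 ≤ B t := fun t => by rw [hB]; positivity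
  have h1 := sol_sum_le (I := Fin s ⊕ Fin s) F ρ hρ hR s (by omega) hcI
  have h2 := sum_T_le (I := Fin s ⊕ Fin s) F 1 zero_le_one (fun x => (hF x).le) s (by omega) hcI
  rw [one_pow, one_mul] at h2
  have hN : ((sdc (Fin s ⊕ Fin s)).card : ℝ) ≤ (2 : ℝ) ^ (4 * s ^ 2) := by
    have h3 := card_sdc_le (Fin s ⊕ Fin s)
    rw [hcI, ← pow_mul] at h3
    have h4 : 2 * s * (2 * s) = 4 * s ^ 2 := by ring
    rw [h4] at h3
    exact_mod_cast h3
  -- the permutation codes
  let P : Finset (Submodule (ZMod 2) (Fin s ⊕ Fin s → ZMod 2)) := Finset.univ.image (pc (s := s))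
  have hPsub : P ⊆ sdc (Fin s ⊕ Fin s) := by
    intro C hC
    obtain ⟨σ, -, rfl⟩ := Finset.mem_image.1 hC
    exact mem_sdc.2 (pc_SD σ)
  have hPcard : P.card = s.factorial := by
    rw [Finset.card_image_of_injective _ pc_inj, Finset.card_univ, Fintype.card_perm,
      Fintype.card_fin]
  have hPsum : ∑ C ∈ P, T C F = (s.factorial : ℝ) * NS := by
    have : ∀ C ∈ P, T C F = NS := by
      intro C hC
      obtain ⟨σ, -, rfl⟩ := Finset.mem_image.1 hC
      rw [T_pc σ F, hnrm]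
    rw [Finset.sum_congr rfl this, Finset.sum_const, hPcard, nsmul_eq_mul]
  -- one code
  have hone : ∀ C ∈ sdc (Fin s ⊕ Fin s),
      -(∑ t ∈ Finset.Icc 1 s, if Near C t then B t else 0) ≤ T C F := by
    intro C hC
    have hnn : 0 ≤ ∑ t ∈ Finset.Icc 1 s, (if Near C t then B t else 0) :=
      Finset.sum_nonneg (fun t _ => by split_ifs; exact hB0 t; exact le_refl _)
    rcases hT C hC with h | ⟨t, ht1, hts, hnear, h⟩
    · linarith
    · have h3 : T C F ^ 4 ≤ (B t) ^ 4 := by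
        refine h.trans (le_of_eq ?_)
        have e1 : ((1 / 2 : ℝ) ^ (80 * s + 12)) ^ t = ((1 / 2 : ℝ) ^ ((20 * s + 3) * t)) ^ 4 := by
          rw [← pow_mul, ← pow_mul]
          congr 1
          ring
        rw [e1, ← mul_pow]
      have h4 : |T C F| ≤ B t := by
        have h5 : |T C F| ^ 4 ≤ (B t) ^ 4 := by
          rw [← abs_pow, abs_of_nonneg (by positivity)]
          exact h3
        exact le_of_pow_le_pow_left₀ (by norm_num) (hB0 t) h5
      have h6 : B t ≤ ∑ t ∈ Finset.Icc 1 s, (if Near C t then B t else 0) := by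
        have h7 : (if Near C t then B t else 0) = B t := if_pos hnear
        rw [← h7]
        exact Finset.single_le_sum (f := fun t => if Near C t then B t else 0)
          (fun t _ => by split_ifs; exact hB0 t; exact le_refl _)
          (Finset.mem_Icc.2 ⟨ht1, hts⟩)
      have h8 := (abs_le.1 h4).1
      linarith
  have hrest : -((s.factorial : ℝ) * NS / 7) ≤ ∑ C ∈ sdc (Fin s ⊕ Fin s) \ P, T C F := by
    have h3 : ∑ C ∈ sdc (Fin s ⊕ Fin s) \ P, ∑ t ∈ Finset.Icc 1 s, (if Near C t then B t else 0)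
        ≤ (s.factorial : ℝ) * NS / 7 := by
      calc _ ≤ ∑ C ∈ sdc (Fin s ⊕ Fin s), ∑ t ∈ Finset.Icc 1 s, (if Near C t then B t else 0) :=
            Finset.sum_le_sum_of_subset_of_nonneg Finset.sdiff_subset (fun C _ _ =>
              Finset.sum_nonneg (fun t _ => by split_ifs; exact hB0 t; exact le_refl _))
        _ = ∑ t ∈ Finset.Icc 1 s,
              (((sdc (Fin s ⊕ Fin s)).filter (fun C => Near C t)).card : ℝ) * B t := by
            rw [Finset.sum_comm]
            refine Finset.sum_congr rfl (fun t _ => ?_)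
            rw [← Finset.sum_filter, Finset.sum_const, nsmul_eq_mul]
        _ ≤ ∑ t ∈ Finset.Icc 1 s, ((s.factorial * 2 ^ (20 * t * s) : ℕ) : ℝ) * B t := by
            refine Finset.sum_le_sum (fun t ht => ?_)
            refine mul_le_mul_of_nonneg_right ?_ (hB0 t)
            exact_mod_cast card_near s hs t (Finset.mem_Icc.1 ht).1
        _ = ∑ t ∈ Finset.Icc 1 s, ((s.factorial : ℝ) * NS) * (1 / 8) ^ t := by
            refine Finset.sum_congr rfl (fun t _ => ?_)
            rw [hB]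
            simp only
            push_cast
            have h4 : (2 : ℝ) ^ (20 * t * s) * (1 / 2) ^ ((20 * s + 3) * t) = (1 / 8) ^ t := by
              rw [show (20 * s + 3) * t = 20 * t * s + 3 * t by ring, pow_add (1 / 2 : ℝ),
                ← mul_assoc, ← mul_pow]
              norm_num [pow_mul]
            rw [← h4]; ring
        _ = (s.factorial : ℝ) * NS * ((1 - (1 / 8) ^ s) / 7) := by
            rw [← Finset.mul_sum, geom8]
        _ ≤ (s.factorial : ℝ) * NS * (1 / 7) := by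
            refine mul_le_mul_of_nonneg_left ?_ (by positivity)
            have : (0 : ℝ) ≤ (1 / 8) ^ s := by positivity
            linarith
        _ = _ := by ring
    calc -((s.factorial : ℝ) * NS / 7)
        ≤ -(∑ C ∈ sdc (Fin s ⊕ Fin s) \ P, ∑ t ∈ Finset.Icc 1 s,
            (if Near C t then B t else 0)) := neg_le_neg h3
      _ = ∑ C ∈ sdc (Fin s ⊕ Fin s) \ P,
            -(∑ t ∈ Finset.Icc 1 s, (if Near C t then B t else 0)) := by
          rw [Finset.sum_neg_distrib]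
      _ ≤ _ := Finset.sum_le_sum (fun C hC => hone C (Finset.mem_sdiff.1 hC).1)
  have hsplit := Finset.sum_sdiff (f := fun C => T C F) hPsub
  have h5 : ((sdc (Fin s ⊕ Fin s)).card : ℝ) ^ 2 * (Fintype.card V : ℝ) ^ (s - 1) ≤ NS / 4 := by
    have h6 : ((sdc (Fin s ⊕ Fin s)).card : ℝ) ^ 2 ≤ (2 : ℝ) ^ (8 * s ^ 2) := by
      calc _ ≤ ((2 : ℝ) ^ (4 * s ^ 2)) ^ 2 := pow_le_pow_left₀ (by positivity) hN 2
        _ = _ := by rw [← pow_mul]; congr 1; ring
    have h7 : NS = ((2 : ℝ) ^ m) ^ (s - 1) * (2 : ℝ) ^ m := by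
      rw [hNS, ← pow_succ]; congr 1; omega
    have h4 : (2 : ℝ) ^ (8 * s ^ 2) * 4 ≤ 2 ^ m := by
      have : (4 : ℝ) = 2 ^ 2 := by norm_num
      rw [this, ← pow_add]
      exact pow_le_pow_right₀ (by norm_num) hm
    have h8 : (0 : ℝ) ≤ ((2 : ℝ) ^ m) ^ (s - 1) := by positivity
    rw [hVR, h7]
    calc _ ≤ (2 : ℝ) ^ (8 * s ^ 2) * ((2 : ℝ) ^ m) ^ (s - 1) :=
          mul_le_mul_of_nonneg_right h6 h8
      _ ≤ (2 ^ m / 4) * ((2 : ℝ) ^ m) ^ (s - 1) :=
          mul_le_mul_of_nonneg_right (by linarith) h8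
      _ = _ := by ring
  rw [hnrm, ← hNS] at h1
  have h7 : ((6 / 7 : ℝ) * s.factorial - 1 / 4) * NS ≤ ρ ^ (s - 1) * NS := by linarith
  have h8 := le_of_mul_le_mul_right h7 hNS0
  have h9 : (1 : ℝ) ≤ s.factorial := by exact_mod_cast Nat.succ_le_of_lt (Nat.factorial_pos s)
  have h10 : (s.factorial : ℝ) / 2 ≤ ρ ^ (s - 1) := by linarith
  have h11 := (fact_bound s hs).trans h10
  by_contra hlt
  push Not at hlt
  exact absurd h11 (not_le.2 (pow_lt_pow_left₀ hlt hρ (by omega)))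

end RMC71
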