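import Pool.Agent.Helper44.RM.ExDef

set_option autoImplicit false
set_option linter.unusedSectionVars false

open scoped BigOperators
open Classical

namespace RMC71
open RMC RM44

section enum
variable {α : Type} [Fintype α]

lemma exists_idx (n : ℕ) (S : Finset α) (h : S.card ≤ n + 1) :
    ∃ f : α → Fin (n + 1), Set.InjOn f S := by
  have h1 : Fintype.card S ≤ Fintype.card (Fin (n + 1)) := by
    rw [Fintype.card_coe, Fintype.card_fin]; exact h
  obtain ⟨g⟩ := Function.Embedding.nonempty_of_card_le h1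
  refine ⟨fun x => if hx : x ∈ S then g ⟨x, hx⟩ else 0, ?_⟩
  intro x hx y hy hxy
  have hx' : x ∈ S := hx
  have hy' : y ∈ S := hy
  simp only [dif_pos hx', dif_pos hy'] at hxy
  have := g.injective hxy
  exact congrArg Subtype.val this

/-- an injection of small sets into `Fin (n+1)` -/
noncomputable def idx (n : ℕ) (S : Finset α) : α → Fin (n + 1) :=
  if h : S.card ≤ n + 1 then (exists_idx n S h).choose else fun _ => 0

lemma idx_inj {n : ℕ} {S : Finset α} (h : S.card ≤ n + 1) : Set.InjOn (idx n S) S := by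
  unfold idx
  rw [dif_pos h]
  exact (exists_idx n S h).choose_spec

/-- a function on `Fin (n+1)` with prescribed values at the indices of `S` -/
lemma exists_lift {β : Type} {n : ℕ} {S : Finset α} (h : S.card ≤ n + 1) (b : β) (v : α → β) :
    ∃ F : Fin (n + 1) → β, ∀ x ∈ S, F (idx n S x) = v x := by
  refine ⟨fun a => if h : ∃ x ∈ S, idx n S x = a then v h.choose else b, fun x hx => ?_⟩
  have hex : ∃ x' ∈ S, idx n S x' = idx n S x := ⟨x, hx, rfl⟩
  simp only [dif_pos hex]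
  congr 1
  exact idx_inj h hex.choose_spec.1 hx hex.choose_spec.2

end enum

variable {s : ℕ}

lemma exists_enum (J : Finset (Fin s ⊕ Fin s)) (h : J.card = s) :
    ∃ f : Fin s → Fin s ⊕ Fin s, Function.Injective f ∧ ∀ i, i ∈ J ↔ ∃ k, f k = i := by
  refine ⟨fun k => ((J.equivFinOfCardEq h).symm k : Fin s ⊕ Fin s), ?_, ?_⟩
  · intro a b hab
    exact (J.equivFinOfCardEq h).symm.injective (Subtype.ext hab)
  · intro i
    constructor
    · intro hi
      refine ⟨J.equivFinOfCardEq h ⟨i, hi⟩, ?_⟩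
      show (((J.equivFinOfCardEq h).symm (J.equivFinOfCardEq h ⟨i, hi⟩) : J) : Fin s ⊕ Fin s) = i
      rw [Equiv.symm_apply_apply]
    · rintro ⟨k, rfl⟩
      exact ((J.equivFinOfCardEq h).symm k).2

/-- enumeration of the sets with `s` elements -/
noncomputable def enum (J : Finset (Fin s ⊕ Fin s)) : Fin s → Fin s ⊕ Fin s :=
  if h : J.card = s then (exists_enum J h).choose else Sum.inl

lemma enum_inj {J : Finset (Fin s ⊕ Fin s)} (h : J.card = s) : Function.Injective (enum J) := by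
  unfold enum
  rw [dif_pos h]
  exact (exists_enum J h).choose_spec.1

lemma enum_mem {J : Finset (Fin s ⊕ Fin s)} (h : J.card = s) (i : Fin s ⊕ Fin s) :
    i ∈ J ↔ ∃ k, enum J k = i := by
  unfold enum
  rw [dif_pos h]
  exact (exists_enum J h).choose_spec.2 i

/-- a partial injection extends to a permutation -/
lemma exists_perm (S : Finset (Fin s)) (f : Fin s → Fin s) (hf : Set.InjOn f S) :
    ∃ π : Equiv.Perm (Fin s), ∀ k ∈ S, π k = f k := by
  have e : {x // x ∈ S} ≃ {x // x ∈ S.image f} := by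
    refine Equiv.ofBijective (fun x => ⟨f x, Finset.mem_image_of_mem f x.2⟩) ⟨?_, ?_⟩
    · intro a b hab
      exact Subtype.ext (hf a.2 b.2 (congrArg Subtype.val hab))
    · rintro ⟨y, hy⟩
      obtain ⟨x, hx, rfl⟩ := Finset.mem_image.1 hy
      exact ⟨⟨x, hx⟩, rfl⟩
  obtain ⟨g, hg⟩ : ∃ g : {x // x ∈ S} ≃ {x // x ∈ S.image f}, ∀ x, (g x : Fin s) = f x := by
    refine ⟨Equiv.ofBijective (fun x => ⟨f x, Finset.mem_image_of_mem f x.2⟩) ⟨?_, ?_⟩, fun x => rfl⟩
    · intro a b hab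
      exact Subtype.ext (hf a.2 b.2 (congrArg Subtype.val hab))
    · rintro ⟨y, hy⟩
      obtain ⟨x, hx, rfl⟩ := Finset.mem_image.1 hy
      exact ⟨⟨x, hx⟩, rfl⟩
  refine ⟨g.extendSubtype, fun k hk => ?_⟩
  rw [Equiv.extendSubtype_apply_of_mem g k hk, hg]

/-- the parameters -/
abbrev Par (s t : ℕ) : Type :=
  Finset (Fin s ⊕ Fin s) × Finset (Fin s ⊕ Fin s) × Finset (Fin s ⊕ Fin s) × Equiv.Perm (Fin s) ×
    (Fin s → Fin (3 * t + 1) → ZMod 2) × (Fin (4 * t + 1) → (Fin s ⊕ Fin s) → ZMod 2)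

/-- the generators of the first kind -/
noncomputable def kap {s t : ℕ} (J W : Finset (Fin s ⊕ Fin s)) (π : Equiv.Perm (Fin s))
    (a : Fin s → Fin (3 * t + 1) → ZMod 2) (k : Fin s) : (Fin s ⊕ Fin s) → ZMod 2 := fun i =>
  if i ∈ W then a k (idx (3 * t) W i) else if i = enum J k ∨ i = enum Jᶜ (π k) then 1 else 0

/-- the code with given parameters -/
noncomputable def dec {s t : ℕ} (p : Par s t) : Submodule (ZMod 2) ((Fin s ⊕ Fin s) → ZMod 2) :=
  Submodule.span (ZMod 2)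
    ({c | ∃ k, enum p.1 k ∉ p.2.2.1 ∧ c = kap p.1 p.2.1 p.2.2.2.1 p.2.2.2.2.1 k} ∪
      {c | ∃ z ∈ p.2.2.1, c = p.2.2.2.2.2 (idx (4 * t) p.2.2.1 z)})

lemma card_par (s t : ℕ) : Fintype.card (Par s t) = s.factorial * 2 ^ (9 * s + 11 * t * s) := by
  simp only [Par, Fintype.card_prod, Fintype.card_finset, Fintype.card_sum, Fintype.card_fin,
    Fintype.card_perm, Fintype.card_fun, ZMod.card]
  simp only [← pow_mul]
  have h : 9 * s + 11 * t * s
      = (s + s) + (s + s) + (s + s) + ((3 * t + 1) * s + (s + s) * (4 * t + 1)) := by ring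
  rw [h, pow_add, pow_add, pow_add, pow_add]
  ring

lemma card_J {I : Type} [Fintype I] {C : Submodule (ZMod 2) (I → ZMod 2)} (hC : SD C)
    {J : Finset I} (hJ : Free J C) (hJc : Free Jᶜ C) (hs : Fintype.card I = 2 * s) :
    J.card = s := by
  have h1 := card_CV (V := ZMod 2) hC s hs
  have h2 := Fintype.card_of_bijective (CV_bij (V := ZMod 2) hC hJ hJc)
  rw [h1, Fintype.card_fun, Fintype.card_coe, ZMod.card] at h2
  exact (Nat.pow_right_injective (le_refl 2) h2).symm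

lemma near_unb {I : Type} [Fintype I] {C : Submodule (ZMod 2) (I → ZMod 2)} (hC : SD C)
    (hs : Fintype.card I = 2 * s) {t : ℕ} (h : Near C t) :
    ∃ (J W Z : Finset I) (y : I → I), Free J C ∧ (∀ c ∈ C, (∀ i ∈ J, c i = 0) → c = 0) ∧
      J.card = s ∧ W.card ≤ 3 * t ∧ Z.card ≤ 4 * t ∧ Z ⊆ J ∧ (∀ i, i ∈ W → i ∈ J → i ∈ Z) ∧
      (∀ x x', (x ∈ J ∧ x ∉ Z) → (x' ∈ J ∧ x' ∉ Z) → y x = y x' → x = x') ∧
      (∀ x, (x ∈ J ∧ x ∉ Z) → y x ∉ J) ∧
      (∀ x, (x ∈ J ∧ x ∉ Z) → ∃ c ∈ C, c x = 1 ∧ c (y x) = 1 ∧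
        ∀ i, i ∉ W → i ≠ x → i ≠ y x → c i = 0) := by
  obtain ⟨J, W, Z, y, hJ, hJc, hW, hZ, hZJ, hWJ, hyinj, hyJ, hcw⟩ := h
  refine ⟨J, W, Z, y, hJ, fun c hc h1 => hJc c hc (fun i hi => h1 i (by simpa using hi)),
    card_J hC hJ hJc hs, hW, hZ, hZJ, fun i h1 h2 => hWJ (Finset.mem_inter.2 ⟨h1, h2⟩),
    fun x x' h1 h2 h3 => hyinj (Finset.mem_coe.2 (Finset.mem_sdiff.2 h1))
      (Finset.mem_coe.2 (Finset.mem_sdiff.2 h2)) h3,
    fun x h1 => hyJ x (Finset.mem_sdiff.2 h1), fun x h1 => hcw x (Finset.mem_sdiff.2 h1)⟩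

lemma near_dec (hs : 0 < s) (t : ℕ) {C : Submodule (ZMod 2) ((Fin s ⊕ Fin s) → ZMod 2)} (hC : SD C)
    (h : Near C t) : ∃ p : Par s t, dec p = C := by
  have : Nonempty (Fin s) := ⟨⟨0, hs⟩⟩
  have hcI : Fintype.card (Fin s ⊕ Fin s) = 2 * s := by
    rw [Fintype.card_sum, Fintype.card_fin]; ring
  obtain ⟨J, W, Z, y, hJ, hJc', cJ, hW, hZ, hZJ, hWJ', hyinj', hyJ', hcw'⟩ := near_unb hC hcI h
  have cJc : Jᶜ.card = s := by
    rw [Finset.card_compl, hcI, cJ]; omega
  have hW' : W.card ≤ 3 * t + 1 := by omega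
  have hZ' : Z.card ≤ 4 * t + 1 := by omega
  -- the words
  choose! κ hκC hκ1 hκ2 hκ3 using hcw'
  -- the permutation
  have hyc : ∀ x, (x ∈ J ∧ x ∉ Z) → ∃ k, enum Jᶜ k = y x := by
    intro x hx
    rw [← enum_mem cJc]
    simpa using hyJ' x hx
  choose! g hg using hyc
  have hen : ∀ k, enum J k ∈ J := fun k => (enum_mem cJ _).2 ⟨k, rfl⟩
  obtain ⟨π, hπ⟩ := exists_perm (Finset.univ.filter (fun k => enum J k ∉ Z))
    (fun k => g (enum J k)) (by
      intro k hk l hl hkl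
      have hk' : enum J k ∉ Z := (Finset.mem_filter.1 hk).2
      have hl' : enum J l ∉ Z := (Finset.mem_filter.1 hl).2
      have h1 : y (enum J k) = y (enum J l) := by
        rw [← hg _ ⟨hen k, hk'⟩, ← hg _ ⟨hen l, hl'⟩]
        exact congrArg (enum Jᶜ) hkl
      exact enum_inj cJ (hyinj' _ _ ⟨hen k, hk'⟩ ⟨hen l, hl'⟩ h1))
  have hπ' : ∀ k, enum J k ∉ Z → enum Jᶜ (π k) = y (enum J k) := by
    intro k hk
    rw [hπ k (Finset.mem_filter.2 ⟨Finset.mem_univ _, hk⟩)]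
    exact hg _ ⟨hen k, hk⟩
  -- the values on `W`
  choose a ha using fun k : Fin s => exists_lift hW' (0 : ZMod 2) (κ (enum J k))
  -- the words of the second kind
  have hsurj : ∀ z, z ∈ J → ∃ c ∈ C, c z = 1 ∧ ∀ i ∈ J, i ≠ z → c i = 0 := fun z hz =>
    free_surj hC hJ z hz
  choose! θ hθC hθ1 hθ0 using hsurj
  obtain ⟨b, hb⟩ := exists_lift hZ' (0 : (Fin s ⊕ Fin s) → ZMod 2) θ
  have hkap : ∀ k, enum J k ∉ Z → kap J W π a k = κ (enum J k) := by
    intro k hk
    have mk : enum J k ∈ J ∧ enum J k ∉ Z := ⟨hen k, hk⟩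
    funext i
    unfold kap
    split_ifs with h1 h2
    · exact ha k i h1
    · rw [hπ' k hk] at h2
      rcases h2 with h2 | h2
      · rw [h2]; exact (hκ1 _ mk).symm
      · rw [h2]; exact (hκ2 _ mk).symm
    · rw [hπ' k hk] at h2
      push Not at h2
      exact (hκ3 _ mk i h1 h2.1 h2.2).symm
  refine ⟨(J, W, Z, π, a, b), ?_⟩
  apply le_antisymm
  · unfold dec
    rw [Submodule.span_le]
    rintro c (⟨k, hk, rfl⟩ | ⟨z, hz, rfl⟩)
    · have hk' : enum J k ∉ Z := hk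
      show kap J W π a k ∈ C
      rw [hkap k hk']
      exact hκC _ ⟨hen k, hk'⟩
    · have hz' : z ∈ Z := hz
      show b (idx (4 * t) Z z) ∈ C
      rw [hb z hz']
      exact hθC z (hZJ hz')
  · intro c hc
    -- reduction
    have hκS : ∀ x, (x ∈ J ∧ x ∉ Z) → κ x ∈ dec ((J, W, Z, π, a, b) : Par s t) := by
      rintro x ⟨hxJ, hxZ⟩
      obtain ⟨k, rfl⟩ := (enum_mem cJ x).1 hxJ
      apply Submodule.subset_span
      left
      exact ⟨k, hxZ, (hkap k hxZ).symm⟩
    have hθS : ∀ z ∈ Z, θ z ∈ dec ((J, W, Z, π, a, b) : Par s t) := by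
      intro z hz
      apply Submodule.subset_span
      right
      exact ⟨z, hz, (hb z hz).symm⟩
    set S := J.filter (fun x => x ∉ Z) with hS
    have mS : ∀ x, x ∈ S ↔ (x ∈ J ∧ x ∉ Z) := fun x => by rw [hS, Finset.mem_filter]
    set c1 : (Fin s ⊕ Fin s) → ZMod 2 := c + ∑ x ∈ S, c x • κ x with hc1
    set c2 : (Fin s ⊕ Fin s) → ZMod 2 := c1 + ∑ z ∈ Z, c1 z • θ z with hc2
    have hc1C : c1 ∈ C := C.add_mem hc (C.sum_mem (fun x hx => C.smul_mem _ (hκC x ((mS x).1 hx))))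
    have hc2C : c2 ∈ C := C.add_mem hc1C (C.sum_mem (fun z hz => C.smul_mem _ (hθC z (hZJ hz))))
    have hc1v : ∀ i ∈ S, c1 i = 0 := by
      intro i hi
      have hi' := (mS i).1 hi
      have hiW : i ∉ W := fun h => hi'.2 (hWJ' i h hi'.1)
      rw [hc1, Pi.add_apply, Finset.sum_apply, Finset.sum_eq_single i]
      · rw [Pi.smul_apply, hκ1 i hi', smul_eq_mul, mul_one, zmod2_add_self]
      · intro x hx hxi
        rw [Pi.smul_apply, hκ3 x ((mS x).1 hx) i hiW hxi.symm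
          (fun h => hyJ' x ((mS x).1 hx) (h ▸ hi'.1)), smul_zero]
      · intro h; exact absurd hi h
    have hc2v : ∀ i ∈ J, c2 i = 0 := by
      intro i hi
      by_cases hiZ : i ∈ Z
      · rw [hc2, Pi.add_apply, Finset.sum_apply, Finset.sum_eq_single i]
        · rw [Pi.smul_apply, hθ1 i hi, smul_eq_mul, mul_one, zmod2_add_self]
        · intro z hz hzi
          rw [Pi.smul_apply, hθ0 z (hZJ hz) i hi hzi.symm, smul_zero]
        · intro h; exact absurd hiZ h
      · rw [hc2, Pi.add_apply, Finset.sum_apply, Finset.sum_eq_zero, add_zero]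
        · exact hc1v i ((mS i).2 ⟨hi, hiZ⟩)
        · intro z hz
          have hzi : i ≠ z := fun h => hiZ (h ▸ hz)
          rw [Pi.smul_apply, hθ0 z (hZJ hz) i hi hzi, smul_zero]
    have hc20 : c2 = 0 := hJc' c2 hc2C hc2v
    have e1 : c1 = ∑ z ∈ Z, c1 z • θ z := by
      have h1 : c1 + ∑ z ∈ Z, c1 z • θ z = 0 := by rw [← hc2]; exact hc20
      have h2 := eq_neg_of_add_eq_zero_left h1
      rwa [CharTwo.neg_eq] at h2
    have e2 : c = c1 + ∑ x ∈ S, c x • κ x := by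
      rw [hc1, add_assoc]
      have : ∑ x ∈ S, c x • κ x + ∑ x ∈ S, c x • κ x = 0 := by
        funext i
        exact zmod2_add_self _
      rw [this, add_zero]
    rw [e2]
    refine Submodule.add_mem _ ?_ (Submodule.sum_mem _
      (fun x hx => Submodule.smul_mem _ _ (hκS x ((mS x).1 hx))))
    rw [e1]
    exact Submodule.sum_mem _ (fun z hz => Submodule.smul_mem _ _ (hθS z hz))

/-- (C) the number of codes near a pairing code -/
theorem card_near (s : ℕ) (hs : 6 ≤ s) (t : ℕ) (ht : 1 ≤ t) :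
    (((sdc (Fin s ⊕ Fin s)).filter (fun C => Near C t)).card) ≤ s.factorial * 2 ^ (20 * t * s) := by
  have h1 : (sdc (Fin s ⊕ Fin s)).filter (fun C => Near C t)
      ⊆ (Finset.univ : Finset (Par s t)).image dec := by
    intro C hC
    obtain ⟨hC1, hC2⟩ := Finset.mem_filter.1 hC
    obtain ⟨p, hp⟩ := near_dec (by omega) t (mem_sdc.1 hC1) hC2
    exact Finset.mem_image.2 ⟨p, Finset.mem_univ _, hp⟩
  calc _ ≤ ((Finset.univ : Finset (Par s t)).image dec).card := Finset.card_le_card h1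
    _ ≤ (Finset.univ : Finset (Par s t)).card := Finset.card_image_le
    _ = s.factorial * 2 ^ (9 * s + 11 * t * s) := by rw [Finset.card_univ, card_par]
    _ ≤ s.factorial * 2 ^ (20 * t * s) := by
        refine Nat.mul_le_mul_left _ (Nat.pow_le_pow_right (by norm_num) ?_)
        nlinarith

end RMC71
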