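import Pool.Agent.Helper71.RMC.Link

set_option autoImplicit false

open scoped BigOperators

namespace RMC71.PowerDeficiency

/-- `N_r(f)`: the least Hamming distance from `f` to a Boolean function given by a polynomial of
total degree at most `r`. -/
noncomputable def rmDist (r m : ℕ) (f : (Fin m → ZMod 2) → ZMod 2) : ℕ :=
  sInf {d | ∃ p : MvPolynomial (Fin m) (ZMod 2), p.totalDegree ≤ r ∧
    d = (Finset.univ.filter (fun x => f x ≠ MvPolynomial.eval x p)).card}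

/-- The covering radius of the Reed-Muller code `RM(r,m)`. -/
noncomputable def covRadius (r m : ℕ) : ℕ :=
  Finset.univ.sup (fun f : (Fin m → ZMod 2) → ZMod 2 => rmDist r m f)

lemma covRadius_le (r : ℕ) (hr : 2 ≤ r) (s : ℕ) (hs : 6 ≤ s) (m : ℕ) (hm : 2 ^ 55 * s ^ 4 ≤ m) :
    (covRadius r m : ℝ)
      ≤ 2 ^ m / 2 - Real.sqrt ((s : ℝ) / Real.exp 1) * Real.sqrt (2 ^ m) / 2 := by
  obtain ⟨f, -, hf⟩ := Finset.exists_mem_eq_sup (Finset.univ : Finset ((Fin m → ZMod 2) → ZMod 2))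
    ⟨0, Finset.mem_univ _⟩ (fun f => rmDist r m f)
  unfold covRadius
  rw [hf]
  have hcard : Fintype.card (Fin m → ZMod 2) = 2 ^ m := by
    rw [Fintype.card_fun, ZMod.card, Fintype.card_fin]
  obtain ⟨p, hp, hd⟩ := RMC71.exists_close_of s m
    (fun F hF ρ hR => RMC71.key s hs m hm (Fin m → ZMod 2) hcard F hF ρ hR) f
  refine le_trans ?_ hd
  have h1 : rmDist r m f ≤ (Finset.univ.filter (fun x => f x ≠ MvPolynomial.eval x p)).card :=
    Nat.sInf_le ⟨p, hp.trans hr, rfl⟩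
  refine le_trans (Nat.cast_le.2 h1) (le_of_eq ?_)
  congr

theorem explicit (r : ℕ) (hr : 2 ≤ r) (m : ℕ) (hm : 2 ^ 66 ≤ m) :
    (covRadius r m : ℝ) ≤ 2 ^ m / 2 - 1 / 420 * (m : ℝ) ^ ((1 : ℝ) / 8) * Real.sqrt (2 ^ m) := by
  have hmR : (2 : ℝ) ^ 66 ≤ m := by exact_mod_cast hm
  have hmpos : (0 : ℝ) < m := lt_of_lt_of_le (by positivity) hmR
  -- `y = (m / 2^55)^(1/4)`
  set y : ℝ := Real.sqrt (Real.sqrt (m / 2 ^ 55)) with hy
  have hy0 : 0 ≤ y := Real.sqrt_nonneg _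
  have hy4 : y ^ 4 = m / 2 ^ 55 := by
    rw [hy, show (4 : ℕ) = 2 * 2 by norm_num, pow_mul, Real.sq_sqrt (Real.sqrt_nonneg _),
      Real.sq_sqrt (by positivity)]
  have hy6 : (6 : ℝ) ≤ y := by
    apply Real.le_sqrt_of_sq_le
    apply Real.le_sqrt_of_sq_le
    rw [le_div_iff₀ (by positivity)]
    refine le_trans ?_ hmR
    norm_num
  set s : ℕ := ⌊y⌋₊ with hs
  have hs6 : 6 ≤ s := Nat.le_floor (by exact_mod_cast hy6)
  have hs6R : (6 : ℝ) ≤ s := by exact_mod_cast hs6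
  have hsle : (s : ℝ) ≤ y := Nat.floor_le hy0
  have hslt : y < s + 1 := Nat.lt_floor_add_one _
  have hm2 : 2 ^ 55 * s ^ 4 ≤ m := by
    have h1 : (2 : ℝ) ^ 55 * (s : ℝ) ^ 4 ≤ m := by
      have h2 : (s : ℝ) ^ 4 ≤ y ^ 4 := pow_le_pow_left₀ (by positivity) hsle 4
      rw [hy4, le_div_iff₀ (by positivity)] at h2
      linarith
    exact_mod_cast h1
  refine (covRadius_le r hr s hs6 m hm2).trans ?_
  -- compare the constants
  have hkey : 1 / 420 * (m : ℝ) ^ ((1 : ℝ) / 8) ≤ Real.sqrt ((s : ℝ) / Real.exp 1) / 2 := by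
    set z : ℝ := (m : ℝ) ^ ((1 : ℝ) / 8) with hz
    have hz0 : 0 ≤ z := by rw [hz]; positivity
    have hz8 : z ^ 8 = m := by
      rw [hz, ← Real.rpow_natCast, ← Real.rpow_mul hmpos.le]
      norm_num
    -- `z^2 ≤ 13778 y`
    have h1 : z ^ 2 ≤ 13778 * y := by
      have h2 : (z ^ 2) ^ 4 ≤ (13778 * y) ^ 4 := by
        rw [← pow_mul, mul_pow, hy4, hz8]
        rw [mul_div_assoc', le_div_iff₀ (by positivity)]
        have : (2 : ℝ) ^ 55 ≤ 13778 ^ 4 := by norm_num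
        nlinarith
      exact le_of_pow_le_pow_left₀ (by norm_num) (by positivity) h2
    have h3 : y ≤ 7 / 6 * s := by linarith
    have he : Real.exp 1 < 2.7182818286 := Real.exp_one_lt_d9
    have hepos := Real.exp_pos 1
    have h4 : (z / 210) ^ 2 ≤ (s : ℝ) / Real.exp 1 := by
      rw [le_div_iff₀ hepos, div_pow, div_mul_eq_mul_div, div_le_iff₀ (by norm_num)]
      have h5 : z ^ 2 ≤ 13778 * (7 / 6 * s) := h1.trans (by linarith)
      calc z ^ 2 * Real.exp 1 ≤ (13778 * (7 / 6 * s)) * 2.7182818286 := by gcongr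
        _ ≤ s * 210 ^ 2 := by nlinarith
    have h6 := Real.sqrt_le_sqrt h4
    rw [Real.sqrt_sq (by positivity)] at h6
    linarith
  have h10 : 0 ≤ Real.sqrt ((2 : ℝ) ^ m) := Real.sqrt_nonneg _
  have h11 := mul_le_mul_of_nonneg_right hkey h10
  linarith

/-- For every order `r ≥ 2` and every `m ≥ 2^66` the covering radius of `RM(r,m)` satisfies
`ρ(r,m) ≤ 2^(m-1) - (1/420) m^(1/8) 2^(m/2)`. -/
theorem result : ∀ r : ℕ, 2 ≤ r → ∀ m : ℕ, 2 ^ 66 ≤ m →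
    (covRadius r m : ℝ) ≤ 2 ^ m / 2 - 1 / 420 * (m : ℝ) ^ ((1 : ℝ) / 8) * Real.sqrt (2 ^ m) :=
  explicit

end RMC71.PowerDeficiency
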