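import Pool.Agent.Helper71.RMC.Tc

set_option autoImplicit false

open scoped BigOperators
open Classical

namespace RMC

variable {I : Type} [Fintype I]

/-- unit vectors -/
noncomputable def un (i : I) : I → ZMod 2 := Pi.single i 1

lemma un_self (i : I) : un i i = 1 := by simp [un]

lemma un_ne {i j : I} (h : j ≠ i) : un i j = 0 := by simp [un, h]

lemma ip_un (i : I) (c : I → ZMod 2) : ip (un i) c = c i := by
  unfold ip
  rw [Finset.sum_eq_single i]
  · rw [un_self, one_mul]
  · intro j _ hj; rw [un_ne hj, zero_mul]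
  · intro h; exact absurd (Finset.mem_univ _) h

lemma one_mem {C : Submodule (ZMod 2) (I → ZMod 2)} (hC : SD C) :
    (fun _ => (1 : ZMod 2)) ∈ C := by
  rw [hC]
  intro d hd
  rw [ip_comm, ip_one]
  exact hC.so d hd d hd

/-- weight -/
noncomputable def wt (c : I → ZMod 2) : ℕ := (Finset.univ.filter (fun i => c i = 1)).card

lemma ip_self_eq (c : I → ZMod 2) : ip c c = (wt c : ZMod 2) := by
  unfold ip wt
  rw [Finset.card_filter]
  push_cast
  refine Finset.sum_congr rfl (fun i _ => ?_)
  rcases zmod2_cases (c i) with h | h <;> rw [h] <;> simp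

lemma even_wt {C : Submodule (ZMod 2) (I → ZMod 2)} (hC : SO C) {c : I → ZMod 2} (hc : c ∈ C) :
    Even (wt c) := by
  have h := hC c hc c hc
  rw [ip_self_eq] at h
  have := (ZMod.natCast_eq_zero_iff (wt c) 2).1 h
  exact even_iff_two_dvd.2 this

/-- a circuit through every point -/
lemma exists_circuit {C : Submodule (ZMod 2) (I → ZMod 2)} (hC : SD C) (i : I) :
    ∃ u ∈ C, u i = 1 ∧ ∀ c ∈ C, (∀ j, u j = 0 → c j = 0) → c = 0 ∨ c = u := by
  obtain ⟨u, hu, hmin⟩ := (Set.toFinite {c : I → ZMod 2 | c ∈ C ∧ c i = 1}).toFinset.exists_min_image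
    wt ⟨fun _ => 1, by
      rw [Set.Finite.mem_toFinset]
      exact ⟨one_mem hC, rfl⟩⟩
  rw [Set.Finite.mem_toFinset] at hu
  refine ⟨u, hu.1, hu.2, ?_⟩
  intro c hc hsub
  have key : ∀ d ∈ C, d i = 1 → (∀ j, u j = 0 → d j = 0) → d = u := by
    intro d hd hdi hds
    have h1 := hmin d (by rw [Set.Finite.mem_toFinset]; exact ⟨hd, hdi⟩)
    have h2 : Finset.univ.filter (fun j => d j = 1) ⊆ Finset.univ.filter (fun j => u j = 1) := by
      intro j hj
      rw [Finset.mem_filter] at hj ⊢
      refine ⟨hj.1, ?_⟩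
      refine (zmod2_cases (u j)).resolve_left (fun h0 => ?_)
      rw [hds j h0] at hj
      exact zero_ne_one hj.2
    have h3 := Finset.eq_of_subset_of_card_le h2 h1
    funext j
    rcases zmod2_cases (u j) with h0 | h0
    · rw [h0]; exact hds j h0
    · have : j ∈ Finset.univ.filter (fun j => u j = 1) := by simp [h0]
      rw [← h3, Finset.mem_filter] at this
      rw [h0]; exact this.2
  rcases zmod2_cases (c i) with h0 | h0
  · left
    have h1 : c + u = u := by
      refine key (c + u) (C.add_mem hc hu.1) ?_ ?_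
      · rw [Pi.add_apply, h0, zero_add]; exact hu.2
      · intro j hj
        rw [Pi.add_apply, hsub j hj, hj, add_zero]
    have h2 : c + u + u = u + u := by rw [h1]
    have h3 : u + u = 0 := by funext j; exact zmod2_add_self _
    rw [add_assoc, h3, add_zero] at h2
    exact h2
  · right; exact key c hc h0 hsub

variable {V : Type} [AddCommGroup V] [Module (ZMod 2) V] [Fintype V]

lemma T_nonneg_of_pairs {C : Submodule (ZMod 2) (I → ZMod 2)} (hC : SD C) (F : V → ℝ)
    (hpair : ∀ i, ∃ j, j ≠ i ∧ un i + un j ∈ C) : 0 ≤ T C F := by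
  choose σ hσ1 hσ2 using hpair
  have hinv : ∀ i, σ (σ i) = i := by
    intro i
    by_contra hne
    have h1 := hC.so _ (hσ2 i) _ (hσ2 (σ i))
    rw [ip_add, ip_un, ip_un, Pi.add_apply, Pi.add_apply, un_self,
      un_ne (hσ1 i).symm, un_ne (Ne.symm hne), un_ne (hσ1 (σ i)).symm] at h1
    simp at h1
  refine Finset.sum_nonneg (fun X _ => ?_)
  have hX : ∀ i, (X : I → V) (σ i) = (X : I → V) i := by
    intro i
    have h1 := CV_rel hC (hσ2 i) X.2
    have h2 : ∑ k, (un i + un (σ i)) k • (X : I → V) k = (X : I → V) i + (X : I → V) (σ i) := by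
      simp only [Pi.add_apply, add_smul]
      rw [Finset.sum_add_distrib]
      congr 1
      · rw [Finset.sum_eq_single i]
        · rw [un_self, one_smul]
        · intro j _ hj; rw [un_ne hj, zero_smul]
        · intro h; exact absurd (Finset.mem_univ _) h
      · rw [Finset.sum_eq_single (σ i)]
        · rw [un_self, one_smul]
        · intro j _ hj; rw [un_ne hj, zero_smul]
        · intro h; exact absurd (Finset.mem_univ _) h
    rw [h2] at h1
    have h3 := congrArg (fun z => z + (X : I → V) (σ i)) h1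
    simp only [v_add_cancel, zero_add] at h3
    exact h3.symm
  by_cases h0 : ∃ i, F ((X : I → V) i) = 0
  · obtain ⟨i, hi⟩ := h0
    rw [Finset.prod_eq_zero (Finset.mem_univ i) hi]
  · push Not at h0
    have h1 : ∏ i, (F ((X : I → V) i) / |F ((X : I → V) i)|) = 1 := by
      refine Finset.prod_involution (fun i _ => σ i) ?_ ?_ (fun i _ => Finset.mem_univ _) ?_
      · intro i _
        rw [hX i, div_mul_div_comm, ← abs_mul, abs_of_nonneg (mul_self_nonneg _)]
        exact div_self (mul_self_ne_zero.2 (h0 i))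
      · intro i _ _; exact hσ1 i
      · intro i _; exact hinv i
    have h2 : ∏ i, F ((X : I → V) i)
        = (∏ i, (F ((X : I → V) i) / |F ((X : I → V) i)|)) * ∏ i, |F ((X : I → V) i)| := by
      rw [← Finset.prod_mul_distrib]
      refine Finset.prod_congr rfl (fun i _ => ?_)
      rw [div_mul_cancel₀ _ (abs_ne_zero.2 (h0 i))]
    rw [h2, h1, one_mul]
    exact Finset.prod_nonneg (fun i _ => abs_nonneg _)

/-- The main lower bound for the contribution of one code. -/
theorem T_ge {C : Submodule (ZMod 2) (I → ZMod 2)} (hC : SD C) (F : V → ℝ) (s : ℕ)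
    (hs : Fintype.card I = 2 * s) (δ L ε : ℝ) (hδ0 : 0 ≤ δ) (hδ1 : δ ≤ 1)
    (hp : ∀ h : V, h ≠ 0 → ∀ ξ, |pau F h ξ| ≤ δ * nrm F)
    (hL : ∀ x, F x ^ 2 ≤ L) (hε : 0 ≤ ε) (hε2 : δ ^ 2 + L / nrm F ≤ ε ^ 2) :
    -(ε * nrm F ^ s) ≤ T C F := by
  have hS0 : 0 ≤ nrm F := nrm_nonneg F
  have hneg : -(ε * nrm F ^ s) ≤ 0 := by
    have : 0 ≤ ε * nrm F ^ s := by positivity
    linarith
  by_cases hall : ∀ i, ∃ j, j ≠ i ∧ un i + un j ∈ C
  · exact hneg.trans (T_nonneg_of_pairs hC F hall)
  · push Not at hall
    obtain ⟨i, hi⟩ := hall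
    obtain ⟨u, hu, hui, hmin⟩ := exists_circuit hC i
    have heven := even_wt hC.so hu
    have hmem : i ∈ Finset.univ.filter (fun i => u i = 1) := by simp [hui]
    have hpos : 0 < wt u := Finset.card_pos.2 ⟨i, hmem⟩
    have hwt : 4 ≤ wt u := by
      by_contra hlt
      have h2 : wt u = 2 := by
        obtain ⟨k, hk⟩ := heven
        omega
      have h3 : ((Finset.univ.filter (fun i => u i = 1)).erase i).card = 1 := by
        rw [Finset.card_erase_of_mem hmem]
        unfold wt at h2
        omega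
      obtain ⟨j, hj⟩ := Finset.card_eq_one.1 h3
      have hji : j ≠ i := by
        have : j ∈ (Finset.univ.filter (fun i => u i = 1)).erase i := by rw [hj]; simp
        exact (Finset.mem_erase.1 this).1
      apply hi j hji
      have h4 : un i + un j = u := by
        funext k
        rw [Pi.add_apply]
        by_cases hki : k = i
        · rw [hki, un_self, un_ne hji.symm, add_zero, hui]
        · by_cases hkj : k = j
          · rw [hkj, un_self, un_ne hji, zero_add]
            have : j ∈ (Finset.univ.filter (fun i => u i = 1)).erase i := by rw [hj]; simp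
            exact ((Finset.mem_filter.1 (Finset.mem_of_mem_erase this)).2).symm
          · rw [un_ne hki, un_ne hkj, add_zero]
            refine ((zmod2_cases (u k)).resolve_right (fun h1 => hkj ?_)).symm
            have : k ∈ (Finset.univ.filter (fun i => u i = 1)).erase i := by
              rw [Finset.mem_erase]; exact ⟨hki, by simp [h1]⟩
            rw [hj] at this
            exact Finset.mem_singleton.1 this
      rw [h4]; exact hu
    obtain ⟨e, he, hT⟩ := T_sq_le hC F hu hui hmin (wt u) rfl
    have hb := pau_pow_bound F δ L (wt u) hwt hδ0 hδ1 hp hL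
    have hcard : (0 : ℝ) < Fintype.card V := by
      have : 0 < Fintype.card V := Fintype.card_pos_iff.2 ⟨0⟩
      positivity
    have h5 : (Fintype.card V : ℝ) * T C F ^ 2
        ≤ (Fintype.card V : ℝ) * (ε * nrm F ^ s) ^ 2 := by
      calc (Fintype.card V : ℝ) * T C F ^ 2
          ≤ (∑ h, ∑ ξ : Module.Dual (ZMod 2) V, pau F h ξ ^ wt u) * nrm F ^ e := hT
        _ ≤ ((Fintype.card V : ℝ) * (δ ^ 2 + L / nrm F) * nrm F ^ wt u) * nrm F ^ e :=
            mul_le_mul_of_nonneg_right ((le_abs_self _).trans hb) (by positivity)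
        _ = (Fintype.card V : ℝ) * ((δ ^ 2 + L / nrm F) * nrm F ^ (2 * s)) := by
            rw [← hs, ← he, pow_add]; ring
        _ ≤ (Fintype.card V : ℝ) * (ε ^ 2 * nrm F ^ (2 * s)) := by gcongr
        _ = (Fintype.card V : ℝ) * (ε * nrm F ^ s) ^ 2 := by rw [mul_pow, ← pow_mul, mul_comm s 2]
    have h6 := le_of_mul_le_mul_left h5 hcard
    have h7 := abs_le_of_sq_le_sq h6 (by positivity)
    exact (abs_le.1 h7).1

end RMC
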