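import Pool.Agent.Helper71.RMC.Four
import Pool.Agent.Helper71.RMC.Code

set_option autoImplicit false

open scoped BigOperators
open Classical

namespace RMC

variable {I : Type} [Fintype I]
variable {V : Type} [AddCommGroup V] [Module (ZMod 2) V]

/-- `C ⊗ V` inside `V^I` -/
def CV (V : Type) [AddCommGroup V] [Module (ZMod 2) V] (C : Submodule (ZMod 2) (I → ZMod 2)) :
    Submodule (ZMod 2) (I → V) where
  carrier := {X | ∀ l : Module.Dual (ZMod 2) V, (fun i => l (X i)) ∈ C}
  add_mem' := by
    intro X Y hX hY l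
    have := C.add_mem (hX l) (hY l)
    convert this using 1
    funext i
    simp
  zero_mem' := by
    intro l
    have : (fun i : I => l ((0 : I → V) i)) = 0 := by funext i; simp
    rw [this]; exact C.zero_mem
  smul_mem' := by
    intro a X hX l
    have := C.smul_mem a (hX l)
    convert this using 1
    funext i
    simp

lemma mem_CV {C : Submodule (ZMod 2) (I → ZMod 2)} {X : I → V} :
    X ∈ CV V C ↔ ∀ l : Module.Dual (ZMod 2) V, (fun i => l (X i)) ∈ C := Iff.rfl

lemma CV_rel {C : Submodule (ZMod 2) (I → ZMod 2)} (hC : SD C) {u : I → ZMod 2} (hu : u ∈ C)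
    {X : I → V} (hX : X ∈ CV V C) : ∑ i, u i • X i = 0 := by
  rw [← Module.forall_dual_apply_eq_zero_iff (ZMod 2)]
  intro l
  rw [map_sum]
  have := hC.so u hu _ (hX l)
  unfold ip at this
  simpa using this

lemma CV_tensor {C : Submodule (ZMod 2) (I → ZMod 2)} {c : I → ZMod 2} (hc : c ∈ C) (v : V) :
    (fun i => c i • v) ∈ CV V C := by
  intro l
  have := C.smul_mem (l v) hc
  convert this using 1
  funext i
  simp [mul_comm]

lemma CV_bij {C : Submodule (ZMod 2) (I → ZMod 2)} (hC : SD C) {J : Finset I}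
    (hJ : Free J C) (hJc : Free Jᶜ C) :
    Function.Bijective (fun (X : CV V C) (j : J) => (X : I → V) j) := by
  constructor
  · intro X Y hXY
    apply Subtype.ext
    funext i
    have h1 : (X : I → V) - Y ∈ CV V C := (CV V C).sub_mem X.2 Y.2
    have h2 : ∀ l : Module.Dual (ZMod 2) V, (fun i => l (((X : I → V) - Y) i)) = 0 := by
      intro l
      refine hJc _ (h1 l) (fun j hj => ?_)
      have hj' : j ∈ J := by simpa using hj
      have h3 := congrFun hXY ⟨j, hj'⟩
      simp only at h3
      rw [Pi.sub_apply, h3, sub_self, map_zero]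
    have h4 : (X : I → V) i - (Y : I → V) i = 0 := by
      rw [← Module.forall_dual_apply_eq_zero_iff (ZMod 2)]
      intro l
      exact congrFun (h2 l) i
    exact sub_eq_zero.1 h4
  · intro Z
    choose c hc hc1 hc0 using fun j : J => free_surj hC hJ j j.2
    refine ⟨⟨∑ j : J, (fun i => c j i • Z j), ?_⟩, ?_⟩
    · exact (CV V C).sum_mem (fun j _ => CV_tensor (hc j) (Z j))
    · funext k
      simp only [Finset.sum_apply]
      rw [Finset.sum_eq_single k]
      · rw [hc1 k, one_smul]
      · intro j _ hjk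
        rw [hc0 j k k.2 (fun h => hjk (Subtype.ext h.symm)), zero_smul]
      · intro h; exact absurd (Finset.mem_univ _) h

variable [Fintype V]

noncomputable instance CVFintype (C : Submodule (ZMod 2) (I → ZMod 2)) : Fintype (CV V C) :=
  Fintype.ofFinite _

/-- the signed count attached to a code -/
noncomputable def T (C : Submodule (ZMod 2) (I → ZMod 2)) (F : V → ℝ) : ℝ :=
  ∑ X : CV V C, ∏ i, F ((X : I → V) i)

/-- sums over `C ⊗ V` of products over an information set factor -/
lemma sum_free {C : Submodule (ZMod 2) (I → ZMod 2)} (hC : SD C) {J : Finset I}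
    (hJ : Free J C) (hJc : Free Jᶜ C) (g : I → V → ℝ) :
    ∑ X : CV V C, ∏ i ∈ J, g i ((X : I → V) i) = ∏ i ∈ J, ∑ v, g i v := by
  have h1 : ∑ X : CV V C, ∏ i ∈ J, g i ((X : I → V) i)
      = ∑ Z : J → V, ∏ j : J, g j (Z j) := by
    refine Fintype.sum_bijective _ (CV_bij hC hJ hJc) _ _ (fun X => ?_)
    rw [← Finset.prod_coe_sort J]
  rw [h1, ← Finset.prod_coe_sort J, Finset.prod_univ_sum]
  refine Finset.sum_congr ?_ (fun _ _ => rfl)
  rw [Fintype.piFinset_univ]

theorem T_sq_le {C : Submodule (ZMod 2) (I → ZMod 2)} (hC : SD C) (F : V → ℝ)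
    {u : I → ZMod 2} (hu : u ∈ C) {i0 : I} (hi0 : u i0 = 1)
    (hmin : ∀ c ∈ C, (∀ i, u i = 0 → c i = 0) → c = 0 ∨ c = u) (a : ℕ)
    (ha : (Finset.univ.filter (fun i => u i = 1)).card = a) :
    ∃ e : ℕ, e + a = Fintype.card I ∧
      (Fintype.card V : ℝ) * T C F ^ 2
        ≤ (∑ h, ∑ ξ : Module.Dual (ZMod 2) V, pau F h ξ ^ a) * nrm F ^ e := by
  set A := Finset.univ.filter (fun i => u i = 1) with hA
  have hmemA : ∀ i, i ∈ A ↔ u i = 1 := by intro i; simp [hA]
  have hnotA : ∀ i, i ∉ A → u i = 0 := by
    intro i hi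
    rw [hmemA] at hi
    exact (zmod2_cases (u i)).resolve_right hi
  have hi0A : i0 ∈ A := (hmemA i0).2 hi0
  have hfree0 : Free (A.erase i0) C := by
    intro c hc hcA
    rcases hmin c hc (fun i hi => hcA i (by
      intro h
      have := (hmemA i).1 (Finset.mem_of_mem_erase h)
      rw [hi] at this
      exact zero_ne_one this)) with h | h
    · exact h
    · exfalso
      have h1 := hcA i0 (by simp)
      rw [h, hi0] at h1
      exact one_ne_zero h1
  obtain ⟨J, hAJ, hJ, hJc⟩ := exists_free hC.so hfree0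
  have hi0J : i0 ∉ J := by
    intro h
    have : u = 0 := by
      refine hJ u hu (fun i hi => hnotA i (fun hiA => hi ?_))
      by_cases hii : i = i0
      · rw [hii]; exact h
      · exact hAJ (Finset.mem_erase.2 ⟨hii, hiA⟩)
    rw [this] at hi0
    exact zero_ne_one hi0
  set A0 := A.erase i0 with hA0
  have hcardA0 : A0.card + 1 = a := by
    rw [hA0, Finset.card_erase_of_mem hi0A, ← ha]
    have : 0 < A.card := Finset.card_pos.2 ⟨i0, hi0A⟩
    omega
  -- shifts
  let su : V → CV V C := fun v => ⟨fun i => u i • v, CV_tensor hu v⟩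
  have hsuA : ∀ v, ∀ i ∈ A, ((su v : CV V C) : I → V) i = v := by
    intro v i hi
    change u i • v = v
    rw [(hmemA i).1 hi, one_smul]
  have hsuN : ∀ v, ∀ i, i ∉ A → ((su v : CV V C) : I → V) i = 0 := by
    intro v i hi
    change u i • v = 0
    rw [hnotA i hi, zero_smul]
  have hsuadd : ∀ v w, su v + su w = su (v + w) := by
    intro v w
    apply Subtype.ext
    funext i
    change u i • v + u i • w = u i • (v + w)
    rw [smul_add]
  let fa : CV V C → ℝ := fun X => ∏ i ∈ A, F ((X : I → V) i)
  let b1 : CV V C → ℝ := fun X => ∏ i ∈ J \ A0, F ((X : I → V) i)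
  let b2 : CV V C → ℝ := fun X => ∏ i ∈ Jᶜ.erase i0, F ((X : I → V) i)
  have hJA : ∀ i ∈ J \ A0, i ∉ A := by
    intro i hi hiA
    rw [Finset.mem_sdiff] at hi
    apply hi.2
    rw [hA0, Finset.mem_erase]
    exact ⟨fun h => hi0J (h ▸ hi.1), hiA⟩
  have hJcA : ∀ i ∈ Jᶜ.erase i0, i ∉ A := by
    intro i hi hiA
    rw [Finset.mem_erase, Finset.mem_compl] at hi
    exact hi.2 (hAJ (Finset.mem_erase.2 ⟨hi.1, hiA⟩))
  have hb1 : ∀ X v, b1 (X + su v) = b1 X := by
    intro X v
    refine Finset.prod_congr rfl (fun i hi => ?_)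
    have : ((X + su v : CV V C) : I → V) i = (X : I → V) i + ((su v : CV V C) : I → V) i := rfl
    rw [this, hsuN v i (hJA i hi), add_zero]
  have hb2 : ∀ X v, b2 (X + su v) = b2 X := by
    intro X v
    refine Finset.prod_congr rfl (fun i hi => ?_)
    have : ((X + su v : CV V C) : I → V) i = (X : I → V) i + ((su v : CV V C) : I → V) i := rfl
    rw [this, hsuN v i (hJcA i hi), add_zero]
  have hprod : ∀ X : CV V C, ∏ i, F ((X : I → V) i) = fa X * b1 X * b2 X := by
    intro X
    have hdis1 : Disjoint A (J \ A0) := by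
      rw [Finset.disjoint_left]
      intro i hi hi2
      exact hJA i hi2 hi
    have hdis2 : Disjoint (A ∪ (J \ A0)) (Jᶜ.erase i0) := by
      rw [Finset.disjoint_left]
      intro i hi hi2
      rcases Finset.mem_union.1 hi with h | h
      · exact hJcA i hi2 h
      · have h1 := (Finset.mem_sdiff.1 h).1
        have h2 := (Finset.mem_erase.1 hi2).2
        rw [Finset.mem_compl] at h2
        exact h2 h1
    have hun : (A ∪ (J \ A0)) ∪ (Jᶜ.erase i0) = Finset.univ := by
      ext i
      simp only [Finset.mem_union, Finset.mem_sdiff, Finset.mem_erase, Finset.mem_compl,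
        Finset.mem_univ, iff_true]
      by_cases h0 : i = i0
      · left; left; rw [h0]; exact hi0A
      · by_cases h1 : i ∈ A
        · left; left; exact h1
        · by_cases h2 : i ∈ J
          · left; right
            refine ⟨h2, fun h3 => h1 (Finset.mem_of_mem_erase h3)⟩
          · right; exact ⟨h0, h2⟩
    change _ = (∏ i ∈ A, F ((X : I → V) i)) * (∏ i ∈ J \ A0, F ((X : I → V) i))
      * (∏ i ∈ Jᶜ.erase i0, F ((X : I → V) i))
    rw [← Finset.prod_union hdis1, ← Finset.prod_union hdis2, hun]
  have hshift : ∀ (f : CV V C → ℝ) (v : V), ∑ X, f (X + su v) = ∑ X, f X := by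
    intro f v
    exact Fintype.sum_equiv (Equiv.addRight (su v)) _ _ (fun X => rfl)
  let H : CV V C → ℝ := fun X => ∑ v, fa (X + su v)
  -- averaging
  have hT : (Fintype.card V : ℝ) * T C F = ∑ X, (H X * b1 X) * b2 X := by
    have h1 : ∀ v : V, T C F = ∑ X : CV V C, fa (X + su v) * b1 X * b2 X := by
      intro v
      unfold T
      rw [← hshift (fun X => ∏ i, F ((X : I → V) i)) v]
      refine Finset.sum_congr rfl (fun X _ => ?_)
      rw [hprod (X + su v), hb1, hb2]
    have h2 : (Fintype.card V : ℝ) * T C F = ∑ _v : V, T C F := by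
      rw [Finset.sum_const, Finset.card_univ, nsmul_eq_mul]
    rw [h2, Finset.sum_congr rfl (fun v _ => h1 v), Finset.sum_comm]
    refine Finset.sum_congr rfl (fun X _ => ?_)
    simp only [H]
    rw [Finset.sum_mul, Finset.sum_mul]
  have hCS : ((Fintype.card V : ℝ) * T C F) ^ 2
      ≤ (∑ X, (H X * b1 X) ^ 2) * ∑ X, (b2 X) ^ 2 := by
    rw [hT]; exact Finset.sum_mul_sq_le_sq_mul_sq _ _ _
  -- the second factor
  have hb2sum : ∑ X : CV V C, (b2 X) ^ 2 = (Fintype.card V : ℝ) * nrm F ^ (Jᶜ.card - 1) := by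
    have hi0Jc : i0 ∈ Jᶜ := by simpa using hi0J
    have h1 : ∀ X : CV V C, (b2 X) ^ 2
        = ∏ i ∈ Jᶜ, (if i = i0 then (fun _ : V => (1 : ℝ)) else (fun v => F v ^ 2)) ((X : I → V) i) := by
      intro X
      rw [← Finset.mul_prod_erase _ _ hi0Jc]
      simp only [if_true, one_mul]
      change (∏ i ∈ Jᶜ.erase i0, F ((X : I → V) i)) ^ 2 = _
      rw [← Finset.prod_pow]
      refine Finset.prod_congr rfl (fun i hi => ?_)
      rw [if_neg (Finset.mem_erase.1 hi).1]
    simp only [h1]
    rw [sum_free hC hJc (by rwa [compl_compl])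
      (fun i => if i = i0 then (fun _ : V => (1 : ℝ)) else (fun v => F v ^ 2)),
      ← Finset.mul_prod_erase _ _ hi0Jc]
    congr 1
    · simp
    · have : ∀ i ∈ Jᶜ.erase i0, ∑ v, (if i = i0 then (fun _ : V => (1 : ℝ))
          else (fun v => F v ^ 2)) v = nrm F := by
        intro i hi
        rw [if_neg (Finset.mem_erase.1 hi).1]
        rfl
      rw [Finset.prod_congr rfl this, Finset.prod_const, Finset.card_erase_of_mem hi0Jc]
  -- the first factor
  have hH : ∑ X : CV V C, (H X * b1 X) ^ 2
      = (∑ h, ∑ ξ : Module.Dual (ZMod 2) V, pau F h ξ ^ a) * nrm F ^ (J \ A0).card := by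
    have h1 : ∑ X : CV V C, (H X * b1 X) ^ 2
        = ∑ v : V, ∑ w : V, ∑ X : CV V C, fa (X + su v) * fa (X + su w) * b1 X ^ 2 := by
      have : ∀ X : CV V C, (H X * b1 X) ^ 2
          = ∑ v : V, ∑ w : V, fa (X + su v) * fa (X + su w) * b1 X ^ 2 := by
        intro X
        rw [mul_pow, pow_two (H X)]
        simp only [H]
        rw [Finset.sum_mul_sum, Finset.sum_mul]
        refine Finset.sum_congr rfl (fun v _ => ?_)
        rw [Finset.sum_mul]
      simp only [this]
      rw [Finset.sum_comm]
      refine Finset.sum_congr rfl (fun v _ => ?_)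
      rw [Finset.sum_comm]
    have h2 : ∀ v w : V, ∑ X : CV V C, fa (X + su v) * fa (X + su w) * b1 X ^ 2
        = ∑ X : CV V C, fa X * fa (X + su (v + w)) * b1 X ^ 2 := by
      intro v w
      rw [← hshift (fun X => fa (X + su v) * fa (X + su w) * b1 X ^ 2) v]
      refine Finset.sum_congr rfl (fun X _ => ?_)
      rw [hb1, add_assoc, hsuadd, v_add_self, add_assoc, hsuadd]
      have h0 : su 0 = 0 := by
        apply Subtype.ext; funext i; change u i • (0 : V) = 0; rw [smul_zero]
      rw [h0, add_zero]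
    have h3 : ∀ h : V, ∑ X : CV V C, fa X * fa (X + su h) * b1 X ^ 2
        = (Fintype.card V : ℝ)⁻¹ * ∑ ξ : Module.Dual (ZMod 2) V,
            pau F h ξ ^ a * nrm F ^ (J \ A0).card := by
      intro h
      let g : Module.Dual (ZMod 2) V → I → V → ℝ := fun ξ i =>
        if i ∈ A0 then (fun x => F x * F (x + h) * chi (ξ x)) else (fun x => F x ^ 2)
      have h4 : ∀ X : CV V C, fa X * fa (X + su h) * b1 X ^ 2
          = (Fintype.card V : ℝ)⁻¹ * ∑ ξ : Module.Dual (ZMod 2) V,
            pau F h ξ * ∏ i ∈ J, g ξ i ((X : I → V) i) := by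
        intro X
        have h5 : fa X * fa (X + su h)
            = (F ((X : I → V) i0) * F ((X : I → V) i0 + h))
              * ∏ i ∈ A0, (F ((X : I → V) i) * F ((X : I → V) i + h)) := by
          change (∏ i ∈ A, F ((X : I → V) i)) * (∏ i ∈ A, F (((X + su h : CV V C) : I → V) i)) = _
          rw [← Finset.prod_mul_distrib, ← Finset.mul_prod_erase _ _ hi0A]
          have h6 : ∀ i ∈ A, ((X + su h : CV V C) : I → V) i = (X : I → V) i + h := by
            intro i hi
            have : ((X + su h : CV V C) : I → V) i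
              = (X : I → V) i + ((su h : CV V C) : I → V) i := rfl
            rw [this, hsuA h i hi]
          rw [h6 i0 hi0A]
          congr 1
          refine Finset.prod_congr rfl (fun i hi => ?_)
          rw [h6 i (Finset.mem_of_mem_erase hi)]
        have h7 : (X : I → V) i0 = ∑ i ∈ A0, (X : I → V) i := by
          have hrel := CV_rel hC hu X.2
          have h8 : ∑ i, u i • (X : I → V) i = ∑ i ∈ A, (X : I → V) i := by
            rw [hA, Finset.sum_filter]
            refine Finset.sum_congr rfl (fun i _ => ?_)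
            split_ifs with h
            · rw [h, one_smul]
            · rw [(zmod2_cases (u i)).resolve_right h, zero_smul]
          rw [h8, ← Finset.add_sum_erase _ _ hi0A] at hrel
          have h9 := congrArg (fun z => z + ∑ i ∈ A.erase i0, (X : I → V) i) hrel
          simpa [v_add_cancel] using h9
        have h10 : ∀ ξ : Module.Dual (ZMod 2) V, ∏ i ∈ J, g ξ i ((X : I → V) i)
            = (∏ i ∈ A0, (F ((X : I → V) i) * F ((X : I → V) i + h))) * chi (ξ ((X : I → V) i0))
              * b1 X ^ 2 := by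
          intro ξ
          rw [← Finset.prod_sdiff hAJ, mul_comm]
          congr 1
          · rw [h7, map_sum, chi_sum, ← Finset.prod_mul_distrib]
            refine Finset.prod_congr rfl (fun i hi => ?_)
            simp only [g, if_pos hi]
          · change _ = (∏ i ∈ J \ A0, F ((X : I → V) i)) ^ 2
            rw [← Finset.prod_pow]
            refine Finset.prod_congr rfl (fun i hi => ?_)
            simp only [g, if_neg (Finset.mem_sdiff.1 hi).2]
        simp only [h10]
        have h11 := four_inv (fun x => F x * F (x + h)) ((X : I → V) i0)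
        have hcard : (Fintype.card V : ℝ) ≠ 0 := by
          have : 0 < Fintype.card V := Fintype.card_pos_iff.2 ⟨0⟩
          positivity
        have h12 : ∑ ξ : Module.Dual (ZMod 2) V, pau F h ξ *
            ((∏ i ∈ A0, (F ((X : I → V) i) * F ((X : I → V) i + h))) * chi (ξ ((X : I → V) i0))
              * b1 X ^ 2)
            = ((Fintype.card V : ℝ) * (F ((X : I → V) i0) * F ((X : I → V) i0 + h)))
              * ((∏ i ∈ A0, (F ((X : I → V) i) * F ((X : I → V) i + h))) * b1 X ^ 2) := by
          rw [← h11, Finset.sum_mul]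
          refine Finset.sum_congr rfl (fun ξ _ => ?_)
          unfold pau
          ring
        rw [h12, h5]
        field_simp
      simp only [h4]
      rw [← Finset.mul_sum, Finset.sum_comm]
      congr 1
      refine Finset.sum_congr rfl (fun ξ _ => ?_)
      rw [← Finset.mul_sum, sum_free hC hJ hJc (g ξ), ← Finset.prod_sdiff hAJ]
      have h13 : ∏ i ∈ A0, ∑ v, g ξ i v = pau F h ξ ^ A0.card := by
        rw [Finset.prod_congr rfl (g := fun _ => pau F h ξ), Finset.prod_const]
        intro i hi
        simp only [g, if_pos hi]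
        rfl
      have h14 : ∏ i ∈ J \ A0, ∑ v, g ξ i v = nrm F ^ (J \ A0).card := by
        rw [Finset.prod_congr rfl (g := fun _ => nrm F), Finset.prod_const]
        intro i hi
        simp only [g, if_neg (Finset.mem_sdiff.1 hi).2]
        rfl
      rw [h13, h14, ← hcardA0, pow_succ]
      ring
    rw [h1]
    simp only [h2, h3]
    have h15 : ∀ v : V, ∑ w : V, (Fintype.card V : ℝ)⁻¹ * ∑ ξ : Module.Dual (ZMod 2) V,
            pau F (v + w) ξ ^ a * nrm F ^ (J \ A0).card
        = ∑ w : V, (Fintype.card V : ℝ)⁻¹ * ∑ ξ : Module.Dual (ZMod 2) V,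
            pau F w ξ ^ a * nrm F ^ (J \ A0).card := by
      intro v
      exact Fintype.sum_equiv (Equiv.addLeft v) _ _ (fun w => rfl)
    simp only [h15]
    rw [Finset.sum_const, Finset.card_univ, nsmul_eq_mul, ← Finset.mul_sum, ← mul_assoc,
      mul_inv_cancel₀, one_mul, Finset.sum_mul]
    · refine Finset.sum_congr rfl (fun h _ => ?_)
      rw [Finset.sum_mul]
    · have : 0 < Fintype.card V := Fintype.card_pos_iff.2 ⟨0⟩
      positivity
  rw [hH, hb2sum] at hCS
  have hJcpos : 0 < Jᶜ.card := Finset.card_pos.2 ⟨i0, by simpa using hi0J⟩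
  refine ⟨(J \ A0).card + (Jᶜ.card - 1), ?_, ?_⟩
  · have h1 : (J \ A0).card + A0.card = J.card := by
      rw [Finset.card_sdiff_of_subset hAJ]
      have := Finset.card_le_card hAJ
      omega
    have h2 : J.card + Jᶜ.card = Fintype.card I := Finset.card_add_card_compl J
    omega
  · have hcard : (0 : ℝ) < Fintype.card V := by
      have : 0 < Fintype.card V := Fintype.card_pos_iff.2 ⟨0⟩
      positivity
    rw [pow_add]
    have h3 : (Fintype.card V : ℝ) * ((Fintype.card V : ℝ) * T C F ^ 2)
        ≤ (Fintype.card V : ℝ) * ((∑ h, ∑ ξ : Module.Dual (ZMod 2) V, pau F h ξ ^ a)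
          * (nrm F ^ (J \ A0).card * nrm F ^ (Jᶜ.card - 1))) := by
      calc (Fintype.card V : ℝ) * ((Fintype.card V : ℝ) * T C F ^ 2)
          = ((Fintype.card V : ℝ) * T C F) ^ 2 := by ring
        _ ≤ _ := hCS
        _ = _ := by ring
    exact le_of_mul_le_mul_left h3 hcard

end RMC
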